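import Pool.Agent.Helper33.DV.Lf
import Pool.Agent.Helper41.DV.H8
import Pool.Agent.Helper36.DV.Fg
import Pool.Agent.Helper74.AL.Out
import Pool.Agent.Helper75.CV.Zn

/-!
# Project DV, block GLUE (LO): the input `FamIn` of the final theorem
-/

open Filter Topology

namespace DV

open RP4 (Deloc)

/-- flat circuits -/
theorem flatC_all (hd : Deloc) : FlatC := by
  obtain ⟨c, K, n0, hc, -, -, h⟩ := AL.exists_LP
  exact FC.flatC_of_LP hd h hc

/-- circuits of a given level -/
theorem zoneC_all : ZoneC := by
  obtain ⟨c, K, n0, hc, -, -, h⟩ := AL.exists_LP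
  exact CV.zoneC hc h

/-- the families of blocks -/
theorem famIn (hd : Deloc) : FamIn hd :=
  fun k S _ hU => exists_loFam_of hd (flatC_all hd) zoneC_all k S hU

end DV
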