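import Pool.Agent.Helper33.DV.Ps
import Pool.Agent.Helper41.DV.E12
import Pool.Agent.Helper41.DV.E0
import Pool.Agent.Helper27.GF.Cal1
import Pool.Agent.Helper75.GF.L2c

/-!
# Project DV, block ENV: the environment of a weight
-/

open Finset Filter Topology MeasureTheory

namespace DV

open RP4 (V Adj BdryPar Om dom avg mu Loc Deloc dist1 bdry mass cell)
open GF.Lat (ld DirZ lref Ix XX Xd win)
open GF (Pl Cc Tst JJ lap Env)

/-- the mean of the local family `F` in the floating measure with weight `E` -/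
noncomputable def qt (E F : ℝ → (V → ℤ) → ℝ) (δ : ℝ) : ℝ :=
  MR (fun h => F δ h * E δ h) / MR (E δ)

/-- an even pinned weight with bounded moments of the field -/
structure WDat (l : Filter ℝ) (E : ℝ → (V → ℤ) → ℝ) : Prop where
  nonneg : ∀ δ h, 0 ≤ E δ h
  even : ∀ δ (h h' : V → ℤ), (∀ v, |h v| = |h' v|) → E δ h = E δ h'
  pin : ∀ᶠ δ in l, ∃ s, Pn s (cx (E δ))
  pos : ∀ᶠ δ in l, 0 < MR (E δ)
  mom : ∀ f, Cc f → ∀ n : ℕ, ∃ C : ℝ, ∀ᶠ δ in l, qt E (fun δ h => Xd δ f h ^ (2 * n)) δ ≤ C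

/-- what is needed for an environment -/
structure EnvDat (l : Filter ℝ) (W : Set Pl) (K : ℝ) (E : ℝ → (V → ℤ) → ℝ) : Prop
    extends WDat l E where
  shift : ∀ z ∈ W, ∃ r > 0, ∀ u f, Tst W u → tsupport u ⊆ Metric.ball z r → Tst W f →
    Tendsto (fun δ => qt E (fun δ h => Real.cos (Xd δ (fun w => f w + lap u w) h)) δ -
      Real.exp (K / 2 * JJ f u) * qt E (fun δ h => Real.cos (Xd δ f h)) δ) l (𝓝 0)

/-- the observable `A` is represented by the local family `F` -/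
def RepW (l : Filter ℝ) (A : Ix → ℝ) (F : ℝ → (V → ℤ) → ℝ) : Prop :=
  ∀ᶠ δ in l, (∃ t, AL t (cx (F δ))) ∧ ∀ᶠ D in dom, ∀ g : V → ℤ, A ((δ, D), g) = F δ g

lemma wav_qt (hd : Deloc) {l : Filter ℝ} {E : ℝ → (V → ℤ) → ℝ}
    (hpin : ∀ᶠ δ in l, ∃ s, Pn s (cx (E δ))) (hpos : ∀ᶠ δ in l, 0 < MR (E δ)) {A : Ix → ℝ}
    {F : ℝ → (V → ℤ) → ℝ} (hA : RepW l A F) :
    Tendsto (fun p : ℝ × Finset V => wav (Tcf E) (wc E) p A - qt E F p.1) (l.curry dom) (𝓝 0) := by
  rw [Metric.tendsto_nhds]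
  intro ε hε
  rw [eventually_curry_iff]
  filter_upwards [hpin, hpos, hA] with δ h1 h2 h3
  obtain ⟨s, hs⟩ := h1
  obtain ⟨⟨t, ht⟩, h4⟩ := h3
  have h5 := wav_tendsto hd hs h2.ne' ht
  rw [Metric.tendsto_nhds] at h5
  filter_upwards [h5 ε hε, h4] with D h6 h7
  rw [Real.dist_eq] at h6 ⊢
  rw [sub_zero]
  have h8 : wav (Tcf E) (wc E) (δ, D) A = wav (Tcf E) (wc E) (δ, D) (fun i => F δ i.2) :=
    wav_congr _ fun g _ => h7 g
  rw [h8]
  exact h6

lemma win_al (δ R : ℝ) (hδ : 0 < δ) (hR : 0 ≤ R) {f : Pl → ℝ}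
    (hf : ∀ z, f z ≠ 0 → |z.1| ≤ R ∧ |z.2| ≤ R) (φ : ℝ → ℝ) :
    AL (win δ R) (cx fun h => φ (Xd δ f h)) := by
  intro h h' hh
  have e : Xd δ f h = Xd δ f h' := by
    rw [GF.Lat.Xd_eq hδ hR hf (Finset.Subset.refl _), GF.Lat.Xd_eq hδ hR hf (Finset.Subset.refl _)]
    exact Finset.sum_congr rfl fun x hx => by rw [hh x hx]
  simp only [cx, e]

lemma repW_X {l : Filter ℝ} (hl : l ≤ 𝓝[>] 0) {f : Pl → ℝ} (hf : Cc f) (φ : ℝ → ℝ) :
    RepW l (fun i => φ (XX f i)) (fun δ h => φ (Xd δ f h)) := by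
  obtain ⟨R, hR, hfR⟩ := GF.Lat.cc_box hf
  have h1 : ∀ᶠ δ in l, 0 < δ := hl self_mem_nhdsWithin
  filter_upwards [h1] with δ hδ
  refine ⟨⟨win δ R, win_al δ R hδ hR.le hfR φ⟩, ?_⟩
  refine RP4.eventually_dom.2 ⟨win δ R, fun D hD _ g => ?_⟩
  have h2 : XX f ((δ, D), g) = Xd δ f g := (GF.Lat.Xd_eq hδ hR.le hfR hD g).symm
  simp only [h2]

lemma total_pos (hd : Deloc) {l : Filter ℝ} {E : ℝ → (V → ℤ) → ℝ}
    (hpin : ∀ᶠ δ in l, ∃ s, Pn s (cx (E δ))) (hpos : ∀ᶠ δ in l, 0 < MR (E δ)) :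
    ∀ᶠ p : ℝ × Finset V in l.curry dom, 0 < ∑ g ∈ Tcf E p, wc E p g := by
  rw [eventually_curry_iff]
  filter_upwards [hpin, hpos] with δ h1 h2
  obtain ⟨s, hs⟩ := h1
  have h3 := (MR_tendsto hd hs).eventually (lt_mem_nhds h2)
  have h4 : ∀ᶠ D in dom, BdryPar D 0 := RP4.eventually_dom.2 ⟨∅, fun D _ hD => hD⟩
  filter_upwards [h3, h4] with D h5 h6
  have hc : (0 : ℝ) < (Om D).card := by
    exact_mod_cast Finset.card_pos.2 (RP4.Om_nonempty h6)
  have e2 : ∑ g ∈ Cf (E δ) D, E δ g = ∑ h ∈ Om D, ∑ᶠ k : ℤ, E δ (lev k h) := by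
    have := sum_Cf hs D (fun _ => (1 : ℝ))
    simpa only [one_mul] using this
  unfold Tcf wc
  simp only
  rw [e2]
  have h7 := mul_pos h5 hc
  rwa [div_mul_cancel₀ _ hc.ne'] at h7

lemma mass_nonneg (δ : ℝ) {f : Pl → ℝ} (hf : ∀ z, 0 ≤ f z) (x : V) : 0 ≤ mass δ f x :=
  integral_nonneg fun z => hf z

lemma Cf_neg {s : Finset V} {E : (V → ℤ) → ℝ} (hE : Pn s (cx E))
    (hEa : ∀ g g' : V → ℤ, (∀ v, |g v| = |g' v|) → E g = E g') {D : Finset V} {g : V → ℤ}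
    (hg : g ∈ Cf E D) : -g ∈ Cf E D := by
  obtain ⟨h0, h, hh, k, rfl⟩ := (mem_Cf hE).1 hg
  rw [mem_Cf hE]
  refine ⟨?_, -h, RP4.neg_mem_Zs (le_refl _) hh, -k, ?_⟩
  · rw [hEa (-lev k h) (lev k h) fun v => by simp]
    exact h0
  · funext v
    simp only [lev, Pi.neg_apply]
    ring

lemma odd_sum {s : Finset V} {E : (V → ℤ) → ℝ} (hE : Pn s (cx E))
    (hEa : ∀ g g' : V → ℤ, (∀ v, |g v| = |g' v|) → E g = E g') (D : Finset V) (A : (V → ℤ) → ℝ)
    (hA : ∀ g, A (-g) = -A g) : ∑ g ∈ Cf E D, A g * E g = 0 := by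
  have h1 : ∑ g ∈ Cf E D, A g * E g = ∑ g ∈ Cf E D, A (-g) * E (-g) :=
    (Finset.sum_nbij' (fun g => -g) (fun g => -g) (fun g hg => Cf_neg hE hEa hg)
      (fun g hg => Cf_neg hE hEa hg) (fun g _ => neg_neg g) (fun g _ => neg_neg g)
      fun g _ => by simp).symm.trans
      (Finset.sum_congr rfl fun g _ => rfl)
  have h2 : ∀ g : V → ℤ, A (-g) * E (-g) = -(A g * E g) := fun g => by
    rw [hA, hEa (-g) g fun v => by simp]
    ring
  rw [Finset.sum_congr rfl fun g _ => h2 g, Finset.sum_neg_distrib] at h1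
  linarith

variable {l : Filter ℝ} {W : Set Pl} {K : ℝ} {E : ℝ → (V → ℤ) → ℝ}

lemma WDat.hw (h : WDat l E) : ∀ (p : ℝ × Finset V) (g : V → ℤ), 0 ≤ wc E p g :=
  fun p g => h.nonneg p.1 g

lemma WDat.tot (hd : Deloc) (h : WDat l E) {U : Filter (ℝ × Finset V)} (hU : U ≤ l.curry dom) :
    ∀ᶠ p in U, 0 < ∑ g ∈ Tcf E p, wc E p g := hU (total_pos hd h.pin h.pos)

lemma WDat.pinU (h : WDat l E) {U : Filter (ℝ × Finset V)} (hU : U ≤ l.curry dom) :
    ∀ᶠ p in U, ∃ s, Pn s (cx (E p.1)) := by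
  have h1 : ∀ᶠ p : ℝ × Finset V in l.curry dom, ∃ s, Pn s (cx (E p.1)) := by
    rw [eventually_curry_iff]
    exact h.pin.mono fun δ h => Eventually.of_forall fun _ => h
  exact hU h1

/-- a property of the mesh holds eventually -/
lemma ev_fst {P : ℝ → Prop} (h : ∀ᶠ δ in l, P δ) : ∀ᶠ p : ℝ × Finset V in l.curry dom, P p.1 := by
  rw [eventually_curry_iff]
  exact h.mono fun δ h => Eventually.of_forall fun _ => h

lemma WDat.okX (hd : Deloc) (h : WDat l E) (hl : l ≤ 𝓝[>] 0)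
    {U : Filter (ℝ × Finset V)} (hU : U ≤ l.curry dom) {f : Pl → ℝ} (hf : Cc f) :
    OkW (Tcf E) (wc E) U (XX f) := by
  intro k
  obtain ⟨C, hC⟩ := h.mom f hf k
  have h1 := wav_qt hd h.pin h.pos (repW_X hl hf (fun t => t ^ (2 * k)))
  have h2 : ∀ᶠ p : ℝ × Finset V in l.curry dom,
      wav (Tcf E) (wc E) p (fun i => XX f i ^ (2 * k)) ≤ C + 1 := by
    have h3 := (Metric.tendsto_nhds.1 h1) 1 one_pos
    filter_upwards [h3, ev_fst hC] with p h5 h6
    rw [Real.dist_eq, sub_zero, abs_lt] at h5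
    linarith [h5.2]
  refine ⟨1 + (C + 1), ?_⟩
  filter_upwards [hU h2, h.tot hd hU] with p h5 h6
  calc wav (Tcf E) (wc E) p (fun i => |XX f i| ^ k)
      ≤ wav (Tcf E) (wc E) p (fun i => 1 + XX f i ^ (2 * k)) := by
        refine wav_mono h.hw p fun g _ => ?_
        have h7 : XX f (p, g) ^ (2 * k) = (|XX f (p, g)| ^ k) ^ 2 := by
          rw [← pow_mul, mul_comm k 2, pow_mul, pow_mul, sq_abs]
        rw [h7]
        nlinarith [sq_nonneg (|XX f (p, g)| ^ k - 1), pow_nonneg (abs_nonneg (XX f (p, g))) k]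
    _ = 1 + wav (Tcf E) (wc E) p (fun i => XX f i ^ (2 * k)) := by
        rw [wav_add p (fun _ => (1 : ℝ)) (fun i => XX f i ^ (2 * k)), wav_const h6]
    _ ≤ 1 + (C + 1) := by linarith

/-- the limit state of a weight -/
noncomputable def WDat.st (hd : Deloc) (h : WDat l E) (U : Ultrafilter (ℝ × Finset V))
    (hU : (U : Filter (ℝ × Finset V)) ≤ l.curry dom) : GF.Lim Ix :=
  limW (Tcf E) (wc E) h.hw U (h.tot hd hU)

/-- the state is the limit of the quotients `M (F E) / M E` -/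
lemma WDat.st_tendsto (hd : Deloc) (h : WDat l E) (U : Ultrafilter (ℝ × Finset V))
    (hU : (U : Filter (ℝ × Finset V)) ≤ l.curry dom) {A : Ix → ℝ} {F : ℝ → (V → ℤ) → ℝ}
    (hA : RepW l A F) (hok : (h.st hd U hU).Ok A) :
    Tendsto (fun p : ℝ × Finset V => qt E F p.1) U (𝓝 ((h.st hd U hU).L A)) := by
  have h1 := (wav_qt hd h.pin h.pos hA).mono_left hU
  have h2 := (LW_tendsto h.hw hok).sub h1
  rw [sub_zero] at h2
  refine h2.congr fun p => ?_
  ring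

/-- bounded observables -/
lemma WDat.ok_bdd (hd : Deloc) (h : WDat l E) (U : Ultrafilter (ℝ × Finset V))
    (hU : (U : Filter (ℝ × Finset V)) ≤ l.curry dom) {A : Ix → ℝ} {B : ℝ} (hA : ∀ i, |A i| ≤ B) :
    (h.st hd U hU).Ok A :=
  (h.st hd U hU).ok_of_abs_le A (fun _ => B) (fun i => (hA i).trans (le_abs_self B))
    ((h.st hd U hU).ok_const B)

/-- along an ultrafilter of meshes the quotients converge to the state -/
lemma WDat.st_tendsto' (hd : Deloc) {U₀ : Ultrafilter ℝ} (h : WDat (U₀ : Filter ℝ) E)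
    (U : Ultrafilter (ℝ × Finset V)) (hU : (U : Filter (ℝ × Finset V)) ≤ (U₀ : Filter ℝ).curry dom)
    {A : Ix → ℝ} {F : ℝ → (V → ℤ) → ℝ} (hA : RepW (U₀ : Filter ℝ) A F)
    (hok : (h.st hd U hU).Ok A) :
    Tendsto (fun δ => qt E F δ) U₀ (𝓝 ((h.st hd U hU).L A)) := by
  have h1 := h.st_tendsto hd U hU hA hok
  have h2 : Filter.map Prod.fst (U : Filter (ℝ × Finset V)) ≤ (U₀ : Filter ℝ) := by
    intro S hS
    exact hU (ev_fst hS)
  have h3 : (U.map Prod.fst : Ultrafilter ℝ) = U₀ := Ultrafilter.coe_le_coe.1 h2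
  intro S hS
  have h5 : (fun δ => qt E F δ) ⁻¹' S ∈ Filter.map Prod.fst (U : Filter (ℝ × Finset V)) := h1 hS
  have h6 : (fun δ => qt E F δ) ⁻¹' S ∈ (U.map Prod.fst : Ultrafilter ℝ) := h5
  rw [h3] at h6
  exact h6

lemma WDat.odd (hd : Deloc) (h : WDat l E) (U : Ultrafilter (ℝ × Finset V))
    (hU : (U : Filter (ℝ × Finset V)) ≤ l.curry dom) (f : Pl → ℝ) :
    (h.st hd U hU).L (fun i => Real.sin (XX f i)) = 0 := by
  refine LW_eq (tendsto_const_nhds.congr' ?_)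
  filter_upwards [h.pinU hU] with p hp
  obtain ⟨s, hs⟩ := hp
  unfold wav wsm
  have h2 : ∑ g ∈ Tcf E p, Real.sin (XX f (p, g)) * wc E p g = 0 := by
    refine odd_sum hs (h.even p.1) p.2 (fun g => Real.sin (XX f (p, g))) fun g => ?_
    have e1 : XX f (p, -g) = -XX f (p, g) := by
      unfold XX
      simp only [Pi.neg_apply, Int.cast_neg, mul_neg, Finset.sum_neg_distrib]
    rw [e1, Real.sin_neg]
  rw [h2, zero_div]

lemma WDat.posi (hd : Deloc) (h : WDat l E) (hl : l ≤ 𝓝[>] 0) (U : Ultrafilter (ℝ × Finset V))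
    (hU : (U : Filter (ℝ × Finset V)) ≤ l.curry dom) {f g : Pl → ℝ} (hf : Cc f) (hg : Cc g)
    (hf0 : ∀ z, 0 ≤ f z) (hg0 : ∀ z, 0 ≤ g z) :
    0 ≤ (h.st hd U hU).L (fun i => XX f i * XX g i) := by
  have hok := (h.okX hd hl hU hf).mul h.hw (h.okX hd hl hU hg)
  refine ge_of_tendsto (LW_tendsto h.hw hok) ?_
  filter_upwards [h.pinU hU] with p hp
  obtain ⟨s, hs⟩ := hp
  unfold wav wsm
  refine div_nonneg ?_ (Finset.sum_nonneg fun g _ => h.hw p g)
  have e1 : ∑ k ∈ Tcf E p, XX f (p, k) * XX g (p, k) * wc E p k =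
      ∑ x ∈ p.2, ∑ y ∈ p.2, mass p.1 f x * mass p.1 g y *
        ∑ k ∈ Tcf E p, ((k x : ℝ) * (k y : ℝ)) * E p.1 k := by
    have e2 : ∀ k, XX f (p, k) * XX g (p, k) * wc E p k = ∑ x ∈ p.2, ∑ y ∈ p.2,
        mass p.1 f x * mass p.1 g y * (((k x : ℝ) * (k y : ℝ)) * E p.1 k) := by
      intro k
      unfold XX wc
      rw [Finset.sum_mul_sum, Finset.sum_mul]
      refine Finset.sum_congr rfl fun x _ => ?_
      rw [Finset.sum_mul]
      refine Finset.sum_congr rfl fun y _ => ?_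
      ring
    rw [Finset.sum_congr rfl fun k _ => e2 k, Finset.sum_comm]
    refine Finset.sum_congr rfl fun x _ => ?_
    rw [Finset.sum_comm]
    refine Finset.sum_congr rfl fun y _ => ?_
    rw [Finset.mul_sum]
  rw [e1]
  refine Finset.sum_nonneg fun x _ => Finset.sum_nonneg fun y _ => ?_
  exact mul_nonneg (mul_nonneg (mass_nonneg _ hf0 x) (mass_nonneg _ hg0 y))
    (pos_Cf hs (h.nonneg p.1) (h.even p.1) p.2 x y)

lemma WDat.X_add (f g : Pl → ℝ) (hf : Cc f) (hg : Cc g) (i : Ix) :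
    XX (fun z => f z + g z) i = XX f i + XX g i :=
  GF.Lat.XX_add (hf.smooth.continuous.integrable_of_hasCompactSupport hf.supp)
    (hg.smooth.continuous.integrable_of_hasCompactSupport hg.supp) i

/-- the environment of a weight -/
noncomputable def envOf (hd : Deloc) (hW : IsOpen W) (h : EnvDat l W K E) (hl : l ≤ 𝓝[>] 0)
    (U : Ultrafilter (ℝ × Finset V)) (hU : (U : Filter (ℝ × Finset V)) ≤ l.curry dom) :
    Env Ix W K where
  toLim := h.toWDat.st hd U hU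
  X := XX
  ok_X := fun f hf => h.toWDat.okX hd hl hU hf
  X_add := WDat.X_add
  X_smul := fun c f _ i => GF.Lat.XX_smul c f i
  odd := fun f _ => h.toWDat.odd hd U hU f
  pos := fun f g hf hg hf0 hg0 => h.toWDat.posi hd hl U hU hf hg hf0 hg0
  shift := fun u f hu hf => by
    refine GF.shift_glue hW (fun f => (h.toWDat.st hd U hU).L fun i => Real.cos (XX f i)) ?_ hu hf
    intro z hz
    obtain ⟨r, hr, h1⟩ := h.shift z hz
    refine ⟨r, hr, fun u f hu hur hf => ?_⟩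
    have hlap : Cc (fun w => f w + lap u w) := hf.toCc.add hu.toCc.lap
    have hbd : ∀ f : Pl → ℝ, (h.toWDat.st hd U hU).Ok (fun i => Real.cos (XX f i)) := fun f =>
      h.toWDat.ok_bdd hd U hU fun i => Real.abs_cos_le_one _
    have h5 := h.toWDat.st_tendsto hd U hU (repW_X hl hlap Real.cos) (hbd _)
    have h6 := h.toWDat.st_tendsto hd U hU (repW_X hl hf.toCc Real.cos) (hbd _)
    have h4 : Tendsto (fun p : ℝ × Finset V =>
        qt E (fun δ h => Real.cos (Xd δ (fun w => f w + lap u w) h)) p.1 -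
          Real.exp (K / 2 * JJ f u) * qt E (fun δ h => Real.cos (Xd δ f h)) p.1) U (𝓝 0) := by
      refine Tendsto.mono_left ?_ hU
      rw [Metric.tendsto_nhds]
      intro ε hε
      exact ev_fst ((Metric.tendsto_nhds.1 (h1 u f hu hur hf)) ε hε)
    have h7 := tendsto_nhds_unique h4 (h5.sub (h6.const_mul (Real.exp (K / 2 * JJ f u))))
    have h9 : (h.toWDat.st hd U hU).L (fun i => Real.cos (XX (fun w => f w + lap u w) i)) =
        Real.exp (K / 2 * JJ f u) * (h.toWDat.st hd U hU).L (fun i => Real.cos (XX f i)) := by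
      linarith
    change (h.toWDat.st hd U hU).L (fun i => Real.cos (XX f i)) = Real.exp (-(K / 2 * JJ f u)) *
      (h.toWDat.st hd U hU).L (fun i => Real.cos (XX (fun w => f w + lap u w) i))
    rw [h9, ← mul_assoc, ← Real.exp_add, neg_add_cancel, Real.exp_zero, one_mul]

end DV
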