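import Pool.Agent.Helper35.MD.G4b
import Pool.Agent.Helper41.DV.E11
import Pool.Agent.Helper75.GF.L9a
import Pool.Agent.Helper27.GF.M5
import Pool.Agent.Helper27.GF.Cal1

/-!
# Project DV, block ENV: moments in bounded domains, masses against point values
-/

open Finset Filter Topology MeasureTheory

namespace DV

open RP4 (V BdryPar Om avg mass wt cell)
open GF (Pl Cc lin)

/-- the mass of a cell and the point value -/
lemma wt_mass_pt {f : Pl → ℝ} (hf : Cc f) : ∃ C : ℝ, 0 ≤ C ∧ ∀ δ : ℝ, 0 < δ → ∀ x : V,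
    |mass δ f x - wt δ f x| ≤ C * δ ^ 3 := by
  obtain ⟨C, hC⟩ := ContDiff.lipschitzWith_of_hasCompactSupport hf.supp hf.smooth (by simp)
  refine ⟨C, C.2, fun δ hδ x => ?_⟩
  have hi : Integrable f := hf.integrable
  have hv : (volume : Measure (ℝ × ℝ)) (cell δ x) = ENNReal.ofReal (δ ^ 2) := by
    unfold RP4.cell
    rw [Measure.volume_eq_prod, Measure.prod_prod, Real.volume_Ico, Real.volume_Ico,
      ← ENNReal.ofReal_mul (by nlinarith)]
    congr 1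
    ring
  have hr : (volume : Measure (ℝ × ℝ)).real (cell δ x) = δ ^ 2 := by
    rw [Measure.real, hv, ENNReal.toReal_ofReal (by positivity)]
  have hfin : (volume : Measure (ℝ × ℝ)) (cell δ x) < ⊤ := by
    rw [hv]; exact ENNReal.ofReal_lt_top
  have h1 : wt δ f x = ∫ _ in cell δ x, f (δ * x.1, δ * x.2) := by
    rw [setIntegral_const, hr]; rfl
  rw [h1]
  unfold RP4.mass
  have hc1 : IntegrableOn (fun _ : ℝ × ℝ => f (δ * x.1, δ * x.2)) (cell δ x) volume :=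
    integrableOn_const hfin.ne
  have hc2 : IntegrableOn f (cell δ x) volume := hi.integrableOn
  rw [← integral_sub hc2 hc1, ← Real.norm_eq_abs]
  have h5 : ‖∫ y in cell δ x, (f y - f (δ * x.1, δ * x.2))‖ ≤
      C * δ * (volume : Measure (ℝ × ℝ)).real (cell δ x) := by
    refine norm_setIntegral_le_of_norm_le_const hfin fun y hy => ?_
    have h2 := hC.dist_le_mul y (δ * x.1, δ * x.2)
    rw [Real.dist_eq] at h2
    rw [Real.norm_eq_abs]
    refine h2.trans (mul_le_mul_of_nonneg_left ?_ C.2)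
    have h3 := hy.1
    have h4 := hy.2
    rw [Set.mem_Ico] at h3 h4
    rw [Prod.dist_eq, Real.dist_eq, Real.dist_eq, max_le_iff, abs_le, abs_le]
    refine ⟨⟨?_, ?_⟩, ⟨?_, ?_⟩⟩ <;> dsimp only <;> nlinarith [h3.1, h3.2, h4.1, h4.2]
  refine h5.trans (le_of_eq ?_)
  rw [hr]
  ring

/-- number of sites and diameter of a domain in a bounded region -/
lemma dom_geo {D : Finset V} {R δ : ℝ} (hδ : 0 < δ) (hδ1 : δ ≤ 1) (hR : 0 ≤ R)
    (h : ∀ x ∈ D, |δ * (x.1 : ℝ)| ≤ R ∧ |δ * (x.2 : ℝ)| ≤ R) :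
    ∃ M : ℕ, 1 ≤ M ∧ (M : ℝ) ≤ (2 * R + 1) / δ ∧
      (∀ u ∈ D, ∀ v ∈ D, |u.1 - v.1| ≤ (M : ℤ) ∧ |u.2 - v.2| ≤ (M : ℤ)) ∧
      (D.card : ℝ) ≤ ((2 * R + 1) / δ) ^ 2 := by
  set N : ℕ := ⌊R / δ⌋₊ with hN
  have hRδ : 0 ≤ R / δ := by positivity
  have hN1 : (N : ℝ) ≤ R / δ := Nat.floor_le hRδ
  have hb : ∀ a : ℤ, |δ * (a : ℝ)| ≤ R → |a| ≤ (N : ℤ) := by
    intro a ha
    rw [abs_mul, abs_of_pos hδ, mul_comm, ← le_div_iff₀ hδ] at ha
    have h1 : ((a.natAbs : ℕ) : ℝ) ≤ R / δ := by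
      rw [Nat.cast_natAbs, Int.cast_abs]
      exact ha
    have h2 : a.natAbs ≤ N := Nat.le_floor h1
    have h3 : |a| = (a.natAbs : ℤ) := (Int.natCast_natAbs a).symm
    rw [h3]
    exact_mod_cast h2
  have hM : ((2 * N + 1 : ℕ) : ℝ) ≤ (2 * R + 1) / δ := by
    push_cast
    have h1 : (1 : ℝ) ≤ 1 / δ := by
      rw [le_div_iff₀ hδ]
      linarith
    have h2 : (2 * R + 1) / δ = 2 * (R / δ) + 1 / δ := by ring
    rw [h2]
    linarith
  refine ⟨2 * N + 1, by omega, hM, fun u hu v hv => ?_, ?_⟩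
  · have h1 := abs_le.1 (hb _ (h u hu).1)
    have h2 := abs_le.1 (hb _ (h u hu).2)
    have h3 := abs_le.1 (hb _ (h v hv).1)
    have h4 := abs_le.1 (hb _ (h v hv).2)
    push_cast
    rw [abs_le, abs_le]
    omega
  · have h1 : D ⊆ Finset.Icc (-(N : ℤ)) N ×ˢ Finset.Icc (-(N : ℤ)) N := by
      intro x hx
      rw [Finset.mem_product, Finset.mem_Icc, Finset.mem_Icc]
      exact ⟨abs_le.1 (hb _ (h x hx).1), abs_le.1 (hb _ (h x hx).2)⟩
    have h2 := Finset.card_le_card h1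
    rw [Finset.card_product, Int.card_Icc] at h2
    have h3 : ((N : ℤ) + 1 - -(N : ℤ)).toNat = 2 * N + 1 := by omega
    rw [h3] at h2
    have h4 : (D.card : ℝ) ≤ ((2 * N + 1 : ℕ) : ℝ) * ((2 * N + 1 : ℕ) : ℝ) := by exact_mod_cast h2
    rw [pow_two]
    exact h4.trans (mul_le_mul hM hM (Nat.cast_nonneg _) ((Nat.cast_nonneg _).trans hM))

/-- moments of linear functions in a bounded region of mesh `δ` -/
theorem mom_scale (R : ℝ) (hR : 0 ≤ R) (n : ℕ) : ∃ C : ℝ, 0 ≤ C ∧ ∀ δ : ℝ, 0 < δ → δ ≤ 1 →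
    ∀ D : Finset V, BdryPar D 0 → (∀ x ∈ D, |δ * (x.1 : ℝ)| ≤ R ∧ |δ * (x.2 : ℝ)| ≤ R) →
    ∀ (w : V → ℝ) (A : ℝ), 0 ≤ A → (∀ x ∈ D, |w x| ≤ A * δ ^ 2) →
      avg (Om D) (fun h => |lin D w h| ^ n) ≤ C * A ^ n := by
  obtain ⟨C₀, hC₀, hmd⟩ := MD.mdv
  obtain ⟨C₁, hC₁, hmo⟩ := GF.moments n
  set T : ℝ := 2 * R + 1 with hT
  have hT0 : 0 < T := by rw [hT]; linarith
  refine ⟨C₁ * (Real.sqrt C₀ * T ^ 2 + T ^ 2) ^ n, by positivity, ?_⟩
  intro δ hδ hδ1 D hD hb w A hA hw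
  obtain ⟨M, hM1, hM2, hM3, hM4⟩ := dom_geo hδ hδ1 hR hb
  have hne : (Om D).Nonempty := RP4.Om_nonempty hD
  have hs : ∑ x ∈ D, |w x| ≤ A * T ^ 2 := by
    calc ∑ x ∈ D, |w x| ≤ ∑ _x ∈ D, A * δ ^ 2 := Finset.sum_le_sum hw
      _ = D.card * (A * δ ^ 2) := by rw [Finset.sum_const, nsmul_eq_mul]
      _ ≤ (T / δ) ^ 2 * (A * δ ^ 2) := mul_le_mul_of_nonneg_right hM4 (by positivity)
      _ = A * T ^ 2 := by
          rw [div_pow]
          field_simp
  have h2 : avg (Om D) (fun h => lin D w h ^ 2) ≤ C₀ * (A * T ^ 2) ^ 2 := by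
    have h3 := hmd M hM1 D hD hM3 w (A * δ ^ 2) hw
    refine h3.trans ?_
    have h4 : (M : ℝ) ^ 2 ≤ (T / δ) ^ 2 := pow_le_pow_left₀ (Nat.cast_nonneg _) hM2 2
    calc C₀ * (M : ℝ) ^ 2 * (A * δ ^ 2 * ∑ x ∈ D, |w x|)
        ≤ C₀ * (T / δ) ^ 2 * (A * δ ^ 2 * (A * T ^ 2)) := by gcongr
      _ = C₀ * (A * T ^ 2) ^ 2 := by
          rw [div_pow]
          field_simp
  have h3 : Real.sqrt (avg (Om D) (fun h => lin D w h ^ 2)) ≤ Real.sqrt C₀ * (A * T ^ 2) := by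
    refine (Real.sqrt_le_sqrt h2).trans (le_of_eq ?_)
    rw [Real.sqrt_mul hC₀, Real.sqrt_sq (by positivity)]
  refine (hmo D D w hne).trans ?_
  calc C₁ * (Real.sqrt (avg (Om D) (fun h => lin D w h ^ 2)) + ∑ x ∈ D, |w x|) ^ n
      ≤ C₁ * (Real.sqrt C₀ * (A * T ^ 2) + A * T ^ 2) ^ n := by
        refine mul_le_mul_of_nonneg_left ?_ hC₁
        refine pow_le_pow_left₀ (add_nonneg (Real.sqrt_nonneg _)
          (Finset.sum_nonneg fun _ _ => abs_nonneg _)) (add_le_add h3 hs) n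
    _ = C₁ * (Real.sqrt C₀ * T ^ 2 + T ^ 2) ^ n * A ^ n := by
        rw [mul_assoc, ← mul_pow]
        congr 2
        ring

private lemma avg_le {S : Finset (V → ℤ)} {A B : (V → ℤ) → ℝ} (h : ∀ g, A g ≤ B g) :
    avg S A ≤ avg S B := by
  unfold RP4.avg
  exact div_le_div_of_nonneg_right (Finset.sum_le_sum fun g _ => h g) (Nat.cast_nonneg _)

private lemma avg_smul' {S : Finset (V → ℤ)} (c : ℝ) (A : (V → ℤ) → ℝ) :
    avg S (fun g => c * A g) = c * avg S A := by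
  unfold RP4.avg
  rw [← Finset.mul_sum, mul_div_assoc]

private lemma avg_add' {S : Finset (V → ℤ)} (A B : (V → ℤ) → ℝ) :
    avg S (fun g => A g + B g) = avg S A + avg S B := by
  unfold RP4.avg
  rw [Finset.sum_add_distrib, add_div]

private lemma avg_cs' {S : Finset (V → ℤ)} (A B : (V → ℤ) → ℝ) :
    (avg S (fun g => A g * B g)) ^ 2 ≤ avg S (fun g => A g ^ 2) * avg S (fun g => B g ^ 2) := by
  unfold RP4.avg
  have h := Finset.sum_mul_sq_le_sq_mul_sq S A B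
  rw [div_pow, div_mul_div_comm, ← pow_two ((S.card : ℝ))]
  exact div_le_div_of_nonneg_right h (by positivity)

private lemma abs_pow_sub (X Y : ℝ) (k : ℕ) :
    |X ^ (k + 1) - Y ^ (k + 1)| ≤ (k + 1) * (|X - Y| * (|X| + |Y|) ^ k) := by
  induction k with
  | zero => simp
  | succ k ih =>
    have h1 : X ^ (k + 1 + 1) - Y ^ (k + 1 + 1) =
        X * (X ^ (k + 1) - Y ^ (k + 1)) + (X - Y) * Y ^ (k + 1) := by ring
    rw [h1]
    have h2 : |X * (X ^ (k + 1) - Y ^ (k + 1))| ≤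
        (|X| + |Y|) * ((k + 1) * (|X - Y| * (|X| + |Y|) ^ k)) := by
      rw [abs_mul]
      exact mul_le_mul (by linarith [abs_nonneg Y]) ih (abs_nonneg _) (by positivity)
    have h3 : |(X - Y) * Y ^ (k + 1)| ≤ |X - Y| * (|X| + |Y|) ^ (k + 1) := by
      rw [abs_mul, abs_pow]
      exact mul_le_mul_of_nonneg_left
        (pow_le_pow_left₀ (abs_nonneg _) (by linarith [abs_nonneg X]) _) (abs_nonneg _)
    calc |X * (X ^ (k + 1) - Y ^ (k + 1)) + (X - Y) * Y ^ (k + 1)|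
        ≤ |X * (X ^ (k + 1) - Y ^ (k + 1))| + |(X - Y) * Y ^ (k + 1)| := abs_add_le _ _
      _ ≤ (|X| + |Y|) * ((k + 1) * (|X - Y| * (|X| + |Y|) ^ k)) +
          |X - Y| * (|X| + |Y|) ^ (k + 1) := add_le_add h2 h3
      _ = (((k + 1 : ℕ) : ℝ) + 1) * (|X - Y| * (|X| + |Y|) ^ (k + 1)) := by
          push_cast
          ring

/-- masses and point values give the same moments in the limit -/
theorem md_mass {D : ℝ → Finset V} (hp : ∀ᶠ δ in 𝓝[>] (0 : ℝ), BdryPar (D δ) 0) {R : ℝ}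
    (hR : 0 ≤ R) (hb : ∀ᶠ δ in 𝓝[>] (0 : ℝ), ∀ x ∈ D δ,
      |δ * (x.1 : ℝ)| ≤ R ∧ |δ * (x.2 : ℝ)| ≤ R) {f : Pl → ℝ} (hf : Cc f) (n : ℕ) :
    Tendsto (fun δ => avg (Om (D δ)) (fun h => (∑ x ∈ D δ, mass δ f x * (h x : ℝ)) ^ (2 * n)) -
      GF.md D f n δ) (𝓝[>] (0 : ℝ)) (𝓝 0) := by
  rcases Nat.eq_zero_or_pos n with rfl | hn
  · refine tendsto_const_nhds.congr fun δ => ?_
    unfold GF.md
    simp
  obtain ⟨k, hk⟩ : ∃ k, 2 * n = k + 1 := ⟨2 * n - 1, by omega⟩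
  obtain ⟨Cf, hCf, hmw⟩ := wt_mass_pt hf
  obtain ⟨B, hB, hfB⟩ := hf.bdd
  obtain ⟨C₂, hC₂, hm2⟩ := mom_scale R hR 2
  obtain ⟨C₃, hC₃, hm3⟩ := mom_scale R hR (2 * k)
  set B' : ℝ := B + Cf with hB'
  have hB0 : 0 ≤ B' := by positivity
  set Q : ℝ := 2 ^ (2 * k - 1) * (C₃ * B' ^ (2 * k) + C₃ * B' ^ (2 * k)) with hQ
  have hQ0 : 0 ≤ Q := by positivity
  have key : ∀ᶠ δ in 𝓝[>] (0 : ℝ),
      |avg (Om (D δ)) (fun h => (∑ x ∈ D δ, mass δ f x * (h x : ℝ)) ^ (2 * n)) - GF.md D f n δ| ≤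
        (k + 1) * Real.sqrt (C₂ * Cf ^ 2 * Q) * δ := by
    have h1 : ∀ᶠ δ in 𝓝[>] (0 : ℝ), δ ≤ 1 := by
      have : Set.Ioc (0 : ℝ) 1 ∈ 𝓝[>] (0 : ℝ) := Ioc_mem_nhdsGT one_pos
      filter_upwards [this] with δ h
      exact h.2
    filter_upwards [hp, hb, self_mem_nhdsWithin, h1] with δ hp hb hδ hδ1
    have hδ : 0 < δ := hδ
    set S := Om (D δ)
    set X : (V → ℤ) → ℝ := fun h => lin (D δ) (mass δ f) h with hX
    set Y : (V → ℤ) → ℝ := fun h => lin (D δ) (wt δ f) h with hY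
    have e1 : ∀ h : V → ℤ, (∑ x ∈ D δ, mass δ f x * (h x : ℝ)) = X h := fun _ => rfl
    have e2 : ∀ h : V → ℤ, GF.prD δ f (D δ) h = Y h := by
      intro h
      rw [hY]
      unfold GF.prD lin wt
      rw [Finset.mul_sum]
      exact Finset.sum_congr rfl fun x _ => by ring
    have hwt : ∀ x ∈ D δ, |wt δ f x| ≤ B' * δ ^ 2 := by
      intro x _
      unfold wt
      rw [abs_mul, abs_of_nonneg (by positivity : (0 : ℝ) ≤ δ ^ 2), mul_comm]
      refine mul_le_mul_of_nonneg_right ?_ (by positivity)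
      exact (hfB _).trans (by linarith)
    have hms : ∀ x ∈ D δ, |mass δ f x| ≤ B' * δ ^ 2 := by
      intro x _
      have h2 := hmw δ hδ x
      have h3 : |wt δ f x| ≤ B * δ ^ 2 := by
        unfold wt
        rw [abs_mul, abs_of_nonneg (by positivity : (0 : ℝ) ≤ δ ^ 2), mul_comm]
        exact mul_le_mul_of_nonneg_right (hfB _) (by positivity)
      have h4 : |mass δ f x| ≤ |mass δ f x - wt δ f x| + |wt δ f x| := by
        have := abs_add_le (mass δ f x - wt δ f x) (wt δ f x)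
        rwa [sub_add_cancel] at this
      have h5 : Cf * δ ^ 3 ≤ Cf * δ ^ 2 := by
        refine mul_le_mul_of_nonneg_left ?_ hCf
        exact pow_le_pow_of_le_one hδ.le hδ1 (by norm_num)
      rw [hB']
      nlinarith
    have hdf : ∀ x ∈ D δ, |mass δ f x - wt δ f x| ≤ (Cf * δ) * δ ^ 2 := by
      intro x _
      refine (hmw δ hδ x).trans (le_of_eq ?_)
      ring
    have hXY : ∀ h : V → ℤ, lin (D δ) (fun x => mass δ f x - wt δ f x) h = X h - Y h := by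
      intro h
      rw [hX, hY]
      unfold lin
      rw [← Finset.sum_sub_distrib]
      exact Finset.sum_congr rfl fun x _ => by ring
    have a1 : avg S (fun h => |X h - Y h| ^ 2) ≤ C₂ * (Cf * δ) ^ 2 := by
      have := hm2 δ hδ hδ1 (D δ) hp hb (fun x => mass δ f x - wt δ f x) (Cf * δ) (by positivity) hdf
      simp only [hXY] at this
      exact this
    have a2 : avg S (fun h => |X h| ^ (2 * k)) ≤ C₃ * B' ^ (2 * k) :=
      hm3 δ hδ hδ1 (D δ) hp hb (mass δ f) B' hB0 hms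
    have a3 : avg S (fun h => |Y h| ^ (2 * k)) ≤ C₃ * B' ^ (2 * k) :=
      hm3 δ hδ hδ1 (D δ) hp hb (wt δ f) B' hB0 hwt
    have a4 : avg S (fun h => ((|X h| + |Y h|) ^ k) ^ 2) ≤ Q := by
      have h2 : ∀ h : V → ℤ, ((|X h| + |Y h|) ^ k) ^ 2 ≤
          2 ^ (2 * k - 1) * (|X h| ^ (2 * k) + |Y h| ^ (2 * k)) := by
        intro h
        rw [← pow_mul, mul_comm k 2]
        exact add_pow_le (abs_nonneg _) (abs_nonneg _) (2 * k)
      refine (avg_le h2).trans ?_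
      rw [avg_smul', avg_add']
      exact mul_le_mul_of_nonneg_left (add_le_add a2 a3) (by positivity)
    have a5 := avg_cs' (S := S) (fun h => |X h - Y h|) (fun h => (|X h| + |Y h|) ^ k)
    have a6 : avg S (fun h => |X h - Y h| * (|X h| + |Y h|) ^ k) ≤
        Real.sqrt (C₂ * Cf ^ 2 * Q) * δ := by
      refine le_trans (Real.le_sqrt_of_sq_le a5) ?_
      have h3 : avg S (fun h => |X h - Y h| ^ 2) * avg S (fun h => ((|X h| + |Y h|) ^ k) ^ 2) ≤
          (C₂ * (Cf * δ) ^ 2) * Q := by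
        refine mul_le_mul a1 a4 ?_ (by positivity)
        unfold RP4.avg
        positivity
      refine (Real.sqrt_le_sqrt h3).trans (le_of_eq ?_)
      have h4 : C₂ * (Cf * δ) ^ 2 * Q = (C₂ * Cf ^ 2 * Q) * δ ^ 2 := by ring
      rw [h4, Real.sqrt_mul (by positivity), Real.sqrt_sq hδ.le]
    have e3 : avg S (fun h => (∑ x ∈ D δ, mass δ f x * (h x : ℝ)) ^ (2 * n)) - GF.md D f n δ =
        avg S (fun h => X h ^ (k + 1) - Y h ^ (k + 1)) := by
      unfold GF.md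
      simp only [e1, e2, hk]
      unfold RP4.avg
      rw [Finset.sum_sub_distrib, sub_div]
    rw [e3]
    have a7 : |avg S (fun h => X h ^ (k + 1) - Y h ^ (k + 1))| ≤
        avg S (fun h => (k + 1) * (|X h - Y h| * (|X h| + |Y h|) ^ k)) := by
      unfold RP4.avg
      rw [abs_div, abs_of_nonneg (Nat.cast_nonneg (α := ℝ) S.card)]
      refine div_le_div_of_nonneg_right ?_ (Nat.cast_nonneg _)
      exact (Finset.abs_sum_le_sum_abs _ _).trans
        (Finset.sum_le_sum fun h _ => abs_pow_sub _ _ k)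
    refine a7.trans ?_
    rw [avg_smul', mul_assoc]
    exact mul_le_mul_of_nonneg_left a6 (by positivity)
  refine squeeze_zero_norm' (a := fun δ => (k + 1) * Real.sqrt (C₂ * Cf ^ 2 * Q) * δ) ?_ ?_
  · filter_upwards [key] with δ h
    rw [Real.norm_eq_abs]
    exact h
  · have h2 : Tendsto (fun δ : ℝ => (k + 1) * Real.sqrt (C₂ * Cf ^ 2 * Q) * δ) (𝓝 0)
        (𝓝 ((k + 1) * Real.sqrt (C₂ * Cf ^ 2 * Q) * 0)) := tendsto_id.const_mul _
    rw [mul_zero] at h2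
    exact h2.mono_left nhdsWithin_le_nhds

end DV
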