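import Pool.Agent.Helper75.GF.L3c

/-!
# Project DV, block PL: definitions

`lev k h = h - 2k`.  An observable is a function `A : (V → ℤ) → ℂ`; `AL s A`: it depends only on the
heights on `s`; `Phs φ A`: `A (h - 2k) = exp (-2 i k φ) A h`; `Pn s A`: local on `s` and pinned (it
vanishes unless some height on `s` is small).  `muP F` is the infinite volume state for the level
invariant observables (`Phs 0`), `M A = muP (per A)`, `per A h = ∑ A (h - 2k)`, the floating measure on
pinned observables.
-/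

open Finset Filter Topology

namespace DV

open RP4 (V Adj BdryPar Om dom avg mu Loc Deloc dist1)
open GF.Lat (ld DirZ lref)

/-- height functions on the whole lattice -/
structure GH (h : V → ℤ) : Prop where
  par : ∀ v, Even (h v - RP4.par v)
  step : ∀ u v, Adj u v → |h u - h v| = 1

/-- `A` depends only on the heights on `s` -/
def AL (s : Finset V) (A : (V → ℤ) → ℂ) : Prop :=
  ∀ h h' : V → ℤ, (∀ x ∈ s, h x = h' x) → A h = A h'

/-- `h` lowered by the even level `2k` -/
def lev (k : ℤ) (h : V → ℤ) : V → ℤ := fun v => h v - 2 * k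

/-- `h` normalised at `w`: the value at `w` becomes the parity of `w` -/
def nrm (w : V) (h : V → ℤ) : V → ℤ := fun v => h v - h w + RP4.par w

/-- `A` has phase `φ`: `A (h - 2k) = exp (- 2 i k φ) A h` -/
def Phs (φ : ℝ) (A : (V → ℤ) → ℂ) : Prop :=
  ∀ (k : ℤ) (h : V → ℤ), A (lev k h) = Complex.exp (-(2 * k * φ : ℝ) * Complex.I) * A h

/-- local on `s` and pinned -/
structure Pn (s : Finset V) (A : (V → ℤ) → ℂ) : Prop where
  loc : AL s A
  pin : ∃ N : ℤ, ∀ h : V → ℤ, A h ≠ 0 → ∃ x ∈ s, |h x| ≤ N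

/-- the average of a complex function -/
noncomputable def avc (S : Finset (V → ℤ)) (F : (V → ℤ) → ℂ) : ℂ := (∑ g ∈ S, F g) / S.card

/-- the infinite volume state (for level invariant local observables) -/
noncomputable def muP (F : (V → ℤ) → ℂ) : ℂ := limUnder dom (fun D => avc (Om D) F)

/-- the sum over the levels -/
noncomputable def per (A : (V → ℤ) → ℂ) (h : V → ℤ) : ℂ := ∑ᶠ k : ℤ, A (lev k h)

/-- the sum over the levels with the phase `φ` -/
noncomputable def perp (φ : ℝ) (A : (V → ℤ) → ℂ) (h : V → ℤ) : ℂ :=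
  ∑ᶠ k : ℤ, Complex.exp (-(2 * k * φ : ℝ) * Complex.I) * A (lev k h)

/-- the floating measure in the domain `D` -/
noncomputable def MD (D : Finset V) (A : (V → ℤ) → ℂ) : ℂ := avc (Om D) (per A)

/-- the floating measure -/
noncomputable def M (A : (V → ℤ) → ℂ) : ℂ := muP (per A)

/-- the observable reflected in the line `ld d x = m` -/
def rfo (d : ℤ × ℤ) (m : ℤ) (A : (V → ℤ) → ℂ) : (V → ℤ) → ℂ := fun h => A (fun v => h (lref d m v))

/-- the translated observable -/
def tro (u : V) (A : (V → ℤ) → ℂ) : (V → ℤ) → ℂ := fun h => A (fun v => h (v + u))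

/-- `A * conj (θ B)`, `θ` the reflection in the line `ld d x = m` -/
noncomputable def rpr (d : ℤ × ℤ) (m : ℤ) (A B : (V → ℤ) → ℂ) : (V → ℤ) → ℂ :=
  fun h => A h * (starRingEnd ℂ) (rfo d m B h)

/-- the square of the reflection norm of a pinned observable -/
noncomputable def sqn (d : ℤ × ℤ) (m : ℤ) (A : (V → ℤ) → ℂ) : ℝ := (M (rpr d m A A)).re

/-- the square of the strong reflection norm: `muP (|A|° * θ |A|°)`, `|A|° = ∑ |A| (h - 2k)` -/
noncomputable def sqN (d : ℤ × ℤ) (m : ℤ) (A : (V → ℤ) → ℂ) : ℝ :=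
  (muP (rpr d m (per fun h => (‖A h‖ : ℂ)) (per fun h => (‖A h‖ : ℂ)))).re

end DV
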