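import Pool.Agent.Helper33.DV.Ev3
import Pool.Agent.Helper41.DV.G0

/-!
# Project DV, block ENV: sequences of weights
-/

open Finset Filter Topology MeasureTheory

namespace DV

open RP4 (V Adj BdryPar Om dom avg mu Loc Deloc dist1 bdry mass cell)
open GF.Lat (ld DirZ lref Ix XX Xd win)
open GF (Pl Cc Tst JJ lap Env SeqEnv)

/-! ### real observables -/

lemma finsum_mono' {f g : ℤ → ℝ} (hf : (Function.support f).Finite)
    (hg : (Function.support g).Finite) (h : ∀ k, f k ≤ g k) : ∑ᶠ k, f k ≤ ∑ᶠ k, g k := by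
  classical
  set T : Finset ℤ := hf.toFinset ∪ hg.toFinset
  rw [finsum_eq_sum_of_support_subset (s := T) f fun k hk =>
      Finset.mem_coe.2 (Finset.mem_union_left _ (hf.mem_toFinset.2 hk)),
    finsum_eq_sum_of_support_subset (s := T) g fun k hk =>
      Finset.mem_coe.2 (Finset.mem_union_right _ (hg.mem_toFinset.2 hk))]
  exact Finset.sum_le_sum fun k _ => h k

lemma MR_mono (hd : Deloc) {s t : Finset V} {A B : (V → ℤ) → ℝ} (hA : Pn s (cx A))
    (hB : Pn t (cx B)) (h : ∀ g, A g ≤ B g) : MR A ≤ MR B := by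
  have := RP4.dom_neBot
  refine le_of_tendsto_of_tendsto' (MR_tendsto hd hA) (MR_tendsto hd hB) fun D => ?_
  refine div_le_div_of_nonneg_right (Finset.sum_le_sum fun g _ => ?_) (Nat.cast_nonneg _)
  exact finsum_mono' (hA.finR g) (hB.finR g) fun k => h _

lemma MR_add (hd : Deloc) {s : Finset V} {A B : (V → ℤ) → ℝ} (hA : Pn s (cx A))
    (hB : Pn s (cx B)) : MR (fun h => A h + B h) = MR A + MR B := by
  have h1 := M_add hd hA hB
  have h2 : (fun g => cx A g + cx B g) = cx (fun h => A h + B h) := by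
    funext g
    simp only [cx, Complex.ofReal_add]
  rw [h2] at h1
  unfold MR
  rw [h1, Complex.add_re]

lemma MR_smul (hd : Deloc) {s : Finset V} {A : (V → ℤ) → ℝ} (hA : Pn s (cx A)) (c : ℝ) :
    MR (fun h => c * A h) = c * MR A := by
  have h1 := M_smul hd hA (c : ℂ)
  have h2 : (fun g => (c : ℂ) * cx A g) = cx (fun h => c * A h) := by
    funext g
    simp only [cx, Complex.ofReal_mul]
  rw [h2] at h1
  unfold MR
  rw [h1, Complex.re_ofReal_mul]

lemma Pn.smulR {s : Finset V} {A : (V → ℤ) → ℝ} (hA : Pn s (cx A)) (c : ℝ) :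
    Pn s (cx fun h => c * A h) := by
  refine ⟨fun h h' hh => ?_, ?_⟩
  · have h1 := hA.loc h h' hh
    simp only [cx] at h1 ⊢
    push_cast
    rw [h1]
  · obtain ⟨N, hN⟩ := hA.pin
    refine ⟨N, fun h hh => hN h fun h0 => hh ?_⟩
    simp only [cx] at h0 ⊢
    push_cast
    rw [h0, mul_zero]

lemma Pn.addR {s : Finset V} {A B : (V → ℤ) → ℝ} (hA : Pn s (cx A)) (hB : Pn s (cx B)) :
    Pn s (cx fun h => A h + B h) := by
  refine ⟨fun h h' hh => ?_, ?_⟩
  · have h1 := hA.loc h h' hh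
    have h2 := hB.loc h h' hh
    simp only [cx] at h1 h2 ⊢
    push_cast
    rw [h1, h2]
  · obtain ⟨N, hN⟩ := hA.pin
    obtain ⟨N', hN'⟩ := hB.pin
    refine ⟨max N N', fun h hh => ?_⟩
    by_cases h0 : cx A h = 0
    · have h1 : cx B h ≠ 0 := fun h2 => hh (by
        simp only [cx] at h0 h2 ⊢
        push_cast
        rw [h0, h2, add_zero])
      obtain ⟨x, hx, hx2⟩ := hN' h h1
      exact ⟨x, hx, hx2.trans (le_max_right _ _)⟩
    · obtain ⟨x, hx, hx2⟩ := hN h h0
      exact ⟨x, hx, hx2.trans (le_max_left _ _)⟩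

/-- removing a small part of the weight -/
lemma quot_compare (hd : Deloc) {s t : Finset V} {E F A : (V → ℤ) → ℝ} (hE : Pn s (cx E))
    (hF : Pn s (cx F)) (hF0 : ∀ g, 0 ≤ F g) (hFE : ∀ g, F g ≤ E g) (hA : AL t (cx A))
    (hA1 : ∀ g, |A g| ≤ 1) (hpos : 0 < MR F) {e : ℝ} (he : MR E - MR F ≤ e * MR F) :
    |MR (fun h => A h * F h) / MR F - MR (fun h => A h * E h) / MR E| ≤ 2 * e := by
  classical
  have hdiff : Pn s (cx fun h => E h - F h) := by
    have h1 := hE.addR (hF.smulR (-1))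
    have h2 : (fun h => E h + -1 * F h) = fun h => E h - F h := by
      funext h
      ring
    rw [h2] at h1
    exact h1
  have hEF : MR F ≤ MR E := MR_mono hd hF hE hFE
  have hEpos : 0 < MR E := hpos.trans_le hEF
  have hAE := Pn.mulR hA hE
  have hAF := Pn.mulR hA hF
  have hAd := Pn.mulR hA hdiff
  -- the difference
  have e1 : MR (fun h => A h * E h) = MR (fun h => A h * F h) + MR (fun h => A h * (E h - F h)) := by
    rw [← MR_add hd hAF hAd]
    congr 1
    funext h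
    ring
  have e2 : MR E = MR F + MR (fun h => E h - F h) := by
    rw [← MR_add hd hF hdiff]
    congr 1
    funext h
    ring
  have b1 : |MR (fun h => A h * (E h - F h))| ≤ MR (fun h => E h - F h) := by
    rw [abs_le]
    constructor
    · have h1 := MR_mono hd (hdiff.smulR (-1)) hAd fun g => by
        have h2 := abs_le.1 (hA1 g)
        have h3 : 0 ≤ E g - F g := sub_nonneg.2 (hFE g)
        nlinarith
      rw [MR_smul hd hdiff] at h1
      linarith
    · exact MR_mono hd hAd hdiff fun g => by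
        have h2 := abs_le.1 (hA1 g)
        have h3 : 0 ≤ E g - F g := sub_nonneg.2 (hFE g)
        nlinarith
  have b2 : |MR (fun h => A h * E h)| ≤ MR E := by
    have hE0 : ∀ g, 0 ≤ E g := fun g => (hF0 g).trans (hFE g)
    rw [abs_le]
    constructor
    · have h1 := MR_mono hd (hE.smulR (-1)) hAE fun g => by
        have h2 := abs_le.1 (hA1 g)
        have h3 := hE0 g
        nlinarith
      rw [MR_smul hd hE] at h1
      linarith
    · exact MR_mono hd hAE hE fun g => by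
        have h2 := abs_le.1 (hA1 g)
        have h3 := hE0 g
        nlinarith
  have hd' : MR (fun h => E h - F h) ≤ e * MR F := by linarith
  have hd0 : 0 ≤ MR (fun h => E h - F h) := (abs_nonneg _).trans b1
  have k1 : MR (fun h => A h * F h) / MR F - MR (fun h => A h * E h) / MR E =
      -(MR (fun h => A h * (E h - F h)) / MR F) +
        (MR (fun h => A h * E h) / MR E) * (MR (fun h => E h - F h) / MR F) := by
    have h3 : MR (fun h => E h - F h) = MR E - MR F := by linarith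
    have h4 : MR (fun h => A h * F h) = MR (fun h => A h * E h) -
      MR (fun h => A h * (E h - F h)) := by linarith
    rw [h3, h4]
    field_simp
    ring
  rw [k1]
  have k2 : |MR (fun h => A h * (E h - F h)) / MR F| ≤ e := by
    rw [abs_div, abs_of_pos hpos, div_le_iff₀ hpos]
    exact b1.trans hd'
  have k3 : |(MR (fun h => A h * E h) / MR E) * (MR (fun h => E h - F h) / MR F)| ≤ e := by
    rw [abs_mul, abs_div, abs_div, abs_of_pos hEpos, abs_of_pos hpos, abs_of_nonneg hd0]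
    have h5 : |MR (fun h => A h * E h)| / MR E ≤ 1 := by
      rw [div_le_one hEpos]
      exact b2
    have h6 : MR (fun h => E h - F h) / MR F ≤ e := by
      rw [div_le_iff₀ hpos]
      exact hd'
    have h7 : 0 ≤ MR (fun h => E h - F h) / MR F := by positivity
    calc _ ≤ 1 * (MR (fun h => E h - F h) / MR F) := mul_le_mul_of_nonneg_right h5 h7
      _ ≤ e := by rw [one_mul]; exact h6
  calc _ ≤ |-(MR (fun h => A h * (E h - F h)) / MR F)| +
        |(MR (fun h => A h * E h) / MR E) * (MR (fun h => E h - F h) / MR F)| := abs_add_le _ _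
    _ ≤ e + e := by
        rw [abs_neg]
        exact add_le_add k2 k3
    _ = 2 * e := by ring

/-! ### sequences of weights -/

/-- a sequence of weights with uniform moments and approximate shift identity -/
structure SeqDat (U₀ : Ultrafilter ℝ) (W : Set Pl) (K : ℝ) (F : ℕ → ℝ → (V → ℤ) → ℝ) : Prop where
  wd : ∀ j, WDat (U₀ : Filter ℝ) (F j)
  mom : ∀ f, Cc f → ∀ n : ℕ, ∃ C : ℝ, ∀ j, ∀ᶠ δ in (U₀ : Filter ℝ),
    qt (F j) (fun δ h => Xd δ f h ^ (2 * n)) δ ≤ C
  shift : ∀ z ∈ W, ∃ r > 0, ∀ u f, Tst W u → tsupport u ⊆ Metric.ball z r → Tst W f → ∀ ε > 0,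
    ∀ᶠ j in atTop, ∀ᶠ δ in (U₀ : Filter ℝ),
      |qt (F j) (fun δ h => Real.cos (Xd δ (fun w => f w + lap u w) h)) δ -
        Real.exp (K / 2 * JJ f u) * qt (F j) (fun δ h => Real.cos (Xd δ f h)) δ| ≤ ε

lemma curry_neBot (l : Filter ℝ) [l.NeBot] : (l.curry dom).NeBot := by
  have hd : dom.NeBot := RP4.dom_neBot
  refine ⟨fun h => ?_⟩
  have h1 : ∀ᶠ p in l.curry dom, False := by
    rw [h]
    exact eventually_bot
  rw [eventually_curry_iff] at h1
  obtain ⟨δ, h2⟩ := h1.exists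
  obtain ⟨D, h3⟩ := h2.exists
  exact h3

lemma RepW.mul {l : Filter ℝ} {A B : Ix → ℝ} {F G : ℝ → (V → ℤ) → ℝ} (hA : RepW l A F)
    (hB : RepW l B G) : RepW l (fun i => A i * B i) (fun δ h => F δ h * G δ h) := by
  classical
  filter_upwards [hA, hB] with δ h1 h2
  obtain ⟨⟨s, hs⟩, h1⟩ := h1
  obtain ⟨⟨t, ht⟩, h2⟩ := h2
  refine ⟨⟨s ∪ t, fun h h' hh => ?_⟩, ?_⟩
  · have e1 := hs h h' fun x hx => hh x (Finset.mem_union_left _ hx)
    have e2 := ht h h' fun x hx => hh x (Finset.mem_union_right _ hx)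
    simp only [cx] at e1 e2 ⊢
    push_cast
    rw [e1, e2]
  · filter_upwards [h1, h2] with D h3 h4 g
    rw [h3, h4]

variable {W : Set Pl} {K : ℝ} {F : ℕ → ℝ → (V → ℤ) → ℝ} {U₀ : Ultrafilter ℝ}

lemma abs_pow_le_even (x : ℝ) (k : ℕ) : |x| ^ k ≤ 1 + x ^ (2 * k) := by
  have h7 : x ^ (2 * k) = (|x| ^ k) ^ 2 := by
    rw [← pow_mul, mul_comm k 2, pow_mul, pow_mul, sq_abs]
  rw [h7]
  nlinarith [sq_nonneg (|x| ^ k - 1), pow_nonneg (abs_nonneg x) k]

/-- the sequence of states of a sequence of weights -/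
theorem SeqDat.seqEnv (hd : Deloc) (hU₀ : (U₀ : Filter ℝ) ≤ 𝓝[>] 0) (h : SeqDat U₀ W K F) :
    ∃ S : SeqEnv Ix W K, S.X = XX ∧
      (∀ f, Cc f → ∀ (n j : ℕ) (c : ℝ), (∀ᶠ δ in (U₀ : Filter ℝ),
        qt (F j) (fun δ h => Xd δ f h ^ n) δ ≤ c) → (S.M j).L (fun i => S.X f i ^ n) ≤ c) ∧
      (∀ f, Cc f → ∀ (n j : ℕ) (c : ℝ), (∀ᶠ δ in (U₀ : Filter ℝ),
        c ≤ qt (F j) (fun δ h => Xd δ f h ^ n) δ) → c ≤ (S.M j).L (fun i => S.X f i ^ n)) ∧
      (∀ f g, Cc f → Cc g → ∀ (j : ℕ) (c : ℝ), (∀ᶠ δ in (U₀ : Filter ℝ),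
        qt (F j) (fun δ h => Xd δ f h * Xd δ g h) δ ≤ c) →
          (S.M j).L (fun i => S.X f i * S.X g i) ≤ c) := by
  have := curry_neBot (U₀ : Filter ℝ)
  set U : Ultrafilter (ℝ × Finset V) := Ultrafilter.of ((U₀ : Filter ℝ).curry dom) with hUdef
  have hU : (U : Filter (ℝ × Finset V)) ≤ (U₀ : Filter ℝ).curry dom := Ultrafilter.of_le _
  have hok : ∀ f, Cc f → ∀ j, ((h.wd j).st hd U hU).Ok (XX f) := fun f hf j =>
    (h.wd j).okX hd hU₀ hU hf
  have hpow : ∀ f, Cc f → ∀ j n, ((h.wd j).st hd U hU).Ok (fun i => XX f i ^ n) := fun f hf j n =>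
    ((h.wd j).st hd U hU).ok_pow (XX f) (hok f hf j) n
  have hlim : ∀ f, Cc f → ∀ j n, Tendsto (fun δ => qt (F j) (fun δ h => Xd δ f h ^ n) δ)
      (U₀ : Filter ℝ) (𝓝 (((h.wd j).st hd U hU).L (fun i => XX f i ^ n))) := fun f hf j n =>
    (h.wd j).st_tendsto' hd U hU (repW_X hU₀ hf (fun t => t ^ n)) (hpow f hf j n)
  have hcos : ∀ f, Cc f → ∀ j, Tendsto (fun δ => qt (F j) (fun δ h => Real.cos (Xd δ f h)) δ)
      (U₀ : Filter ℝ) (𝓝 (((h.wd j).st hd U hU).L (fun i => Real.cos (XX f i)))) := fun f hf j =>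
    (h.wd j).st_tendsto' hd U hU (repW_X hU₀ hf Real.cos)
      ((h.wd j).ok_bdd hd U hU fun i => Real.abs_cos_le_one _)
  refine ⟨{ M := fun j => (h.wd j).st hd U hU
            X := XX
            ok_X := fun f hf j => hok f hf j
            mom := fun f hf n => ?_
            X_add := WDat.X_add
            X_smul := fun c f _ i => GF.Lat.XX_smul c f i
            odd := fun f _ j => (h.wd j).odd hd U hU f
            pos := fun f g hf hg hf0 hg0 j => (h.wd j).posi hd hU₀ U hU hf hg hf0 hg0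
            shift := fun z hz => ?_ }, rfl, ?_, ?_, ?_⟩
  · obtain ⟨C, hC⟩ := h.mom f hf n
    refine ⟨1 + C, fun j => ?_⟩
    have h1 : ((h.wd j).st hd U hU).L (fun i => XX f i ^ (2 * n)) ≤ C :=
      le_of_tendsto (hlim f hf j (2 * n)) (hC j)
    have h2 := ((h.wd j).st hd U hU).L_mono (fun i => |XX f i| ^ n)
      (fun i => 1 + XX f i ^ (2 * n))
      (((h.wd j).st hd U hU).ok_pow _ (((h.wd j).st hd U hU).ok_abs _ (hok f hf j)) n)
      (((h.wd j).st hd U hU).ok_add _ _ (((h.wd j).st hd U hU).ok_const 1) (hpow f hf j (2 * n)))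
      fun i => abs_pow_le_even _ _
    rw [((h.wd j).st hd U hU).L_add _ _ (((h.wd j).st hd U hU).ok_const 1) (hpow f hf j (2 * n)),
      ((h.wd j).st hd U hU).L_one] at h2
    linarith
  · obtain ⟨r, hr, hs⟩ := h.shift z hz
    refine ⟨r, hr, fun u f hu hur hf ε hε => ?_⟩
    have hlap : Cc (fun w => f w + lap u w) := hf.toCc.add hu.toCc.lap
    filter_upwards [hs u f hu hur hf (ε * Real.exp (K / 2 * JJ f u))
      (mul_pos hε (Real.exp_pos _))] with j hj
    have h1 := (hcos _ hlap j).sub ((hcos f hf.toCc j).const_mul (Real.exp (K / 2 * JJ f u)))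
    have h2 := le_of_tendsto h1.abs hj
    set a := ((h.wd j).st hd U hU).L (fun i => Real.cos (XX (fun w => f w + lap u w) i))
    set b := ((h.wd j).st hd U hU).L (fun i => Real.cos (XX f i))
    have h3 : b - Real.exp (-(K / 2 * JJ f u)) * a =
        -(Real.exp (-(K / 2 * JJ f u)) * (a - Real.exp (K / 2 * JJ f u) * b)) := by
      have h4 : Real.exp (-(K / 2 * JJ f u)) * Real.exp (K / 2 * JJ f u) = 1 := by
        rw [← Real.exp_add, neg_add_cancel, Real.exp_zero]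
      have h5 : Real.exp (-(K / 2 * JJ f u)) * (a - Real.exp (K / 2 * JJ f u) * b) =
          Real.exp (-(K / 2 * JJ f u)) * a -
            (Real.exp (-(K / 2 * JJ f u)) * Real.exp (K / 2 * JJ f u)) * b := by ring
      rw [h5, h4]
      ring
    rw [h3, abs_neg, abs_mul, abs_of_pos (Real.exp_pos _)]
    calc _ ≤ Real.exp (-(K / 2 * JJ f u)) * (ε * Real.exp (K / 2 * JJ f u)) :=
          mul_le_mul_of_nonneg_left h2 (Real.exp_pos _).le
      _ = ε * (Real.exp (-(K / 2 * JJ f u)) * Real.exp (K / 2 * JJ f u)) := by ring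
      _ = ε := by rw [← Real.exp_add, neg_add_cancel, Real.exp_zero, mul_one]
  · intro f hf n j c hc
    exact le_of_tendsto (hlim f hf j n) hc
  · intro f hf n j c hc
    exact ge_of_tendsto (hlim f hf j n) hc
  · intro f g hf hg j c hc
    have h1 := (h.wd j).st_tendsto' hd U hU
      ((repW_X hU₀ hf (fun t => t)).mul (repW_X hU₀ hg (fun t => t)))
      (((h.wd j).st hd U hU).ok_mul _ _ (hok f hf j) (hok g hg j))
    exact le_of_tendsto h1 hc

/-- the approximate shift identity from the exact one for larger weights -/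
theorem shift_of_larger (hd : Deloc) (hU₀ : (U₀ : Filter ℝ) ≤ 𝓝[>] 0)
    {E : ℕ → ℝ → (V → ℤ) → ℝ} (hF0 : ∀ j δ g, 0 ≤ F j δ g) (hFE : ∀ j δ g, F j δ g ≤ E j δ g)
    (hE : ∀ j, ∀ᶠ δ in (U₀ : Filter ℝ), ∃ s, Pn s (cx (E j δ)))
    (hF : ∀ j, ∀ᶠ δ in (U₀ : Filter ℝ), ∃ s, Pn s (cx (F j δ)))
    (hpos : ∀ j, ∀ᶠ δ in (U₀ : Filter ℝ), 0 < MR (F j δ)) {e : ℕ → ℝ}
    (he : Tendsto e atTop (𝓝 0))
    (hEF : ∀ j, ∀ᶠ δ in (U₀ : Filter ℝ), MR (E j δ) - MR (F j δ) ≤ e j * MR (F j δ))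
    (hsh : ∀ z ∈ W, ∃ r > 0, ∀ u f, Tst W u → tsupport u ⊆ Metric.ball z r → Tst W f →
      ∀ᶠ j in atTop,
      Tendsto (fun δ => qt (E j) (fun δ h => Real.cos (Xd δ (fun w => f w + lap u w) h)) δ -
        Real.exp (K / 2 * JJ f u) * qt (E j) (fun δ h => Real.cos (Xd δ f h)) δ)
        (U₀ : Filter ℝ) (𝓝 0)) :
    ∀ z ∈ W, ∃ r > 0, ∀ u f, Tst W u → tsupport u ⊆ Metric.ball z r → Tst W f → ∀ ε > 0,
      ∀ᶠ j in atTop, ∀ᶠ δ in (U₀ : Filter ℝ),
        |qt (F j) (fun δ h => Real.cos (Xd δ (fun w => f w + lap u w) h)) δ -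
          Real.exp (K / 2 * JJ f u) * qt (F j) (fun δ h => Real.cos (Xd δ f h)) δ| ≤ ε := by
  classical
  intro z hz
  obtain ⟨r, hr, h1⟩ := hsh z hz
  refine ⟨r, hr, fun u f hu hur hf ε hε => ?_⟩
  have hlap : Cc (fun w => f w + lap u w) := hf.toCc.add hu.toCc.lap
  set c := Real.exp (K / 2 * JJ f u) with hc
  have hc0 : 0 < c := Real.exp_pos _
  have he1 : ∀ᶠ j in atTop, 2 * |e j| * (1 + c) < ε / 2 := by
    have h2 : Tendsto (fun j => 2 * |e j| * (1 + c)) atTop (𝓝 (2 * |(0 : ℝ)| * (1 + c))) :=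
      ((he.abs.const_mul 2).mul_const (1 + c))
    rw [abs_zero, mul_zero, zero_mul] at h2
    exact h2.eventually (gt_mem_nhds (half_pos hε))
  filter_upwards [he1, h1 u f hu hur hf] with j hj hshj
  have h3 := (Metric.tendsto_nhds.1 hshj) (ε / 2) (half_pos hε)
  have hloc : ∀ g, Cc g → ∀ᶠ δ in (U₀ : Filter ℝ), ∃ t, AL t (cx fun h => Real.cos (Xd δ g h)) :=
    fun g hg => (repW_X hU₀ hg Real.cos).mono fun δ h => h.1
  filter_upwards [h3, hE j, hF j, hpos j, hEF j, hloc f hf.toCc, hloc _ hlap] with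
    δ h3 hE' hF' hp hEF' hA1 hA2
  obtain ⟨s, hs⟩ := hE'
  obtain ⟨s', hs'⟩ := hF'
  obtain ⟨t, ht⟩ := hA1
  obtain ⟨t', ht'⟩ := hA2
  have mono : ∀ {s t : Finset V} {B : (V → ℤ) → ℂ}, Pn s B → s ⊆ t → Pn t B :=
    fun h hst => h.mono hst
  have c1 := quot_compare hd (mono hs (Finset.subset_union_left (s₂ := s')))
    (mono hs' Finset.subset_union_right) (hF0 j δ) (hFE j δ) ht
    (fun g => Real.abs_cos_le_one _) hp hEF'
  have c2 := quot_compare hd (mono hs (Finset.subset_union_left (s₂ := s')))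
    (mono hs' Finset.subset_union_right) (hF0 j δ) (hFE j δ) ht'
    (fun g => Real.abs_cos_le_one _) hp hEF'
  rw [Real.dist_eq, sub_zero] at h3
  set qF1 := qt (F j) (fun δ h => Real.cos (Xd δ (fun w => f w + lap u w) h)) δ with hqF1
  set qF2 := qt (F j) (fun δ h => Real.cos (Xd δ f h)) δ with hqF2
  set qE1 := qt (E j) (fun δ h => Real.cos (Xd δ (fun w => f w + lap u w) h)) δ with hqE1
  set qE2 := qt (E j) (fun δ h => Real.cos (Xd δ f h)) δ with hqE2
  have c1' : |qF2 - qE2| ≤ 2 * e j := c1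
  have c2' : |qF1 - qE1| ≤ 2 * e j := c2
  have he2 : e j ≤ |e j| := le_abs_self _
  have h5 : qF1 - c * qF2 = (qE1 - c * qE2) + (qF1 - qE1) - c * (qF2 - qE2) := by ring
  rw [h5]
  have h6 : |(qE1 - c * qE2) + (qF1 - qE1) - c * (qF2 - qE2)| ≤
      |qE1 - c * qE2| + |qF1 - qE1| + c * |qF2 - qE2| := by
    refine (abs_sub _ _).trans ?_
    rw [abs_mul, abs_of_pos hc0]
    have := abs_add_le (qE1 - c * qE2) (qF1 - qE1)
    linarith
  have h7 : c * |qF2 - qE2| ≤ c * (2 * |e j|) := by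
    refine mul_le_mul_of_nonneg_left ?_ hc0.le
    linarith
  have h8 : 2 * |e j| * (1 + c) = 2 * |e j| + c * (2 * |e j|) := by ring
  linarith

end DV
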