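import Pool.Agent.Helper33.DV.Pm1

/-!
# Project DV, block PL1: sums over the levels
-/

open Finset Filter Topology

namespace DV

open RP4 (V Adj BdryPar Om dom avg mu Loc Deloc dist1)
open GF.Lat (ld DirZ lref)

/-! ## sums over the levels -/

theorem per_phs (A : (V → ℤ) → ℂ) : Phs 0 (per A) := by
  intro k h
  have h1 : per A (lev k h) = per A h := by
    unfold per
    rw [← finsum_comp_equiv (Equiv.addRight k) (f := fun j : ℤ => A (lev j h))]
    refine finsum_congr fun j => ?_
    rw [lev_lev]
    rfl
  rw [h1]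
  simp

theorem perp_phs (φ : ℝ) (A : (V → ℤ) → ℂ) : Phs (-φ) (perp φ A) := by
  intro k h
  unfold perp
  rw [← smul_eq_mul, smul_finsum,
    ← finsum_comp_equiv (Equiv.addRight k) (f := fun j : ℤ =>
      Complex.exp (-(2 * k * (-φ) : ℝ) * Complex.I) •
        (Complex.exp (-(2 * j * φ : ℝ) * Complex.I) * A (lev j h)))]
  refine finsum_congr fun j => ?_
  rw [lev_lev]
  simp only [Equiv.coe_addRight, smul_eq_mul]
  rw [← mul_assoc, ← Complex.exp_add]
  congr 2
  push_cast
  ring

theorem per_al {s : Finset V} {A : (V → ℤ) → ℂ} (hA : AL s A) : AL s (per A) := by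
  intro g g' hg
  unfold per
  exact finsum_congr fun k => hA.lev k g g' hg

theorem perp_al {s : Finset V} {A : (V → ℤ) → ℂ} (hA : AL s A) (φ : ℝ) : AL s (perp φ A) := by
  intro g g' hg
  unfold perp
  refine finsum_congr fun k => ?_
  have h1 : A (lev k g) = A (lev k g') := hA.lev k g g' hg
  rw [h1]

/-- finitely many levels for every `h` -/
theorem Pn.finite {s : Finset V} {A : (V → ℤ) → ℂ} (hA : Pn s A) (h : V → ℤ) :
    {k : ℤ | A (lev k h) ≠ 0}.Finite := by
  obtain ⟨N, hN⟩ := hA.pin
  refine Set.Finite.subset (s := ⋃ x ∈ s, Set.Icc (-(|h x| + |N|)) (|h x| + |N|)) ?_ ?_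
  · exact Set.Finite.biUnion s.finite_toSet fun x _ => Set.finite_Icc _ _
  · intro k hk
    obtain ⟨x, hx, hxN⟩ := hN _ hk
    simp only [Set.mem_iUnion, Set.mem_Icc]
    refine ⟨x, hx, ?_⟩
    have h1 : |h x - 2 * k| ≤ N := hxN
    rw [abs_le] at h1
    have h2 := neg_abs_le (h x)
    have h3 := le_abs_self (h x)
    have h4 := le_abs_self N
    have h5 := abs_nonneg N
    constructor <;> omega

lemma gh_lipn_pm3 {h : V → ℤ} (hh : GH h) (n : ℕ) : ∀ u v : V, dist1 u v ≤ n → |h u - h v| ≤ dist1 u v := by
  induction n with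
  | zero =>
    intro u v huv
    have h1 : u = v := by
      unfold dist1 at huv
      have h2 := abs_nonneg (u.1 - v.1)
      have h3 := abs_nonneg (u.2 - v.2)
      push_cast at huv
      have h4 : |u.1 - v.1| = 0 := by omega
      have h5 : |u.2 - v.2| = 0 := by omega
      rw [abs_eq_zero] at h4 h5
      exact Prod.ext (by omega) (by omega)
    subst h1
    simp [dist1]
  | succ n ih =>
    intro u v huv
    by_cases hle : dist1 u v ≤ n
    · exact ih u v hle
    · have hd : dist1 u v = n + 1 := by push_cast at huv; omega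
      obtain ⟨u', hu1, hu2⟩ : ∃ u' : V, Adj u u' ∧ dist1 u' v = n := by
        unfold dist1 at hd
        rcases lt_trichotomy u.1 v.1 with hc | hc | hc
        · refine ⟨(u.1 + 1, u.2), ?_, ?_⟩
          · unfold Adj
            simp
          · unfold dist1
            simp only
            rw [abs_of_nonpos (by omega)] at hd ⊢
            omega
        · rcases lt_trichotomy u.2 v.2 with hc' | hc' | hc'
          · refine ⟨(u.1, u.2 + 1), ?_, ?_⟩
            · unfold Adj
              simp
            · unfold dist1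
              simp only
              have e1 : |u.2 - v.2| = -(u.2 - v.2) := abs_of_nonpos (by omega)
              have e2 : |u.2 + 1 - v.2| = -(u.2 + 1 - v.2) := abs_of_nonpos (by omega)
              rw [e1] at hd
              rw [e2]
              omega
          · exfalso
            rw [hc, hc'] at hd
            simp at hd
            omega
          · refine ⟨(u.1, u.2 - 1), ?_, ?_⟩
            · unfold Adj
              simp
            · unfold dist1
              simp only
              have e1 : |u.2 - v.2| = (u.2 - v.2) := abs_of_nonneg (by omega)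
              have e2 : |u.2 - 1 - v.2| = (u.2 - 1 - v.2) := abs_of_nonneg (by omega)
              rw [e1] at hd
              rw [e2]
              omega
        · refine ⟨(u.1 - 1, u.2), ?_, ?_⟩
          · unfold Adj
            simp
          · unfold dist1
            simp only
            have e1 : |u.1 - v.1| = (u.1 - v.1) := abs_of_nonneg (by omega)
            have e2 : |u.1 - 1 - v.1| = (u.1 - 1 - v.1) := abs_of_nonneg (by omega)
            rw [e1] at hd
            rw [e2]
            omega
      have h1 := hh.step u u' hu1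
      have h2 := ih u' v (by omega)
      have h3 : |h u - h v| ≤ |h u - h u'| + |h u' - h v| := by
        have := abs_add_le (h u - h u') (h u' - h v)
        rwa [sub_add_sub_cancel] at this
      omega

lemma gh_lip_pm3 {h : V → ℤ} (hh : GH h) (u v : V) : |h u - h v| ≤ dist1 u v := by
  refine gh_lipn_pm3 hh (dist1 u v).toNat u v ?_
  exact Int.self_le_toNat _

/-- a fixed finite range of levels for height functions normalised at `w` -/
theorem Pn.range {s : Finset V} {A : (V → ℤ) → ℂ} (hA : Pn s A) (w : V) :
    ∃ K : ℕ, ∀ h : V → ℤ, GH h → h w = RP4.par w → ∀ k : ℤ, A (lev k h) ≠ 0 → |k| ≤ K := by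
  obtain ⟨N, hN⟩ := hA.pin
  refine ⟨(|N| + |RP4.par w| + ∑ x ∈ s, dist1 x w).toNat, fun h hh hw k hk => ?_⟩
  obtain ⟨x, hx, hxN⟩ := hN _ hk
  have h1 : |h x - 2 * k| ≤ N := hxN
  have h2 := gh_lip_pm3 hh x w
  have h3 : dist1 x w ≤ ∑ x ∈ s, dist1 x w :=
    Finset.single_le_sum (f := fun x => dist1 x w) (fun y _ => by
      unfold dist1
      positivity) hx
  have h4 := Int.self_le_toNat (|N| + |RP4.par w| + ∑ x ∈ s, dist1 x w)
  refine le_trans ?_ h4
  rw [hw] at h2
  have h5 := le_abs_self N
  have h6 : |k| ≤ |2 * k| := by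
    rw [abs_mul]
    have := abs_nonneg k
    norm_num
    omega
  have h7 : |2 * k| ≤ |h x - 2 * k| + |h x| := by
    have := abs_sub (h x) (h x - 2 * k)
    rw [sub_sub_cancel] at this
    omega
  have h8 : |h x| ≤ |h x - RP4.par w| + |RP4.par w| := by
    have := abs_add_le (h x - RP4.par w) (RP4.par w)
    rwa [sub_add_cancel] at this
  omega

theorem Pn.mul {s : Finset V} {A B : (V → ℤ) → ℂ} (hA : Pn s A) (hB : AL s B) :
    Pn s (fun g => A g * B g) := by
  refine ⟨hA.loc.mul hB, ?_⟩
  obtain ⟨N, hN⟩ := hA.pin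
  exact ⟨N, fun h hh => hN h (left_ne_zero_of_mul hh)⟩

theorem per_mul_phs {φ : ℝ} {Y G : (V → ℤ) → ℂ} (hY : Phs φ Y) (h : V → ℤ) :
    per (fun g => Y g * G g) h = Y h * perp φ G h := by
  unfold per perp
  rw [← smul_eq_mul, smul_finsum]
  refine finsum_congr fun k => ?_
  show Y (lev k h) * G (lev k h) = _
  rw [hY k h, smul_eq_mul]
  ring

end DV
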