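import Pool.Agent.Helper33.DV.Pm2
import Pool.Agent.Helper33.DV.Pm3

/-!
# Project DV, block PL1: the floating measure
-/

open Finset Filter Topology

namespace DV

open RP4 (V Adj BdryPar Om dom avg mu Loc Deloc dist1)
open GF.Lat (ld DirZ lref)

/-! ## the floating measure -/

theorem M_tendsto (hd : Deloc) {s : Finset V} {A : (V → ℤ) → ℂ} (hA : Pn s A) :
    Tendsto (fun D => MD D A) dom (𝓝 (M A)) :=
  muP_tendsto hd (per_al hA.loc) (per_phs A)

theorem M_congr (hd : Deloc) {s : Finset V} {A B : (V → ℤ) → ℂ} (hA : Pn s A) (hB : Pn s B)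
    (h : ∀ g, GH g → A g = B g) : M A = M B := by
  refine muP_congr hd (per_al hA.loc) (per_phs A) (per_al hB.loc) (per_phs B) fun g hg => ?_
  unfold per
  exact finsum_congr fun k => h _ (hg.lev k)

lemma Pn.fin {s : Finset V} {A : (V → ℤ) → ℂ} (hA : Pn s A) (g : V → ℤ) :
    (Function.support fun k : ℤ => A (lev k g)).Finite := hA.finite g

theorem M_add (hd : Deloc) {s : Finset V} {A B : (V → ℤ) → ℂ} (hA : Pn s A) (hB : Pn s B) :
    M (fun g => A g + B g) = M A + M B := by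
  unfold M
  rw [← muP_add hd (per_al hA.loc) (per_phs A) (per_al hB.loc) (per_phs B)]
  congr 1
  funext g
  unfold per
  exact finsum_add_distrib (hA.fin g) (hB.fin g)

theorem M_smul (hd : Deloc) {s : Finset V} {A : (V → ℤ) → ℂ} (hA : Pn s A) (c : ℂ) :
    M (fun g => c * A g) = c * M A := by
  unfold M
  rw [← muP_smul hd (per_al hA.loc) (per_phs A)]
  congr 1
  funext g
  unfold per
  exact (mul_finsum _ _).symm

theorem M_conj (hd : Deloc) {s : Finset V} {A : (V → ℤ) → ℂ} (hA : Pn s A) :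
    M (fun g => (starRingEnd ℂ) (A g)) = (starRingEnd ℂ) (M A) := by
  unfold M
  rw [← muP_conj hd (per_al hA.loc) (per_phs A)]
  congr 1
  funext g
  unfold per
  exact (AddMonoidHom.map_finsum (starRingEnd ℂ).toAddMonoidHom (hA.fin g)).symm

/-- a sum over the levels as a finite sum -/
lemma per_eq_sum {A : (V → ℤ) → ℂ} (g : V → ℤ) (T : Finset ℤ)
    (hT : ∀ k, A (lev k g) ≠ 0 → k ∈ T) : per A g = ∑ k ∈ T, A (lev k g) :=
  finsum_eq_sum_of_support_subset _ fun k hk => hT k hk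

lemma Pn.norm {s : Finset V} {A : (V → ℤ) → ℂ} (hA : Pn s A) :
    Pn s (fun h => (‖A h‖ : ℂ)) := by
  refine ⟨hA.loc.comp fun z => (‖z‖ : ℂ), ?_⟩
  obtain ⟨N, hN⟩ := hA.pin
  refine ⟨N, fun h hh => hN h fun h0 => hh ?_⟩
  simp only [h0, norm_zero, Complex.ofReal_zero]

lemma per_norm_re {s : Finset V} {A : (V → ℤ) → ℂ} (_hA : Pn s A) (g : V → ℤ) (T : Finset ℤ)
    (hT : ∀ k, A (lev k g) ≠ 0 → k ∈ T) :
    per (fun h => (‖A h‖ : ℂ)) g = ((∑ k ∈ T, ‖A (lev k g)‖ : ℝ) : ℂ) := by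
  rw [per_eq_sum g T]
  · push_cast
    rfl
  · intro k hk
    refine hT k fun h0 => hk ?_
    simp only [h0, norm_zero, Complex.ofReal_zero]

theorem norm_M_le (hd : Deloc) {s : Finset V} {A B : (V → ℤ) → ℂ} (hA : Pn s A) (hB : Pn s B)
    (h : ∀ g, GH g → ‖A g‖ ≤ (B g).re) : ‖M A‖ ≤ (M B).re := by
  classical
  refine norm_muP_le hd (per_al hA.loc) (per_phs A) (per_al hB.loc) (per_phs B) fun g hg => ?_
  set T : Finset ℤ := (hA.finite g).toFinset ∪ (hB.finite g).toFinset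
  rw [per_eq_sum g T fun k hk => Finset.mem_union_left _ ((hA.finite g).mem_toFinset.2 hk),
    per_eq_sum g T fun k hk => Finset.mem_union_right _ ((hB.finite g).mem_toFinset.2 hk),
    Complex.re_sum]
  refine (norm_sum_le _ _).trans (Finset.sum_le_sum fun k _ => h _ (hg.lev k))

theorem M_lev {A : (V → ℤ) → ℂ} (k : ℤ) : M (fun h => A (lev k h)) = M A := by
  unfold M
  congr 1
  funext g
  unfold per
  have h1 : (fun j : ℤ => A (lev k (lev j g))) = fun j => (fun i => A (lev i g)) (Equiv.addLeft k j) := by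
    funext j
    simp only [lev_lev, Equiv.coe_addLeft]
  rw [h1]
  exact finsum_comp_equiv (Equiv.addLeft k) (f := fun i => A (lev i g))

lemma per_rfo (d : ℤ × ℤ) (m : ℤ) (A : (V → ℤ) → ℂ) : per (rfo d m A) = rfo d m (per A) := rfl

lemma per_tro (u : V) (A : (V → ℤ) → ℂ) : per (tro u A) = tro u (per A) := rfl

theorem M_refl (hd : Deloc) {d : ℤ × ℤ} (hdr : DirZ d) (m : ℤ) {s : Finset V}
    {A : (V → ℤ) → ℂ} (hA : Pn s A) : M (rfo d m A) = M A := by
  unfold M
  rw [per_rfo]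
  exact muP_refl hd hdr m (per_al hA.loc) (per_phs A)

theorem M_trans (hd : Deloc) {s : Finset V} {A : (V → ℤ) → ℂ} (hA : Pn s A)
    {u : V} (hu : Even (RP4.par u)) : M (tro u A) = M A := by
  unfold M
  rw [per_tro]
  exact muP_trans hd (per_al hA.loc) (per_phs A) hu

/-! ## the product of an observable and a reflected observable -/

lemma rpr_al {d : ℤ × ℤ} {m : ℤ} {s t : Finset V} {A B : (V → ℤ) → ℂ} (hA : AL s A) (hB : AL t B) :
    AL (s ∪ t.image (lref d m)) (rpr d m A B) :=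
  (hA.mono Finset.subset_union_left).mul
    (((hB.rfo d m).mono Finset.subset_union_right).comp fun z => (starRingEnd ℂ) z)

lemma Phs.conj {φ : ℝ} {A : (V → ℤ) → ℂ} (hA : Phs φ A) :
    Phs (-φ) (fun h => (starRingEnd ℂ) (A h)) := by
  intro k h
  simp only
  rw [hA k h, map_mul, ← Complex.exp_conj, map_mul, map_neg, Complex.conj_ofReal, Complex.conj_I]
  congr 2
  push_cast
  ring

lemma Phs.mul {φ ψ : ℝ} {A B : (V → ℤ) → ℂ} (hA : Phs φ A) (hB : Phs ψ B) :
    Phs (φ + ψ) (fun h => A h * B h) := by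
  intro k h
  simp only
  rw [hA k h, hB k h, mul_mul_mul_comm, ← Complex.exp_add]
  congr 2
  push_cast
  ring

lemma Phs.rfo {φ : ℝ} {A : (V → ℤ) → ℂ} (hA : Phs φ A) (d : ℤ × ℤ) (m : ℤ) :
    Phs φ (rfo d m A) := fun k _ => hA k _

lemma rpr_phs {d : ℤ × ℤ} {m : ℤ} {φ : ℝ} {A B : (V → ℤ) → ℂ} (hA : Phs φ A) (hB : Phs φ B) :
    Phs 0 (rpr d m A B) := by
  have h1 := hA.mul (hB.rfo d m).conj
  rw [add_neg_cancel] at h1
  exact h1

/-- pinned on the left -/
lemma Pn.prl {d : ℤ × ℤ} {m : ℤ} {s t : Finset V} {A B : (V → ℤ) → ℂ} (hA : Pn s A) (hB : AL t B) :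
    Pn (s ∪ t.image (lref d m)) (rpr d m A B) := by
  refine ⟨rpr_al hA.loc hB, ?_⟩
  obtain ⟨N, hN⟩ := hA.pin
  refine ⟨N, fun h hh => ?_⟩
  obtain ⟨x, hx, hx2⟩ := hN h (left_ne_zero_of_mul hh)
  exact ⟨x, Finset.mem_union_left _ hx, hx2⟩

/-- pinned on the right -/
lemma Pn.prr {d : ℤ × ℤ} {m : ℤ} {s t : Finset V} {A B : (V → ℤ) → ℂ} (hA : AL s A) (hB : Pn t B) :
    Pn (s ∪ t.image (lref d m)) (rpr d m A B) := by
  refine ⟨rpr_al hA hB.loc, ?_⟩
  obtain ⟨N, hN⟩ := hB.pin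
  refine ⟨N, fun h hh => ?_⟩
  have h1 : rfo d m B h ≠ 0 := fun h0 => hh (by simp only [rpr, h0, map_zero, mul_zero])
  obtain ⟨x, hx, hx2⟩ := hN _ h1
  exact ⟨lref d m x, Finset.mem_union_right _ (Finset.mem_image_of_mem _ hx), hx2⟩

/-- the observable at the level `k`, normalised at `w` -/
noncomputable def lvl (w : V) (A : (V → ℤ) → ℂ) (k : ℤ) : (V → ℤ) → ℂ := fun h => A (lev k (nrm w h))

lemma lvl_al {s : Finset V} {A : (V → ℤ) → ℂ} (hA : AL s A) (w : V) (k : ℤ) :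
    AL (insert w s) (lvl w A k) := fun g g' hg => hA _ _ fun x hx => by
  simp only [lev, nrm, hg x (Finset.mem_insert_of_mem hx), hg w (Finset.mem_insert_self w s)]

lemma lvl_phs (w : V) (A : (V → ℤ) → ℂ) (k : ℤ) : Phs 0 (lvl w A k) := by
  intro j h
  unfold lvl
  rw [nrm_lev]
  simp

private lemma GH_nrm {h : V → ℤ} (hh : GH h) (w : V) : GH (nrm w h) := by
  obtain ⟨k, hk⟩ := nrm_eq hh w
  rw [hk]
  exact hh.lev k

private lemma nrm_self (w : V) (h : V → ℤ) : nrm w h w = RP4.par w := by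
  simp [nrm]

private lemma nrm_refl {d : ℤ × ℤ} (hdr : DirZ d) {m : ℤ} {w : V} (hw : ld d w = m) (h : V → ℤ) :
    (fun v => nrm w h (lref d m v)) = nrm w (fun v => h (lref d m v)) := by
  funext v
  simp only [nrm, GF.Lat.lref_fix hdr hw]

private lemma muP_sum (hd : Deloc) {ι : Type} (T : Finset ι) {s : Finset V}
    (F : ι → (V → ℤ) → ℂ) (hF : ∀ i, AL s (F i)) (hF0 : ∀ i, Phs 0 (F i)) :
    muP (fun g => ∑ i ∈ T, F i g) = ∑ i ∈ T, muP (F i) := by
  classical
  induction T using Finset.induction_on with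
  | empty =>
    simp only [Finset.sum_empty]
    exact muP_const 0
  | insert a T ha ih =>
    simp only [Finset.sum_insert ha]
    have h1 : AL s (fun g => ∑ i ∈ T, F i g) := fun g g' hg =>
      Finset.sum_congr rfl fun i _ => hF i g g' hg
    have h2 : Phs 0 (fun g => ∑ i ∈ T, F i g) := by
      intro k h
      simp only
      rw [Finset.mul_sum]
      exact Finset.sum_congr rfl fun i _ => hF0 i k h
    rw [muP_add hd (hF a) (hF0 a) h1 h2, ih]

/-- decomposition of the floating measure into levels; `A` or `B` pinned -/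
lemma M_rpr_eq (hd : Deloc) {d : ℤ × ℤ} (hdr : DirZ d) (m : ℤ) {w : V} (hw : ld d w = m)
    {s : Finset V} {A B : (V → ℤ) → ℂ} (hA : Pn s A) (hB : AL s B) (K : ℕ)
    (hK : ∀ h : V → ℤ, GH h → h w = RP4.par w → ∀ k : ℤ, A (lev k h) ≠ 0 → |k| ≤ K) :
    M (rpr d m A B) = ∑ k ∈ Finset.Icc (-(K : ℤ)) K, muP (rpr d m (lvl w A k) (lvl w B k)) := by
  classical
  set S : Finset V := insert w s ∪ (insert w s).image (lref d m) with hS
  have hsub : s ∪ s.image (lref d m) ⊆ S := by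
    rw [hS]
    exact Finset.union_subset_union (Finset.subset_insert w s)
      (Finset.image_subset_image (Finset.subset_insert w s))
  have h1 : ∀ k : ℤ, AL S (rpr d m (lvl w A k) (lvl w B k)) := fun k =>
    rpr_al (lvl_al hA.loc w k) (lvl_al hB w k)
  have h2 : ∀ k : ℤ, Phs 0 (rpr d m (lvl w A k) (lvl w B k)) := fun k =>
    rpr_phs (lvl_phs w A k) (lvl_phs w B k)
  rw [← muP_sum hd _ _ h1 h2]
  unfold M
  have h3 : AL S (per (rpr d m A B)) := (per_al (rpr_al hA.loc hB)).mono hsub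
  refine muP_congr hd h3 (per_phs _) (fun g g' hg => Finset.sum_congr rfl fun k _ => h1 k g g' hg)
    (fun k h => ?_) fun g hg => ?_
  · rw [Finset.mul_sum]
    exact Finset.sum_congr rfl fun i _ => h2 i k h
  · rw [← (per_phs (rpr d m A B)).nrm0 w hg]
    rw [per_eq_sum (nrm w g) (Finset.Icc (-(K : ℤ)) K)]
    · refine Finset.sum_congr rfl fun k _ => ?_
      have h5 : lvl w B k (fun v => g (lref d m v)) = B (fun v => lev k (nrm w g) (lref d m v)) := by
        unfold lvl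
        rw [← nrm_refl hdr hw]
        rfl
      unfold rpr rfo
      rw [h5]
      rfl
    · intro k hk
      have h4 := hK (nrm w g) (GH_nrm hg w) (nrm_self w g) k (left_ne_zero_of_mul hk)
      exact Finset.mem_Icc.2 (abs_le.1 h4)

private lemma lvl_behind {d : ℤ × ℤ} {m : ℤ} {w : V} (hw : ld d w = m) {s : Finset V}
    (hs : ∀ x ∈ s, ld d x ≤ m) : ∀ x ∈ insert w s, ld d x ≤ m := by
  intro x hx
  rcases Finset.mem_insert.1 hx with rfl | hx
  · exact hw.le
  · exact hs x hx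

/-- reflection positivity of the floating measure -/
theorem M_rp (hd : Deloc) {d : ℤ × ℤ} (hdr : DirZ d) (m : ℤ) {s : Finset V}
    (hs : ∀ x ∈ s, ld d x ≤ m) {A : (V → ℤ) → ℂ} (hA : Pn s A) :
    0 ≤ sqn d m A ∧ (M (rpr d m A A)).im = 0 := by
  obtain ⟨w, hw⟩ := GF.Lat.exists_line hdr m
  obtain ⟨K, hK⟩ := hA.range w
  have h1 := M_rpr_eq hd hdr m hw hA hA.loc K hK
  have h2 : ∀ k : ℤ, _ := fun k => muP_rp hd hdr m (lvl_behind hw hs) (lvl_al hA.loc w k)
    (lvl_phs w A k)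
  unfold sqn
  rw [h1, Complex.re_sum, Complex.im_sum]
  exact ⟨Finset.sum_nonneg fun k _ => (h2 k).1, Finset.sum_eq_zero fun k _ => (h2 k).2⟩

private lemma cs_sum (T : Finset ℤ) (z : ℤ → ℂ) (a b : ℤ → ℝ) (ha : ∀ k, 0 ≤ a k)
    (hb : ∀ k, 0 ≤ b k) (h : ∀ k, ‖z k‖ ^ 2 ≤ a k * b k) :
    ‖∑ k ∈ T, z k‖ ^ 2 ≤ (∑ k ∈ T, a k) * ∑ k ∈ T, b k := by
  have h1 : ‖∑ k ∈ T, z k‖ ≤ ∑ k ∈ T, Real.sqrt (a k) * Real.sqrt (b k) := by
    refine (norm_sum_le _ _).trans (Finset.sum_le_sum fun k _ => ?_)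
    rw [← Real.sqrt_mul (ha k)]
    exact Real.le_sqrt_of_sq_le (h k)
  have h2 : (∑ k ∈ T, Real.sqrt (a k) * Real.sqrt (b k)) ^ 2 ≤
      (∑ k ∈ T, Real.sqrt (a k) ^ 2) * ∑ k ∈ T, Real.sqrt (b k) ^ 2 :=
    Finset.sum_mul_sq_le_sq_mul_sq T _ _
  simp only [Real.sq_sqrt (ha _), Real.sq_sqrt (hb _)] at h2
  exact (pow_le_pow_left₀ (norm_nonneg _) h1 2).trans h2

/-- Cauchy-Schwarz inequality across a line for the floating measure -/
theorem M_cs (hd : Deloc) {d : ℤ × ℤ} (hdr : DirZ d) (m : ℤ) {s : Finset V}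
    (hs : ∀ x ∈ s, ld d x ≤ m) {A B : (V → ℤ) → ℂ} (hA : Pn s A) (hB : Pn s B) :
    ‖M (rpr d m A B)‖ ^ 2 ≤ sqn d m A * sqn d m B := by
  obtain ⟨w, hw⟩ := GF.Lat.exists_line hdr m
  obtain ⟨K₁, hK₁⟩ := hA.range w
  obtain ⟨K₂, hK₂⟩ := hB.range w
  have hle1 : ((K₁ : ℤ)) ≤ ((max K₁ K₂ : ℕ) : ℤ) := by exact_mod_cast le_max_left K₁ K₂
  have hle2 : ((K₂ : ℤ)) ≤ ((max K₁ K₂ : ℕ) : ℤ) := by exact_mod_cast le_max_right K₁ K₂
  have hA' : ∀ h : V → ℤ, GH h → h w = RP4.par w → ∀ k : ℤ, A (lev k h) ≠ 0 →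
      |k| ≤ ((max K₁ K₂ : ℕ) : ℤ) := fun h h1 h2 k h3 => (hK₁ h h1 h2 k h3).trans hle1
  have hB' : ∀ h : V → ℤ, GH h → h w = RP4.par w → ∀ k : ℤ, B (lev k h) ≠ 0 →
      |k| ≤ ((max K₁ K₂ : ℕ) : ℤ) := fun h h1 h2 k h3 => (hK₂ h h1 h2 k h3).trans hle2
  have e1 := M_rpr_eq hd hdr m hw hA hB.loc _ hA'
  have e2 := M_rpr_eq hd hdr m hw hA hA.loc _ hA'
  have e3 := M_rpr_eq hd hdr m hw hB hB.loc _ hB'
  unfold sqn
  rw [e1, e2, e3, Complex.re_sum, Complex.re_sum]
  have hw' := lvl_behind hw hs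
  exact cs_sum _ _ _ _
    (fun k => (muP_rp hd hdr m hw' (lvl_al hA.loc w k) (lvl_phs w A k)).1)
    (fun k => (muP_rp hd hdr m hw' (lvl_al hB.loc w k) (lvl_phs w B k)).1)
    fun k => muP_cs hd hdr m hw' (lvl_al hA.loc w k) (lvl_phs w A k) (lvl_al hB.loc w k)
      (lvl_phs w B k)

private lemma sqN_dom {s : Finset V} {A : (V → ℤ) → ℂ} (hA : Pn s A) (g : V → ℤ)
    (c : ℤ → ℂ) (hc : ∀ k, ‖c k‖ ≤ 1) (z : ℂ)
    (hz : z = ∑ᶠ k : ℤ, c k * A (lev k g)) :
    ‖z‖ ≤ (per (fun h => (‖A h‖ : ℂ)) g).re ∧ 0 ≤ (per (fun h => (‖A h‖ : ℂ)) g).re ∧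
      (per (fun h => (‖A h‖ : ℂ)) g).im = 0 := by
  classical
  set T : Finset ℤ := (hA.finite g).toFinset
  have hT : ∀ k, A (lev k g) ≠ 0 → k ∈ T := fun k hk => (hA.finite g).mem_toFinset.2 hk
  rw [per_norm_re hA g T hT, Complex.ofReal_re, Complex.ofReal_im]
  refine ⟨?_, Finset.sum_nonneg fun k _ => norm_nonneg _, rfl⟩
  rw [hz, finsum_eq_sum_of_support_subset (s := T) _ fun k hk =>
    hT k (right_ne_zero_of_mul (Function.mem_support.1 hk))]
  refine (norm_sum_le _ _).trans (Finset.sum_le_sum fun k _ => ?_)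
  rw [norm_mul]
  exact mul_le_of_le_one_left (norm_nonneg _) (hc k)

/-- the strong norm dominates the norm -/
theorem sqn_le_sqN (hd : Deloc) {d : ℤ × ℤ} (hdr : DirZ d) (m : ℤ) {s : Finset V}
    (hs : ∀ x ∈ s, ld d x ≤ m) {A : (V → ℤ) → ℂ} (hA : Pn s A) : sqn d m A ≤ sqN d m A := by
  classical
  have h1 : Pn (s ∪ s.image (lref d m)) (rpr d m A A) := hA.prl hA.loc
  unfold sqn sqN M
  refine (Complex.re_le_norm _).trans ?_
  refine norm_muP_le hd (per_al h1.loc) (per_phs _)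
    (rpr_al (per_al hA.norm.loc) (per_al hA.norm.loc)) (rpr_phs (per_phs _) (per_phs _))
    fun g _ => ?_
  set g' : V → ℤ := fun v => g (lref d m v) with hg'
  set T : Finset ℤ := (hA.finite g).toFinset ∪ (hA.finite g').toFinset
  have hT : ∀ k, A (lev k g) ≠ 0 → k ∈ T := fun k hk =>
    Finset.mem_union_left _ ((hA.finite g).mem_toFinset.2 hk)
  have hT' : ∀ k, A (lev k g') ≠ 0 → k ∈ T := fun k hk =>
    Finset.mem_union_right _ ((hA.finite g').mem_toFinset.2 hk)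
  have e1 : rpr d m (per fun h => (‖A h‖ : ℂ)) (per fun h => (‖A h‖ : ℂ)) g =
      (((∑ k ∈ T, ‖A (lev k g)‖) * ∑ k ∈ T, ‖A (lev k g')‖ : ℝ) : ℂ) := by
    unfold rpr rfo
    rw [per_norm_re hA g T hT, per_norm_re hA g' T hT', Complex.conj_ofReal]
    push_cast
    rfl
  rw [e1, Complex.ofReal_re, per_eq_sum g T fun k hk => hT k (left_ne_zero_of_mul hk)]
  refine (norm_sum_le _ _).trans ?_
  rw [Finset.sum_mul]
  refine Finset.sum_le_sum fun k hk => ?_
  have e2 : ‖rpr d m A A (lev k g)‖ = ‖A (lev k g)‖ * ‖A (lev k g')‖ := by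
    unfold rpr rfo
    rw [norm_mul, RCLike.norm_conj]
    rfl
  rw [e2]
  exact mul_le_mul_of_nonneg_left
    (Finset.single_le_sum (f := fun k => ‖A (lev k g')‖) (fun _ _ => norm_nonneg _) hk)
    (norm_nonneg _)

/-- the last step: an observable with a phase against a pinned observable -/
theorem M_cs_phs (hd : Deloc) {d : ℤ × ℤ} (hdr : DirZ d) (m : ℤ) {s : Finset V}
    (hs : ∀ x ∈ s, ld d x ≤ m) {φ : ℝ} {Y B : (V → ℤ) → ℂ} (hY : AL s Y) (hYp : Phs φ Y)
    (hB : Pn s B) :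
    ‖M (rpr d m Y B)‖ ^ 2 ≤ (muP (rpr d m Y Y)).re * sqN d m B := by
  classical
  have h1 : per (rpr d m Y B) = rpr d m Y (perp (-φ) B) := by
    funext g
    have h2 : per (rpr d m Y B) g = Y g * perp φ (fun h => (starRingEnd ℂ) (rfo d m B h)) g :=
      per_mul_phs hYp g
    rw [h2]
    unfold rpr
    congr 1
    have hfin : (Function.support fun k : ℤ => Complex.exp (-(2 * k * (-φ) : ℝ) * Complex.I) *
        B (lev k (fun v => g (lref d m v)))).Finite :=
      (hB.finite _).subset fun k hk => right_ne_zero_of_mul (Function.mem_support.1 hk)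
    have h3 := AddMonoidHom.map_finsum (starRingEnd ℂ).toAddMonoidHom hfin
    have h6 : ∀ z : ℂ, (starRingEnd ℂ).toAddMonoidHom z = (starRingEnd ℂ) z := fun _ => rfl
    change perp φ (fun h => (starRingEnd ℂ) (rfo d m B h)) g =
      (starRingEnd ℂ).toAddMonoidHom (perp (-φ) B (fun v => g (lref d m v)))
    unfold perp
    rw [h3]
    refine finsum_congr fun k => ?_
    have h4 : (starRingEnd ℂ) (Complex.exp (-(2 * k * (-φ) : ℝ) * Complex.I)) =
        Complex.exp (-(2 * k * φ : ℝ) * Complex.I) := by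
      rw [← Complex.exp_conj, map_mul, map_neg, Complex.conj_ofReal, Complex.conj_I]
      congr 1
      push_cast
      ring
    have h5 : (starRingEnd ℂ) (Complex.exp (-(2 * k * (-φ) : ℝ) * Complex.I) *
        B (lev k (fun v => g (lref d m v)))) =
        Complex.exp (-(2 * k * φ : ℝ) * Complex.I) *
          (starRingEnd ℂ) (B (lev k (fun v => g (lref d m v)))) := by
      rw [map_mul, h4]
    exact h5.symm
  unfold M
  rw [h1]
  have hP : Phs φ (perp (-φ) B) := by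
    have := perp_phs (-φ) B
    rwa [neg_neg] at this
  have hPl : AL s (perp (-φ) B) := perp_al hB.loc (-φ)
  refine (muP_cs hd hdr m hs hY hYp hPl hP).trans ?_
  refine mul_le_mul_of_nonneg_left ?_ (muP_rp hd hdr m hs hY hYp).1
  refine (Complex.re_le_norm _).trans ?_
  unfold sqN
  refine norm_muP_le hd (rpr_al hPl hPl) (rpr_phs hP hP)
    (rpr_al (per_al hB.norm.loc) (per_al hB.norm.loc)) (rpr_phs (per_phs _) (per_phs _))
    fun g _ => ?_
  have hb : ∀ g : V → ℤ, ‖perp (-φ) B g‖ ≤ (per (fun h => (‖B h‖ : ℂ)) g).re ∧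
      0 ≤ (per (fun h => (‖B h‖ : ℂ)) g).re ∧ (per (fun h => (‖B h‖ : ℂ)) g).im = 0 := by
    intro g
    refine sqN_dom hB g (fun k => Complex.exp (-(2 * k * (-φ) : ℝ) * Complex.I)) (fun k => ?_) _ rfl
    rw [← Complex.ofReal_neg, Complex.norm_exp_ofReal_mul_I]
  obtain ⟨a1, a2, a3⟩ := hb g
  obtain ⟨b1, b2, b3⟩ := hb (fun v => g (lref d m v))
  unfold rpr rfo
  rw [norm_mul, RCLike.norm_conj, Complex.mul_re, Complex.conj_re, Complex.conj_im, a3, b3]
  simp only [neg_zero, mul_zero, sub_zero]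
  exact mul_le_mul a1 b1 (norm_nonneg _) a2

private lemma lref_add {d : ℤ × ℤ} (hdr : DirZ d) (p n : ℤ) (v : V) :
    lref d p (v + (n * d.1, n * d.2)) = lref d p v - (n * d.1, n * d.2) := by
  rcases hdr with rfl | rfl | rfl | rfl | rfl | rfl | rfl | rfl <;>
  · refine Prod.ext ?_ ?_
    · simp only [lref, ld, Prod.fst_add, Prod.snd_add, Prod.fst_sub]
      omega
    · simp only [lref, ld, Prod.fst_add, Prod.snd_add, Prod.snd_sub]
      omega

private lemma lref_shift {d : ℤ × ℤ} (hdr : DirZ d) (p n : ℤ) (v : V) :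
    lref d (p - ld d (n * d.1, n * d.2)) v = lref d p v - (2 * n * d.1, 2 * n * d.2) := by
  rcases hdr with rfl | rfl | rfl | rfl | rfl | rfl | rfl | rfl <;>
  · refine Prod.ext ?_ ?_
    · simp only [lref, ld, Prod.fst_sub]
      omega
    · simp only [lref, ld, Prod.snd_sub]
      omega

private lemma sqn_tro (hd : Deloc) {d : ℤ × ℤ} (hdr : DirZ d) (p n : ℤ)
    (ha : Even (RP4.par (n * d.1, n * d.2))) {s : Finset V} {A : (V → ℤ) → ℂ} (hA : Pn s A) :
    sqn d p (tro (n * d.1, n * d.2) A) = sqn d (p - ld d (n * d.1, n * d.2)) A := by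
  have h1 : rpr d p (tro (n * d.1, n * d.2) A) (tro (n * d.1, n * d.2) A) =
      tro (n * d.1, n * d.2) (rpr d (p - ld d (n * d.1, n * d.2)) A A) := by
    funext h
    have h2 : (fun v => h (lref d p (v + (n * d.1, n * d.2)))) =
        fun v => h (lref d (p - ld d (n * d.1, n * d.2)) v + (n * d.1, n * d.2)) := by
      funext v
      rw [lref_add hdr, lref_shift hdr]
      congr 1
      refine Prod.ext ?_ ?_
      · simp only [Prod.fst_add, Prod.fst_sub]
        ring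
      · simp only [Prod.snd_add, Prod.snd_sub]
        ring
    change A _ * (starRingEnd ℂ) (A (fun v => h (lref d p (v + (n * d.1, n * d.2))))) =
      A _ * (starRingEnd ℂ) (A (fun v =>
        h (lref d (p - ld d (n * d.1, n * d.2)) v + (n * d.1, n * d.2))))
    rw [h2]
  unfold sqn
  rw [h1, M_trans hd (hA.prl hA.loc) ha]

/-- midpoint inequality in the position of the line -/
theorem sqn_mid (hd : Deloc) {d : ℤ × ℤ} (hdr : DirZ d) (p : ℤ) {a : V}
    (ha : Even (RP4.par a)) (ha2 : ∃ n : ℤ, a = (n * d.1, n * d.2)) {s : Finset V}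
    (hs : ∀ x ∈ s, ld d x ≤ p - |ld d a|) {A : (V → ℤ) → ℂ} (hA : Pn s A) :
    sqn d p A ^ 2 ≤ sqn d (p - ld d a) A * sqn d (p + ld d a) A := by
  classical
  obtain ⟨n, rfl⟩ := ha2
  have hneg : ((-n) * d.1, (-n) * d.2) = -((n * d.1, n * d.2) : V) := by
    refine Prod.ext ?_ ?_
    · simp only [Prod.fst_neg]
      ring
    · simp only [Prod.snd_neg]
      ring
  have ha' : Even (RP4.par ((-n) * d.1, (-n) * d.2)) := by
    rw [hneg]
    have h1 : RP4.par (-((n * d.1, n * d.2) : V)) = -RP4.par (n * d.1, n * d.2) := by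
      unfold RP4.par
      simp only [Prod.fst_neg, Prod.snd_neg]
      ring
    rw [h1]
    exact ha.neg
  have hldn : ld d ((-n) * d.1, (-n) * d.2) = -ld d (n * d.1, n * d.2) := by
    unfold ld
    ring
  -- the translated product
  have h1 : tro (n * d.1, n * d.2) (rpr d p A A) =
      rpr d p (tro (n * d.1, n * d.2) A) (tro ((-n) * d.1, (-n) * d.2) A) := by
    funext h
    have h2 : (fun v => h (lref d p v + (n * d.1, n * d.2))) =
        fun v => h (lref d p (v + ((-n) * d.1, (-n) * d.2))) := by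
      funext v
      rw [lref_add hdr]
      congr 1
      refine Prod.ext ?_ ?_
      · simp only [Prod.fst_add, Prod.fst_sub]
        ring
      · simp only [Prod.snd_add, Prod.snd_sub]
        ring
    change A _ * (starRingEnd ℂ) (A (fun v => h (lref d p v + (n * d.1, n * d.2)))) =
      A _ * (starRingEnd ℂ) (A (fun v => h (lref d p (v + ((-n) * d.1, (-n) * d.2)))))
    rw [h2]
  have h2 : sqn d p A = (M (rpr d p (tro (n * d.1, n * d.2) A)
      (tro ((-n) * d.1, (-n) * d.2) A))).re := by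
    rw [← h1, M_trans hd (hA.prl hA.loc) ha]
    rfl
  -- supports
  have htro : ∀ (u : V), Pn (s.image (· + u)) (tro u A) := by
    intro u
    refine ⟨hA.loc.tro u, ?_⟩
    obtain ⟨N, hN⟩ := hA.pin
    refine ⟨N, fun h hh => ?_⟩
    obtain ⟨x, hx, hx2⟩ := hN _ hh
    exact ⟨x + u, Finset.mem_image_of_mem (· + u) hx, hx2⟩
  set t : Finset V := s.image (· + ((n * d.1, n * d.2) : V)) ∪
    s.image (· + (((-n) * d.1, (-n) * d.2) : V)) with ht
  have hmono : ∀ {s' t' : Finset V} {B : (V → ℤ) → ℂ}, Pn s' B → s' ⊆ t' → Pn t' B := by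
    intro s' t' B hB hst
    refine ⟨hB.loc.mono hst, ?_⟩
    obtain ⟨N, hN⟩ := hB.pin
    refine ⟨N, fun h hh => ?_⟩
    obtain ⟨x, hx, hx2⟩ := hN h hh
    exact ⟨x, hst hx, hx2⟩
  have hldadd : ∀ x u : V, ld d (x + u) = ld d x + ld d u := by
    intro x u
    unfold ld
    simp only [Prod.fst_add, Prod.snd_add]
    ring
  have htb : ∀ x ∈ t, ld d x ≤ p := by
    intro x hx
    rcases Finset.mem_union.1 hx with hx | hx
    · obtain ⟨y, hy, rfl⟩ := Finset.mem_image.1 hx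
      have h3 := hs y hy
      have h4 := le_abs_self (ld d (n * d.1, n * d.2))
      rw [hldadd]
      linarith
    · obtain ⟨y, hy, rfl⟩ := Finset.mem_image.1 hx
      have h3 := hs y hy
      have h4 := neg_le_abs (ld d (n * d.1, n * d.2))
      rw [hldadd, hldn]
      linarith
  have h5 := M_cs hd hdr p htb (hmono (htro (n * d.1, n * d.2)) Finset.subset_union_left)
    (hmono (htro ((-n) * d.1, (-n) * d.2)) Finset.subset_union_right)
  rw [sqn_tro hd hdr p n ha hA, sqn_tro hd hdr p (-n) ha' hA, hldn, sub_neg_eq_add] at h5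
  rw [h2]
  refine le_trans ?_ h5
  rw [← sq_abs]
  exact pow_le_pow_left₀ (abs_nonneg _) (Complex.abs_re_le_norm _) 2

end DV
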