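import Pool.Agent.Helper27.GF.Ax

/-!
# Project DV, block ENV: limits of weighted finite averages

`T p` a finite set of configurations, `w p g ≥ 0` a weight, `U` an ultrafilter on the index set along
which the total weight is positive.
-/

open Filter Topology

namespace DV

variable {P G : Type}

/-- the total weight of `A` -/
def wsm (T : P → Finset G) (w : P → G → ℝ) (p : P) (A : P × G → ℝ) : ℝ :=
  ∑ g ∈ T p, A (p, g) * w p g

/-- the weighted average -/
noncomputable def wav (T : P → Finset G) (w : P → G → ℝ) (p : P) (A : P × G → ℝ) : ℝ :=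
  wsm T w p A / ∑ g ∈ T p, w p g

/-- all absolute moments are eventually bounded -/
def OkW (T : P → Finset G) (w : P → G → ℝ) (U : Filter P) (A : P × G → ℝ) : Prop :=
  ∀ k : ℕ, ∃ C : ℝ, ∀ᶠ p in U, wav T w p (fun i => |A i| ^ k) ≤ C

/-- the limit functional -/
noncomputable def LW (T : P → Finset G) (w : P → G → ℝ) (U : Filter P) (A : P × G → ℝ) : ℝ :=
  limUnder U (fun p => wav T w p A)

variable {T : P → Finset G} {w : P → G → ℝ}

lemma wav_add (p : P) (A B : P × G → ℝ) :
    wav T w p (fun i => A i + B i) = wav T w p A + wav T w p B := by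
  unfold wav wsm
  rw [← add_div, ← Finset.sum_add_distrib]
  congr 1
  exact Finset.sum_congr rfl fun g _ => by ring

lemma wav_smul (p : P) (c : ℝ) (A : P × G → ℝ) :
    wav T w p (fun i => c * A i) = c * wav T w p A := by
  unfold wav wsm
  rw [← mul_div_assoc, Finset.mul_sum]
  congr 1
  exact Finset.sum_congr rfl fun g _ => by ring

lemma wav_mono (hw : ∀ p g, 0 ≤ w p g) (p : P) {A B : P × G → ℝ}
    (h : ∀ g ∈ T p, A (p, g) ≤ B (p, g)) : wav T w p A ≤ wav T w p B := by
  unfold wav wsm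
  refine div_le_div_of_nonneg_right ?_ (Finset.sum_nonneg fun g _ => hw p g)
  exact Finset.sum_le_sum fun g hg => mul_le_mul_of_nonneg_right (h g hg) (hw p g)

lemma wav_const {p : P} (hp : 0 < ∑ g ∈ T p, w p g) (c : ℝ) : wav T w p (fun _ => c) = c := by
  unfold wav wsm
  rw [← Finset.mul_sum, mul_div_cancel_right₀ _ hp.ne']

lemma wav_congr (p : P) {A B : P × G → ℝ} (h : ∀ g ∈ T p, A (p, g) = B (p, g)) :
    wav T w p A = wav T w p B := by
  unfold wav wsm
  rw [Finset.sum_congr rfl fun g hg => by rw [h g hg]]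

lemma wav_nonneg (hw : ∀ p g, 0 ≤ w p g) (p : P) {A : P × G → ℝ} (h : ∀ g ∈ T p, 0 ≤ A (p, g)) :
    0 ≤ wav T w p A :=
  div_nonneg (Finset.sum_nonneg fun g hg => mul_nonneg (h g hg) (hw p g))
    (Finset.sum_nonneg fun g _ => hw p g)

/-- Cauchy-Schwarz -/
lemma wav_cs (hw : ∀ p g, 0 ≤ w p g) (p : P) (A B : P × G → ℝ) :
    (wav T w p (fun i => A i * B i)) ^ 2 ≤
      wav T w p (fun i => A i ^ 2) * wav T w p (fun i => B i ^ 2) := by
  unfold wav wsm
  have h := Finset.sum_mul_sq_le_sq_mul_sq (T p) (fun g => A (p, g) * Real.sqrt (w p g))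
    (fun g => B (p, g) * Real.sqrt (w p g))
  have e1 : ∀ g, A (p, g) * Real.sqrt (w p g) * (B (p, g) * Real.sqrt (w p g)) =
      A (p, g) * B (p, g) * w p g := fun g => by
    have := Real.mul_self_sqrt (hw p g)
    calc _ = A (p, g) * B (p, g) * (Real.sqrt (w p g) * Real.sqrt (w p g)) := by ring
      _ = _ := by rw [this]
  have e2 : ∀ (A : P × G → ℝ) g, (A (p, g) * Real.sqrt (w p g)) ^ 2 = A (p, g) ^ 2 * w p g :=
    fun A g => by rw [mul_pow, Real.sq_sqrt (hw p g)]
  simp only [e1, e2] at h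
  rw [div_pow, div_mul_div_comm, ← pow_two]
  exact div_le_div_of_nonneg_right h (by positivity)

variable {U : Filter P}

lemma OkW.const (hU : ∀ᶠ p in U, 0 < ∑ g ∈ T p, w p g) (c : ℝ) : OkW T w U (fun _ => c) := by
  intro k
  refine ⟨|c| ^ k, hU.mono fun p hp => ?_⟩
  exact (wav_const hp (|c| ^ k)).le

lemma OkW.add (hw : ∀ p g, 0 ≤ w p g) {A B : P × G → ℝ} (hA : OkW T w U A) (hB : OkW T w U B) :
    OkW T w U (fun i => A i + B i) := by
  intro k
  obtain ⟨a, ha⟩ := hA k
  obtain ⟨b, hb⟩ := hB k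
  refine ⟨2 ^ (k - 1) * (a + b), ?_⟩
  filter_upwards [ha, hb] with p h1 h2
  calc wav T w p (fun i => |A i + B i| ^ k)
      ≤ wav T w p (fun i => 2 ^ (k - 1) * (|A i| ^ k + |B i| ^ k)) := by
        refine wav_mono hw p fun g _ => ?_
        exact (pow_le_pow_left₀ (abs_nonneg _) (abs_add_le _ _) k).trans
          (add_pow_le (abs_nonneg _) (abs_nonneg _) k)
    _ = 2 ^ (k - 1) * (wav T w p (fun i => |A i| ^ k) + wav T w p (fun i => |B i| ^ k)) := by
        rw [wav_smul p (2 ^ (k - 1)) (fun i => |A i| ^ k + |B i| ^ k),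
          wav_add p (fun i => |A i| ^ k) (fun i => |B i| ^ k)]
    _ ≤ 2 ^ (k - 1) * (a + b) := by gcongr

lemma OkW.mul (hw : ∀ p g, 0 ≤ w p g) {A B : P × G → ℝ} (hA : OkW T w U A) (hB : OkW T w U B) :
    OkW T w U (fun i => A i * B i) := by
  intro k
  obtain ⟨a, ha⟩ := hA (2 * k)
  obtain ⟨b, hb⟩ := hB (2 * k)
  refine ⟨a + b, ?_⟩
  filter_upwards [ha, hb] with p h1 h2
  calc wav T w p (fun i => |A i * B i| ^ k)
      ≤ wav T w p (fun i => |A i| ^ (2 * k) + |B i| ^ (2 * k)) := by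
        refine wav_mono hw p fun g _ => ?_
        rw [abs_mul, mul_pow, pow_mul' |A (p, g)| 2 k, pow_mul' |B (p, g)| 2 k]
        nlinarith [sq_nonneg (|A (p, g)| ^ k - |B (p, g)| ^ k), sq_nonneg (|A (p, g)| ^ k),
          sq_nonneg (|B (p, g)| ^ k)]
    _ = wav T w p (fun i => |A i| ^ (2 * k)) + wav T w p (fun i => |B i| ^ (2 * k)) :=
        wav_add p (fun i => |A i| ^ (2 * k)) (fun i => |B i| ^ (2 * k))
    _ ≤ a + b := by gcongr

lemma OkW.of_abs_le (hw : ∀ p g, 0 ≤ w p g) {A B : P × G → ℝ} (h : ∀ i, |A i| ≤ |B i|)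
    (hB : OkW T w U B) : OkW T w U A := by
  intro k
  obtain ⟨b, hb⟩ := hB k
  refine ⟨b, hb.mono fun p h1 => ?_⟩
  refine le_trans (wav_mono hw p fun g _ => ?_) h1
  exact pow_le_pow_left₀ (abs_nonneg _) (h _) k

lemma OkW.congr {A B : P × G → ℝ} (h : ∀ᶠ p in U, ∀ g ∈ T p, A (p, g) = B (p, g))
    (hB : OkW T w U B) : OkW T w U A := by
  intro k
  obtain ⟨b, hb⟩ := hB k
  refine ⟨b, ?_⟩
  filter_upwards [h, hb] with p h1 h2
  refine le_trans (le_of_eq (wav_congr p fun g hg => ?_)) h2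
  rw [h1 g hg]

/-- along an ultrafilter the bounded function `p ↦ wav p A` converges -/
lemma LW_tendsto (hw : ∀ p g, 0 ≤ w p g) {U : Ultrafilter P} {A : P × G → ℝ} (hA : OkW T w U A) :
    Tendsto (fun p => wav T w p A) U (𝓝 (LW T w U A)) := by
  obtain ⟨C, hC⟩ := hA 1
  have h1 : ∀ᶠ p in (U : Filter P), wav T w p A ∈ Set.Icc (-C) C := by
    filter_upwards [hC] with p hp
    have h2 : wav T w p A ≤ wav T w p (fun i => |A i| ^ 1) := wav_mono hw p fun g _ => by
      rw [pow_one]; exact le_abs_self _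
    have h3 : wav T w p (fun i => -1 * A i) ≤ wav T w p (fun i => |A i| ^ 1) :=
      wav_mono hw p fun g _ => by rw [pow_one, neg_one_mul]; exact neg_le_abs _
    rw [wav_smul] at h3
    constructor <;> linarith
  have h4 : Set.Icc (-C) C ∈ Ultrafilter.map (fun p => wav T w p A) U := h1
  obtain ⟨x, -, hx⟩ := isCompact_Icc.ultrafilter_le_nhds' _ h4
  exact tendsto_nhds_limUnder ⟨x, hx⟩

lemma LW_eq {U : Ultrafilter P} {A : P × G → ℝ} {c : ℝ}
    (h : Tendsto (fun p => wav T w p A) U (𝓝 c)) : LW T w U A = c := h.limUnder_eq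

lemma LW_congr {A B : P × G → ℝ} (h : ∀ᶠ p in U, ∀ g ∈ T p, A (p, g) = B (p, g)) :
    LW T w U A = LW T w U B := by
  unfold LW limUnder
  rw [Filter.map_congr (h.mono fun p hp => wav_congr p hp)]

/-- the positive normalised functional -/
noncomputable def limW (T : P → Finset G) (w : P → G → ℝ) (hw : ∀ p g, 0 ≤ w p g)
    (U : Ultrafilter P) (hU : ∀ᶠ p in (U : Filter P), 0 < ∑ g ∈ T p, w p g) : GF.Lim (P × G) where
  Ok := OkW T w U
  L := LW T w U
  ok_const := fun c => OkW.const hU c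
  ok_add := fun _ _ hA hB => hA.add hw hB
  ok_mul := fun _ _ hA hB => hA.mul hw hB
  ok_of_abs_le := fun _ _ h hB => OkW.of_abs_le hw h hB
  L_add := fun A B hA hB => by
    refine LW_eq (((LW_tendsto hw hA).add (LW_tendsto hw hB)).congr fun p => ?_)
    rw [wav_add]
  L_smul := fun c A hA => by
    refine LW_eq (((LW_tendsto hw hA).const_mul c).congr fun p => ?_)
    rw [wav_smul]
  L_mono := fun A B hA hB h =>
    le_of_tendsto_of_tendsto' (LW_tendsto hw hA) (LW_tendsto hw hB)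
      fun p => wav_mono hw p fun g _ => h _
  L_one := by
    refine LW_eq (tendsto_const_nhds.congr' ?_)
    filter_upwards [hU] with p hp
    rw [wav_const hp]

end DV
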