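import Pool.Agent.Helper33.DV.Pm5

/-!
# Project DV, block PL1: the symmetry `h ↦ -h`
-/

open Finset Filter Topology

namespace DV

open RP4 (V Adj BdryPar Om dom avg mu Loc Deloc dist1)
open GF.Lat (ld DirZ lref)

/-- the observable composed with `h ↦ -h` -/
def ngo (A : (V → ℤ) → ℂ) : (V → ℤ) → ℂ := fun h => A (fun v => -h v)

lemma AL.ngo {s : Finset V} {A : (V → ℤ) → ℂ} (h : AL s A) : AL s (ngo A) :=
  fun _ _ hg => h _ _ fun x hx => by simp only [hg x hx]

lemma Pn.ngo {s : Finset V} {A : (V → ℤ) → ℂ} (hA : Pn s A) : Pn s (ngo A) := by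
  refine ⟨hA.loc.ngo, ?_⟩
  obtain ⟨N, hN⟩ := hA.pin
  refine ⟨N, fun h hh => ?_⟩
  obtain ⟨x, hx, hx2⟩ := hN _ hh
  exact ⟨x, hx, by simpa using hx2⟩

private lemma lev_neg (k : ℤ) (h : V → ℤ) : (fun v => -lev k h v) = lev (-k) (fun v => -h v) := by
  funext v
  simp only [lev]
  ring

lemma Phs.ngo {A : (V → ℤ) → ℂ} (hA : Phs 0 A) : Phs 0 (ngo A) := by
  intro k h
  unfold DV.ngo
  rw [lev_neg, hA.lev0]
  simp

private lemma avc_neg (D : Finset V) (F : (V → ℤ) → ℂ) : avc (Om D) (ngo F) = avc (Om D) F := by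
  unfold avc ngo
  congr 1
  refine Finset.sum_nbij' (fun g => -g) (fun g => -g) ?_ ?_ ?_ ?_ ?_
  · intro g hg
    exact RP4.neg_mem_Zs (le_refl _) hg
  · intro g hg
    exact RP4.neg_mem_Zs (le_refl _) hg
  · intro g _
    exact neg_neg g
  · intro g _
    exact neg_neg g
  · intro g _
    rfl

theorem muP_neg (F : (V → ℤ) → ℂ) : muP (ngo F) = muP F := by
  unfold muP
  simp only [avc_neg]

lemma per_ngo (A : (V → ℤ) → ℂ) : per (ngo A) = ngo (per A) := by
  funext h
  unfold per ngo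
  have h1 : (fun k : ℤ => A (fun v => -lev k h v)) =
      fun k => (fun i => A (lev i (fun v => -h v))) (Equiv.neg ℤ k) := by
    funext k
    simp only [Equiv.neg_apply, ← lev_neg]
  rw [h1]
  exact finsum_comp_equiv (Equiv.neg ℤ) (f := fun i => A (lev i (fun v => -h v)))

theorem M_neg (A : (V → ℤ) → ℂ) : M (ngo A) = M A := by
  unfold M
  rw [per_ngo, muP_neg]

end DV
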