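import Pool.Agent.Helper33.DV.Ev1
import Pool.Agent.Helper33.DV.Pm6

/-!
# Project DV, block ENV: the floating measure with a weight as a limit of weighted averages
-/

open Finset Filter Topology

namespace DV

open RP4 (V Adj BdryPar Om dom avg mu Loc Deloc dist1)
open GF.Lat (ld DirZ lref)

/-- a real function as an observable -/
def cx (E : (V → ℤ) → ℝ) : (V → ℤ) → ℂ := fun h => (E h : ℂ)

/-- the configurations of the floating measure in `D` with nonzero weight -/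
def cfSet (E : (V → ℤ) → ℝ) (D : Finset V) : Set (V → ℤ) :=
  {g | E g ≠ 0 ∧ ∃ h ∈ Om D, ∃ k : ℤ, lev k h = g}

open Classical in
/-- the configurations as a finite set -/
noncomputable def Cf (E : (V → ℤ) → ℝ) (D : Finset V) : Finset (V → ℤ) :=
  if h : (cfSet E D).Finite then h.toFinset else ∅

lemma Pn.finR {s : Finset V} {E : (V → ℤ) → ℝ} (hE : Pn s (cx E)) (h : V → ℤ) :
    {k : ℤ | E (lev k h) ≠ 0}.Finite := by
  refine (hE.finite h).subset fun k hk => ?_
  have hk' : E (lev k h) ≠ 0 := hk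
  exact Complex.ofReal_ne_zero.2 hk'

lemma cfSet_finite {s : Finset V} {E : (V → ℤ) → ℝ} (hE : Pn s (cx E)) (D : Finset V) :
    (cfSet E D).Finite := by
  have h1 : cfSet E D ⊆ ⋃ h ∈ (Om D : Set (V → ℤ)), (fun k => lev k h) '' {k : ℤ | E (lev k h) ≠ 0} := by
    rintro g ⟨hg, h, hh, k, rfl⟩
    exact Set.mem_biUnion hh ⟨k, hg, rfl⟩
  exact (Set.Finite.biUnion (Om D).finite_toSet fun h _ => (hE.finR h).image _).subset h1

lemma mem_Cf {s : Finset V} {E : (V → ℤ) → ℝ} (hE : Pn s (cx E)) {D : Finset V} {g : V → ℤ} :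
    g ∈ Cf E D ↔ E g ≠ 0 ∧ ∃ h ∈ Om D, ∃ k : ℤ, lev k h = g := by
  unfold Cf
  rw [dif_pos (cfSet_finite hE D), Set.Finite.mem_toFinset]
  rfl

lemma exists_notMem (D : Finset V) : ∃ z : V, z ∉ D := by
  by_contra h
  push Not at h
  exact (Set.infinite_univ (α := V)) ((Finset.finite_toSet D).subset fun z _ => h z)

lemma Om_off {D : Finset V} {h : V → ℤ} (hh : h ∈ Om D) {z : V} (hz : z ∉ D) : h z = 0 :=
  (RP4.mem_Om.1 hh).1.off z hz

/-- the sum over the configurations as a sum over `Om D` and the levels -/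
lemma sum_Cf {s : Finset V} {E : (V → ℤ) → ℝ} (hE : Pn s (cx E)) (D : Finset V)
    (A : (V → ℤ) → ℝ) :
    ∑ g ∈ Cf E D, A g * E g = ∑ h ∈ Om D, ∑ᶠ k : ℤ, A (lev k h) * E (lev k h) := by
  classical
  obtain ⟨z, hz⟩ := exists_notMem D
  set Tk : (V → ℤ) → Finset ℤ := fun h => (hE.finR h).toFinset with hTk
  have h1 : ∀ h ∈ Om D, ∑ᶠ k : ℤ, A (lev k h) * E (lev k h) =
      ∑ k ∈ Tk h, A (lev k h) * E (lev k h) := by
    intro h _
    refine finsum_eq_sum_of_support_subset _ fun k hk => ?_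
    rw [Finset.mem_coe, hTk, Set.Finite.mem_toFinset]
    exact right_ne_zero_of_mul (Function.mem_support.1 hk)
  rw [Finset.sum_congr rfl h1, Finset.sum_sigma']
  symm
  refine Finset.sum_bij (fun x _ => lev x.2 x.1) ?_ ?_ ?_ ?_
  · rintro ⟨h, k⟩ hx
    rw [Finset.mem_sigma] at hx
    have h2 : E (lev k h) ≠ 0 := by
      have := hx.2
      rw [hTk, Set.Finite.mem_toFinset] at this
      exact this
    exact (mem_Cf hE).2 ⟨h2, h, hx.1, k, rfl⟩
  · rintro ⟨h, k⟩ hx ⟨h', k'⟩ hx' heq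
    rw [Finset.mem_sigma] at hx hx'
    simp only at heq
    have h2 := congrFun heq z
    have e1 : h z = 0 := Om_off hx.1 hz
    have e2 : h' z = 0 := Om_off hx'.1 hz
    simp only [lev, e1, e2] at h2
    have h3 : k = k' := by omega
    subst h3
    have h4 : h = h' := by
      funext v
      have := congrFun heq v
      simp only [lev] at this
      omega
    rw [h4]
  · intro g hg
    obtain ⟨hg1, h, hh, k, rfl⟩ := (mem_Cf hE).1 hg
    refine ⟨⟨h, k⟩, ?_, rfl⟩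
    rw [Finset.mem_sigma]
    refine ⟨hh, ?_⟩
    rw [hTk, Set.Finite.mem_toFinset]
    exact hg1
  · rintro ⟨h, k⟩ _
    rfl

lemma sum_per_re {s : Finset V} {A : (V → ℤ) → ℝ} (hA : Pn s (cx A)) (D : Finset V) :
    (∑ h ∈ Om D, per (cx A) h) = ((∑ h ∈ Om D, ∑ᶠ k : ℤ, A (lev k h) : ℝ) : ℂ) := by
  rw [Complex.ofReal_sum]
  refine Finset.sum_congr rfl fun h _ => ?_
  unfold per
  exact (AddMonoidHom.map_finsum Complex.ofRealHom.toAddMonoidHom (hA.finR h)).symm

/-- the real part of the floating measure of a real observable -/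
lemma MD_cx {s : Finset V} {A : (V → ℤ) → ℝ} (hA : Pn s (cx A)) (D : Finset V) :
    MD D (cx A) = (((∑ h ∈ Om D, ∑ᶠ k : ℤ, A (lev k h)) / (Om D).card : ℝ) : ℂ) := by
  unfold MD avc
  rw [sum_per_re hA]
  push_cast
  rfl

lemma M_cx_im (hd : Deloc) {s : Finset V} {A : (V → ℤ) → ℝ} (hA : Pn s (cx A)) :
    (M (cx A)).im = 0 := by
  have := RP4.dom_neBot
  have h1 := (Complex.continuous_im.tendsto _).comp (M_tendsto hd hA)
  refine tendsto_nhds_unique h1 (tendsto_const_nhds.congr fun D => ?_)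
  simp only [Function.comp_apply, MD_cx hA, Complex.ofReal_im]

/-- the floating measure of a real observable -/
noncomputable def MR (A : (V → ℤ) → ℝ) : ℝ := (M (cx A)).re

lemma M_cx (hd : Deloc) {s : Finset V} {A : (V → ℤ) → ℝ} (hA : Pn s (cx A)) :
    M (cx A) = (MR A : ℂ) := by
  refine Complex.ext ?_ ?_
  · rfl
  · rw [M_cx_im hd hA, Complex.ofReal_im]

lemma MR_tendsto (hd : Deloc) {s : Finset V} {A : (V → ℤ) → ℝ} (hA : Pn s (cx A)) :
    Tendsto (fun D => (∑ h ∈ Om D, ∑ᶠ k : ℤ, A (lev k h)) / (Om D).card) dom (𝓝 (MR A)) := by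
  have h1 := (Complex.continuous_re.tendsto _).comp (M_tendsto hd hA)
  refine h1.congr fun D => ?_
  simp only [Function.comp_apply, MD_cx hA, Complex.ofReal_re]

lemma Pn.mulR {s t : Finset V} {F E : (V → ℤ) → ℝ} (hF : AL t (cx F)) (hE : Pn s (cx E)) :
    Pn (s ∪ t) (cx fun h => F h * E h) := by
  classical
  refine ⟨fun h h' hh => ?_, ?_⟩
  · have h1 := hF h h' fun x hx => hh x (Finset.mem_union_right _ hx)
    have h2 := hE.loc h h' fun x hx => hh x (Finset.mem_union_left _ hx)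
    simp only [cx] at h1 h2 ⊢
    push_cast
    rw [h1, h2]
  · obtain ⟨N, hN⟩ := hE.pin
    refine ⟨N, fun h hh => ?_⟩
    obtain ⟨x, hx, hx2⟩ := hN h (by
      simp only [cx, Complex.ofReal_mul] at hh ⊢
      exact right_ne_zero_of_mul hh)
    exact ⟨x, Finset.mem_union_left _ hx, hx2⟩

/-- the weighted average at scale `δ` in `D` -/
noncomputable def Tcf (E : ℝ → (V → ℤ) → ℝ) (p : ℝ × Finset V) : Finset (V → ℤ) := Cf (E p.1) p.2

/-- the weight -/
def wc (E : ℝ → (V → ℤ) → ℝ) (p : ℝ × Finset V) (g : V → ℤ) : ℝ := E p.1 g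

lemma wav_tendsto (hd : Deloc) {E : ℝ → (V → ℤ) → ℝ} {δ : ℝ} {s t : Finset V} {F : (V → ℤ) → ℝ}
    (hE : Pn s (cx (E δ))) (hE0 : MR (E δ) ≠ 0) (hF : AL t (cx F)) :
    Tendsto (fun D => wav (Tcf E) (wc E) (δ, D) (fun i => F i.2)) dom
      (𝓝 (MR (fun h => F h * E δ h) / MR (E δ))) := by
  have h1 := MR_tendsto hd (Pn.mulR hF hE)
  have h2 := MR_tendsto hd hE
  refine (h1.div h2 hE0).congr' ?_
  rw [Filter.EventuallyEq, RP4.eventually_dom]
  refine ⟨∅, fun D _ hD => ?_⟩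
  have hc : ((Om D).card : ℝ) ≠ 0 := by
    exact_mod_cast (Finset.card_pos.2 (RP4.Om_nonempty hD)).ne'
  have e1 : ∑ g ∈ Cf (E δ) D, F g * E δ g =
      ∑ h ∈ Om D, ∑ᶠ k : ℤ, F (lev k h) * E δ (lev k h) := sum_Cf hE D F
  have e2 : ∑ g ∈ Cf (E δ) D, E δ g = ∑ h ∈ Om D, ∑ᶠ k : ℤ, E δ (lev k h) := by
    have := sum_Cf hE D (fun _ => (1 : ℝ))
    simpa only [one_mul] using this
  unfold wav wsm Tcf wc
  simp only [Pi.div_apply]
  rw [e1, e2, div_div_div_cancel_right₀ hc]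

end DV
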