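import Pool.Agent.Helper94.BR.Ev
import Pool.Agent.Helper83.DV.Sm
import Pool.Agent.Helper41.DV.H4

/-!
# Project DV, block GLUE (LO): the sequence of weights of a polyomino
-/

open Finset Filter Topology MeasureTheory

namespace DV

open RP4 (V Adj BdryPar Om dom avg mu Loc Deloc dist1 cnt mass)
open GF (Pl Cc Ne Tst lap Kc JJ ell bx)
open GF.Lat (Xd dr)
open SW (iw)
open PL (AB InR sc LocC)

/-! ### one block as a bounded family -/

lemma ell_sub_le {d : Pl} (hd : |d.1| ≤ 1 ∧ |d.2| ≤ 1) (z w : Pl) : |ell d z - ell d w| ≤ 2 * dist z w := by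
  have h1 : |z.1 - w.1| ≤ dist z w := by
    rw [Prod.dist_eq, ← Real.dist_eq]
    exact le_max_left _ _
  have h2 : |z.2 - w.2| ≤ dist z w := by
    rw [Prod.dist_eq, ← Real.dist_eq]
    exact le_max_right _ _
  have h3 : ell d z - ell d w = d.1 * (z.1 - w.1) + d.2 * (z.2 - w.2) := by
    unfold ell
    ring
  rw [h3]
  refine (abs_add_le _ _).trans ?_
  rw [abs_mul, abs_mul]
  have h4 := mul_le_mul hd.1 h1 (abs_nonneg _) zero_le_one
  have h5 := mul_le_mul hd.2 h2 (abs_nonneg _) zero_le_one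
  linarith

lemma LL_sub_le (i : Fin 6) (z w : Pl) : |LL i z - LL i w| ≤ 2 * dist z w := by
  refine ell_sub_le ?_ z w
  fin_cases i <;> simp [dd, dr]

/-- a block is a bounded family -/
lemma AB_blk' {K : Set Pl} {c : Pl} {r R : ℝ} (hr : 0 < r) (hrR : r < R)
    (hK : Metric.closedBall c R ⊆ K) : AB false K (fun δ => cx (iw (Bk 0 δ c r R))) := by
  have hR0 : 0 < R := hr.trans hrR
  refine ⟨⟨1, Eventually.of_forall fun δ h => ?_⟩, ⟨|c.1| + |c.2| + R + 1, by positivity, ?_⟩, fun h => absurd h (by decide)⟩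
  · simp only [cx]
    rw [Complex.norm_real, Real.norm_eq_abs]
    show |ic (Bk 0 δ c r R) h| ≤ 1
    rw [abs_of_nonneg (ic_nonneg _ _)]
    exact ic_le_one _ _
  · have h1 : ∀ᶠ δ in 𝓝[>] (0 : ℝ), 0 < δ := self_mem_nhdsWithin
    have h2 : ∀ᶠ δ in 𝓝[>] (0 : ℝ), δ < R - r := nhdsWithin_le_nhds (Iio_mem_nhds (by linarith))
    filter_upwards [h1, h2] with δ hδ hδ2
    refine ⟨Is δ c R, fun h h' hh => ?_, fun x hx => ?_⟩
    · simp only [cx]
      congr 1
      refine ic_congr (bk_loc hδ (by linarith) fun v hv => hh v ((mem_Is hδ).2 hv.le))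
    · have h3 : dist (pt δ x) c ≤ R := (mem_Is hδ).1 hx
      refine ⟨hK h3, ?_⟩
      have h4 : |(pt δ x).1 - c.1| ≤ R := by
        refine le_trans ?_ h3
        rw [Prod.dist_eq, ← Real.dist_eq]
        exact le_max_left _ _
      have h5 : |(pt δ x).2 - c.2| ≤ R := by
        refine le_trans ?_ h3
        rw [Prod.dist_eq, ← Real.dist_eq]
        exact le_max_right _ _
      have h6 := abs_nonneg c.1
      have h7 := abs_nonneg c.2
      have h8 := abs_le.1 h4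
      have h9 := abs_le.1 h5
      have h10 := le_abs_self c.1
      have h11 := neg_abs_le c.1
      have h12 := le_abs_self c.2
      have h13 := neg_abs_le c.2
      constructor
      · show |(pt δ x).1 - (0 : Pl).1| < _
        rw [Prod.fst_zero, sub_zero, abs_lt]
        constructor <;> linarith
      · show |(pt δ x).2 - (0 : Pl).2| < _
        rw [Prod.snd_zero, sub_zero, abs_lt]
        constructor <;> linarith

/-- a ball away from the six lines, not behind all of them, lies in one region -/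
lemma ball_region {s : Fin 6 → ℝ} {κ R : ℝ} {c : Pl} (hoff : ∀ i, 2 * R + κ < |LL i c - s i|)
    (hout : ¬ ∀ i, LL i c < s i) :
    ∃ i, Metric.closedBall c R ⊆ Rr (fun i => s i - κ) (fun i => s i + κ) i := by
  classical
  push Not at hout
  obtain ⟨i₀, hi₀⟩ := hout
  obtain ⟨i, hi, hmin⟩ := (Finset.univ.filter fun i : Fin 6 => s i ≤ LL i c).exists_minimal
    ⟨i₀, Finset.mem_filter.2 ⟨Finset.mem_univ _, hi₀⟩⟩ 
  rw [Finset.mem_filter] at hi
  refine ⟨i, fun w hw => ⟨?_, fun j hj => ?_⟩⟩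
  · have h1 := LL_sub_le i w c
    have h2 : dist w c ≤ R := hw
    have h3 := hoff i
    rw [abs_of_nonneg (sub_nonneg.2 hi.2)] at h3
    have h4 := (abs_le.1 h1).1
    show s i + κ < LL i w
    linarith
  · have hj' : LL j c < s j := by
      by_contra hcon
      rw [not_lt] at hcon
      have h5 := hmin (Finset.mem_filter.2 ⟨Finset.mem_univ j, hcon⟩) hj.le
      exact absurd (lt_of_lt_of_le hj h5) (lt_irrefl _)
    have h1 := LL_sub_le j w c
    have h2 : dist w c ≤ R := hw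
    have h3 := hoff j
    rw [abs_of_neg (sub_neg.2 hj')] at h3
    have h4 := (abs_le.1 h1).2
    show LL j w < s j - κ
    linarith

lemma LL_lines {c : ℝ} {z : Pl} {j : ℕ} (h : ∀ d, dir4 d → ∀ m : ℤ, c ≤ |ell d z - m / 2 ^ j|) (i : Fin 6)
    (m : ℤ) : c ≤ |LL i z - m / 2 ^ j| := by
  have key : ∀ d : Pl, dir4 d → (LL i z = ell d z ∨ LL i z = - ell d z) → c ≤ |LL i z - m / 2 ^ j| := by
    rintro d hd (h1 | h1)
    · rw [h1]
      exact h d hd m
    · have h2 := h d hd (-m)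
      rw [h1]
      have e : |-ell d z - m / 2 ^ j| = |ell d z - ((-m : ℤ) : ℝ) / 2 ^ j| := by
        rw [← abs_neg]
        congr 1
        push_cast
        ring
      rw [e]
      exact h2
  fin_cases i
  · exact key (1, 0) (by simp [dir4]) (Or.inl (by simp [LL, dd, dr, ell]))
  · exact key (1, 1) (by simp [dir4]) (Or.inl (by simp [LL, dd, dr, ell]))
  · exact key (0, 1) (by simp [dir4]) (Or.inl (by simp [LL, dd, dr, ell]))
  · exact key (1, -1) (by simp [dir4]) (Or.inr (by simp [LL, dd, dr, ell]; ring))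
  · exact key (1, 0) (by simp [dir4]) (Or.inr (by simp [LL, dd, dr, ell]))
  · exact key (1, 1) (by simp [dir4]) (Or.inr (by simp [LL, dd, dr, ell]; ring))

lemma LL_pins {c : ℝ} {x y : Pl} (h : ∀ d, dir4 d → c ≤ |ell d x - ell d y|) (i : Fin 6) :
    c ≤ |LL i x - LL i y| := by
  have key : ∀ d : Pl, dir4 d → ((∀ z, LL i z = ell d z) ∨ ∀ z, LL i z = - ell d z) → c ≤ |LL i x - LL i y| := by
    rintro d hd (h1 | h1)
    · rw [h1, h1]
      exact h d hd
    · have h2 := h d hd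
      rw [h1, h1]
      have e : |-ell d x - -ell d y| = |ell d x - ell d y| := by
        rw [← abs_neg]
        congr 1
        ring
      rw [e]
      exact h2
  fin_cases i
  · exact key (1, 0) (by simp [dir4]) (Or.inl fun z => by simp [LL, dd, dr, ell])
  · exact key (1, 1) (by simp [dir4]) (Or.inl fun z => by simp [LL, dd, dr, ell])
  · exact key (0, 1) (by simp [dir4]) (Or.inl fun z => by simp [LL, dd, dr, ell])
  · exact key (1, -1) (by simp [dir4]) (Or.inr fun z => by simp [LL, dd, dr, ell]; ring)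
  · exact key (1, 0) (by simp [dir4]) (Or.inr fun z => by simp [LL, dd, dr, ell])
  · exact key (1, 1) (by simp [dir4]) (Or.inr fun z => by simp [LL, dd, dr, ell]; ring)

/-- the box behind the six lines is small -/
lemma Qr_small {s : Fin 6 → ℝ} {z : Pl} {η : ℝ} (h : ∀ i, s i - LL i z ≤ η) {w : Pl} (hw : ∀ i, LL i w < s i) :
    dist w z ≤ 2 * η := by
  have h0 := h 0
  have h1 := h 1
  have h2 := h 2
  have h3 := h 3
  have h4 := h 4
  have h5 := h 5
  have w0 := hw 0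
  have w1 := hw 1
  have w2 := hw 2
  have w3 := hw 3
  have w4 := hw 4
  have w5 := hw 5
  simp [LL, dd, dr, ell] at h0 h1 h2 h3 h4 h5 w0 w1 w2 w3 w4 w5
  rw [Prod.dist_eq, Real.dist_eq, Real.dist_eq, max_le_iff, abs_le, abs_le]
  refine ⟨⟨by linarith, by linarith⟩, by linarith, by linarith⟩

/-- six dyadic lines around an interior point -/
lemma exists_six {P : Set Pl} {z : Pl} (hz : z ∈ interior P) {c : ℝ} (hc : 0 < c) :
    ∃ (n : ℕ) (m : Fin 6 → ℤ), (∀ i, LL i z + 1 / 2 ^ n ≤ m i / 2 ^ n ∧ m i / 2 ^ n ≤ LL i z + 2 / 2 ^ n) ∧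
      2 / 2 ^ n ≤ c ∧ ∀ w, (∀ i, LL i w < m i / 2 ^ n) → w ∈ interior P := by
  obtain ⟨r, hr, hball⟩ := Metric.isOpen_iff.1 isOpen_interior z hz
  obtain ⟨n, hn⟩ : ∃ n : ℕ, (1 / 2 : ℝ) ^ n < min (r / 8) (c / 2) :=
    exists_pow_lt_of_lt_one (by positivity) (by norm_num)
  rw [one_div_pow] at hn
  have hn1 : 1 / (2 : ℝ) ^ n < r / 8 := lt_of_lt_of_le hn (min_le_left _ _)
  have hn2 : 1 / (2 : ℝ) ^ n < c / 2 := lt_of_lt_of_le hn (min_le_right _ _)
  have hp : (0 : ℝ) < 2 ^ n := by positivity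
  have e2 : 2 / (2 : ℝ) ^ n = 2 * (1 / 2 ^ n) := by ring
  have hm : ∀ i, LL i z + 1 / 2 ^ n ≤ ((⌊2 ^ n * LL i z⌋ + 2 : ℤ) : ℝ) / 2 ^ n ∧
      ((⌊2 ^ n * LL i z⌋ + 2 : ℤ) : ℝ) / 2 ^ n ≤ LL i z + 2 / 2 ^ n := by
    intro i
    have h1 := Int.floor_le (2 ^ n * LL i z)
    have h2 := Int.lt_floor_add_one (2 ^ n * LL i z)
    have e : LL i z = 2 ^ n * LL i z / 2 ^ n := by field_simp
    constructor
    · rw [le_div_iff₀ hp, add_mul, one_div, inv_mul_cancel₀ hp.ne']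
      push_cast
      linarith
    · rw [div_le_iff₀ hp, add_mul, div_mul_cancel₀ _ hp.ne']
      push_cast
      linarith
  refine ⟨n, fun i => ⌊2 ^ n * LL i z⌋ + 2, hm, by rw [e2]; linarith, fun w hw => hball ?_⟩
  have h1 := Qr_small (s := fun i => ((⌊2 ^ n * LL i z⌋ + 2 : ℤ) : ℝ) / 2 ^ n) (η := 2 / 2 ^ n)
    (fun i => by have := (hm i).2; linarith) hw
  rw [Metric.mem_ball]
  rw [e2] at h1
  linarith

lemma wdat_iw {l : Filter ℝ} (hl : l ≤ 𝓝[>] 0) {E : ℝ → (V → ℤ) → Prop} (hdec : ∀ δ, Dec (E δ))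
    (hpn : ∀ᶠ δ in 𝓝[>] (0 : ℝ), ∃ s, Pn s (cx (iw (E δ))))
    (hlow : ∀ᶠ δ in 𝓝[>] (0 : ℝ), 0 < MR (iw (E δ)))
    (hmom : ∀ f, Cc f → ∀ n : ℕ, ∃ C : ℝ, ∀ᶠ δ in 𝓝[>] (0 : ℝ),
      MR (fun g => Xd δ f g ^ (2 * n) * iw (E δ) g) ≤ C * MR (iw (E δ))) :
    WDat l (fun δ => iw (E δ)) := by
  refine ⟨fun δ h => ic_nonneg _ _, fun δ h h' hh => ?_, hl hpn, hl hlow, fun f hf n => ?_⟩
  · have e : absf h = absf h' := by
      funext v
      exact hh v
    refine ic_congr ?_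
    rw [← (hdec δ).abs h, ← (hdec δ).abs h', e]
  · obtain ⟨C, hC⟩ := hmom f hf n
    refine ⟨C, hl ?_⟩
    filter_upwards [hC, hlow] with δ h1 h2
    unfold qt
    rw [div_le_iff₀ h2]
    exact h1

lemma BarOK.posF {k : ℕ} {S : Finset (ℤ × ℤ)} {b : BarD} (hb : BarOK k S b) (j : ℕ) :
    ∀ᶠ δ in 𝓝[>] (0 : ℝ), 0 < MR (iw (b.E j δ)) ∧ 0 < MR (iw (b.F j δ)) := by
  obtain ⟨c, hc, h1⟩ := hb.pos j
  filter_upwards [h1, hb.rare j] with δ h2 h3
  refine ⟨by linarith, ?_⟩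
  by_contra hcon
  rw [not_lt] at hcon
  have h4 : 2 / ((j : ℝ) + 2) * MR (iw (b.F j δ)) ≤ 0 :=
    mul_nonpos_of_nonneg_of_nonpos (by positivity) hcon
  linarith

lemma BarOK.wdE {k : ℕ} {S : Finset (ℤ × ℤ)} {b : BarD} (hb : BarOK k S b) {l : Filter ℝ} (hl : l ≤ 𝓝[>] 0)
    (j : ℕ) : WDat l (fun δ => iw (b.E j δ)) := by
  refine wdat_iw hl (fun δ => b.decE j δ) ?_ ((hb.posF j).mono fun δ h => h.1) fun f hf n => ?_
  · filter_upwards [hb.pnE j] with δ hδ
    obtain ⟨s, hs, -⟩ := hδ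
    exact ⟨s, hs⟩
  · obtain ⟨C, -, hC⟩ := hb.mom f hf n
    exact ⟨C, (hC j).mono fun δ h => h.1⟩

lemma BarOK.wdF {k : ℕ} {S : Finset (ℤ × ℤ)} {b : BarD} (hb : BarOK k S b) {l : Filter ℝ} (hl : l ≤ 𝓝[>] 0)
    (j : ℕ) : WDat l (fun δ => iw (b.F j δ)) := by
  refine wdat_iw hl (fun δ => b.decF j δ) ?_ ((hb.posF j).mono fun δ h => h.2) fun f hf n => ?_
  · filter_upwards [hb.pnE j] with δ hδ
    obtain ⟨s, -, hs⟩ := hδ
    exact ⟨s, hs⟩
  · obtain ⟨C, -, hC⟩ := hb.mom f hf n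
    exact ⟨C, (hC j).mono fun δ h => h.2⟩

lemma iw_all {ι : Type} (Z : Finset ι) (A : ι → (V → ℤ) → Prop) (g : V → ℤ) :
    iw (fun g => ∀ z ∈ Z, A z g) g = ∏ z : {z // z ∈ Z}, iw (A z.1) g := by
  classical
  change ic (fun g => ∀ z ∈ Z, A z g) g = ∏ z : {z // z ∈ Z}, ic (A z.1) g
  by_cases h : ∀ z ∈ Z, A z g
  · rw [Finset.prod_eq_one fun (z : {z // z ∈ Z}) _ => ic_pos (h z.1 z.2)]
    exact ic_pos (E := fun g => ∀ z ∈ Z, A z g) h
  · have h0 := h
    push Not at h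
    obtain ⟨z, hz, hA⟩ := h
    rw [Finset.prod_eq_zero (Finset.mem_univ (⟨z, hz⟩ : {z // z ∈ Z})) (ic_neg hA)]
    exact ic_neg (E := fun g => ∀ z ∈ Z, A z g) h0

/-- the shift identity for the events `E j` -/
theorem BarOK.shift {k : ℕ} {S : Finset (ℤ × ℤ)} {b : BarD} (hb : BarOK k S b) (hd : Deloc) {l : Filter ℝ}
    (hl : l ≤ 𝓝[>] 0) {z : Pl} (hz : z ∈ interior (pol k S)) :
    ∃ r > 0, ∀ u f, Tst (interior (pol k S)) u → tsupport u ⊆ Metric.ball z r →
      Tst (interior (pol k S)) f → ∀ᶠ j in atTop,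
      Tendsto (fun δ => qt (fun δ => iw (b.E j δ)) (fun δ h => Real.cos (Xd δ (fun w => f w + lap u w) h)) δ -
        Real.exp (Kc hd / 2 * JJ f u) * qt (fun δ => iw (b.E j δ)) (fun δ h => Real.cos (Xd δ f h)) δ) l (𝓝 0) := by
  classical
  have hs0 : 0 < b.s := hb.r_pos.trans hb.r_lt
  obtain ⟨n, m, hm, hn, hQ⟩ := exists_six hz hs0
  have hp : (0 : ℝ) < 2 ^ n := by positivity
  have hzP : z ∈ pol k S := interior_subset hz
  refine ⟨1 / (4 * 2 ^ n), by positivity, fun u f hu hur hf => ?_⟩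
  filter_upwards [eventually_ge_atTop n] with j hj
  set s : Fin 6 → ℝ := fun i => m i / 2 ^ n with hs
  set κ : ℝ := min (b.R j) (min (1 / (2 * 2 ^ n)) b.s) with hκ
  have hRj : 0 < b.R j := (hb.ρ_pos j).trans (hb.ρ_lt j)
  have hκ0 : 0 < κ := lt_min hRj (lt_min (by positivity) hs0)
  have hκR : κ ≤ b.R j := min_le_left _ _
  have hκn : κ ≤ 1 / (2 * 2 ^ n) := (min_le_right _ _).trans (min_le_left _ _)
  have hκs : κ ≤ b.s := (min_le_right _ _).trans (min_le_right _ _)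
  have e1 : 1 / (2 * 2 ^ n : ℝ) = 1 / 2 * (1 / 2 ^ n) := by ring
  have e2 : 1 / (4 * 2 ^ n : ℝ) = 1 / 4 * (1 / 2 ^ n) := by ring
  have hnp : 0 < 1 / (2 : ℝ) ^ n := by positivity
  have hQr : ∀ w, dist w z < 1 / (4 * 2 ^ n) → w ∈ Qr fun i => s i - κ := by
    intro w hw i
    have h1 := (abs_le.1 (LL_sub_le i w z)).2
    have h2 := (hm i).1
    show LL i w < m i / 2 ^ n - κ
    rw [e1] at hκn
    rw [e2] at hw
    linarith
  have hne : (Qr fun i => s i - κ).Nonempty := ⟨z, hQr z (by rw [dist_self]; positivity)⟩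
  -- the regions
  have hblk : ∀ c : Pl, c ∈ b.Z j → ∃ i, AB false (Rr (fun i => s i - κ) (fun i => s i + κ) i)
      (fun δ => cx (iw (Bk 0 δ c (b.ρ j) (b.R j)))) := by
    intro c hc
    obtain ⟨hc1, hc2⟩ := hb.off j c hc
    have hoff : ∀ i, 2 * b.R j + κ < |LL i c - s i| := by
      intro i
      have h1 := LL_lines hc2 i (m i * 2 ^ (j - n))
      have e : ((m i * 2 ^ (j - n) : ℤ) : ℝ) / 2 ^ j = m i / 2 ^ n := by
        have h2 : (2 : ℝ) ^ j = 2 ^ (j - n) * 2 ^ n := by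
          rw [← pow_add, Nat.sub_add_cancel hj]
        rw [h2]
        push_cast
        field_simp
      rw [e] at h1
      show 2 * b.R j + κ < |LL i c - m i / 2 ^ n|
      linarith
    obtain ⟨i, hi⟩ := ball_region hoff fun hcon => hc1.2 (hQ c hcon)
    exact ⟨i, AB_blk' (hb.ρ_pos j) (hb.ρ_lt j) hi⟩
  have hpin : ∀ y : Pl, (∀ x ∈ pol k S, ∀ d, dir4 d → 8 * b.s ≤ |ell d x - ell d y|) →
      ∃ i, AB false (Rr (fun i => s i - κ) (fun i => s i + κ) i) (fun δ => cx (iw (Bk 0 δ y b.r b.s))) := by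
    intro y hy
    have hoff : ∀ i, 2 * b.s + κ < |LL i y - s i| := by
      intro i
      have h1 := LL_pins (hy z hzP) i
      have h2 := (hm i).2
      have h3 := (hm i).1
      have h4 : |LL i z - LL i y| ≤ |LL i y - s i| + |s i - LL i z| := by
        have h5 := abs_sub_le (LL i y) (s i) (LL i z)
        rw [abs_sub_comm (LL i y) (LL i z)] at h5
        exact h5
      have h5 : |s i - LL i z| ≤ b.s := by
        rw [abs_le]
        simp only [hs]
        constructor <;> linarith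
      linarith
    obtain ⟨i, hi⟩ := ball_region hoff fun hcon => by
      have h1 := interior_subset (hQ y hcon)
      have h2 := hy y h1 (1, 0) (Or.inl rfl)
      rw [sub_self, abs_zero] at h2
      linarith
    exact ⟨i, AB_blk' hb.r_pos hb.r_lt hi⟩
  obtain ⟨c, hc, hlow⟩ := hb.pos j
  refine shift_prod hd hl (hb.wdE hl j) hc (hl hlow) hκ0 hne
    (ι := Option (Option {z // z ∈ b.Z j}))
    (fun a δ => match a with
      | none => iw (Bk 0 δ b.y₁ b.r b.s)
      | some none => iw (Bk 0 δ b.y₂ b.r b.s)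
      | some (some z) => iw (Bk 0 δ z.1 (b.ρ j) (b.R j))) ?_ ?_ hu.toCc ?_ hf.toCc
  · rintro (_ | _ | z)
    · exact hpin b.y₁ fun x hx d hd => (hb.pins x hx d hd).1
    · exact hpin b.y₂ fun x hx d hd => (hb.pins x hx d hd).2
    · exact hblk z.1 z.2
  · refine Eventually.of_forall fun δ h => ?_
    rw [Fintype.prod_option, Fintype.prod_option]
    simp only
    rw [← iw_all (b.Z j) (fun z => Bk 0 δ z (b.ρ j) (b.R j)) h]
    have h1 := ic_and (Bk 0 δ b.y₁ b.r b.s) (fun g => Bk 0 δ b.y₂ b.r b.s g ∧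
      ∀ z ∈ b.Z j, Bk 0 δ z (b.ρ j) (b.R j) g) h
    have h2 := ic_and (Bk 0 δ b.y₂ b.r b.s) (fun g => ∀ z ∈ b.Z j, Bk 0 δ z (b.ρ j) (b.R j) g) h
    rw [h2] at h1
    exact h1
  · intro w hw
    exact hQr w (hur hw)

/-- **The sequence of weights of a polyomino** -/
theorem exists_loFam_of (hd : Deloc) (hF : FlatC) (hZ : ZoneC) (k : ℕ) (S : Finset (ℤ × ℤ)) {U₀ : Ultrafilter ℝ}
    (hU₀ : (U₀ : Filter ℝ) ≤ 𝓝[>] 0) : ∃ F, LoFam (Kc hd) (pol k S) U₀ F := by
  classical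
  obtain ⟨b, hb⟩ := exists_bar hd hF hZ k S
  have hrare : Tendsto (fun j : ℕ => 2 / ((j : ℝ) + 2)) atTop (𝓝 0) := by
    have h1 : Tendsto (fun j : ℕ => (j : ℝ) + 2) atTop atTop :=
      tendsto_atTop_add_const_right _ _ tendsto_natCast_atTop_atTop
    exact h1.const_div_atTop 2
  refine ⟨b.F, ⟨fun j => hb.wdF hU₀ j, fun f hf n => ?_, ?_⟩, fun j => Eventually.of_forall fun δ => b.decF j δ,
    fun a ha => (hb.blk a ha).mono fun j h => hU₀ h⟩
  · obtain ⟨C, -, hC⟩ := hb.mom f hf n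
    refine ⟨C, fun j => hU₀ ?_⟩
    filter_upwards [hC j, hb.posF j] with δ h1 h2
    unfold qt
    rw [div_le_iff₀ h2.2]
    exact h1.2
  · refine shift_of_larger hd hU₀ (E := fun j δ => iw (b.E j δ)) (fun j δ g => ic_nonneg _ _)
      (fun j δ g => ic_mono fun h => h.1) ?_ ?_ ?_ hrare ?_ fun z hz => hb.shift hd hU₀ hz
    · intro j
      refine hU₀ ?_
      filter_upwards [hb.pnE j] with δ hδ
      obtain ⟨s, hs, -⟩ := hδ
      exact ⟨s, hs⟩
    · intro j
      refine hU₀ ?_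
      filter_upwards [hb.pnE j] with δ hδ
      obtain ⟨s, -, hs⟩ := hδ
      exact ⟨s, hs⟩
    · intro j
      exact hU₀ ((hb.posF j).mono fun δ h => h.2)
    · intro j
      exact hU₀ (hb.rare j)

end DV
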