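import Pool.Agent.Helper33.DV.Pd

/-!
# Project DV, block PL1: the state `muP`
-/

open Finset Filter Topology

namespace DV

open RP4 (V Adj BdryPar Om dom avg mu Loc Deloc dist1)
open GF.Lat (ld DirZ lref)

/-! ## simple facts -/

lemma AL.mono {s t : Finset V} {A : (V → ℤ) → ℂ} (h : AL s A) (hst : s ⊆ t) : AL t A :=
  fun g g' hg => h g g' fun x hx => hg x (hst hx)

lemma AL.mul {s : Finset V} {A B : (V → ℤ) → ℂ} (h : AL s A) (h' : AL s B) :
    AL s (fun g => A g * B g) := fun g g' hg => by simp only [h g g' hg, h' g g' hg]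

lemma AL.add {s : Finset V} {A B : (V → ℤ) → ℂ} (h : AL s A) (h' : AL s B) :
    AL s (fun g => A g + B g) := fun g g' hg => by simp only [h g g' hg, h' g g' hg]

lemma AL.comp {s : Finset V} {A : (V → ℤ) → ℂ} (h : AL s A) (f : ℂ → ℂ) :
    AL s (fun g => f (A g)) := fun g g' hg => by simp only [h g g' hg]

lemma AL.lev {s : Finset V} {A : (V → ℤ) → ℂ} (h : AL s A) (k : ℤ) : AL s (fun g => A (lev k g)) :=
  fun g g' hg => h _ _ fun x hx => by simp only [DV.lev, hg x hx]

lemma AL.rfo {s : Finset V} {A : (V → ℤ) → ℂ} (h : AL s A) (d : ℤ × ℤ) (m : ℤ) :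
    AL (s.image (lref d m)) (rfo d m A) :=
  fun g g' hg => h _ _ fun x hx => hg _ (Finset.mem_image_of_mem _ hx)

lemma AL.tro {s : Finset V} {A : (V → ℤ) → ℂ} (h : AL s A) (u : V) :
    AL (s.image (· + u)) (tro u A) :=
  fun g g' hg => h _ _ fun x hx => hg _ (Finset.mem_image_of_mem (· + u) hx)

lemma lev_lev (j k : ℤ) (h : V → ℤ) : lev j (lev k h) = lev (j + k) h := by
  funext v
  simp only [lev]
  ring

lemma lev_zero (h : V → ℤ) : lev 0 h = h := by
  funext v
  simp [lev]

lemma nrm_eq {h : V → ℤ} (hh : GH h) (w : V) : ∃ k : ℤ, nrm w h = lev k h := by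
  obtain ⟨k, hk⟩ := hh.par w
  refine ⟨k, ?_⟩
  funext v
  simp only [nrm, lev]
  omega

lemma nrm_lev (w : V) (k : ℤ) (h : V → ℤ) : nrm w (lev k h) = nrm w h := by
  funext v
  simp only [nrm, lev]
  ring

lemma Phs.lev0 {F : (V → ℤ) → ℂ} (h0 : Phs 0 F) (k : ℤ) (h : V → ℤ) : F (lev k h) = F h := by
  rw [h0 k h]
  simp

lemma Phs.nrm0 {F : (V → ℤ) → ℂ} (h0 : Phs 0 F) (w : V) {h : V → ℤ} (hh : GH h) :
    F (nrm w h) = F h := by
  obtain ⟨k, hk⟩ := nrm_eq hh w
  rw [hk, h0.lev0]

lemma GH.lev {h : V → ℤ} (hh : GH h) (k : ℤ) : GH (lev k h) := by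
  refine ⟨fun v => ?_, fun u v huv => ?_⟩
  · have h1 := hh.par v
    have h2 : DV.lev k h v - RP4.par v = (h v - RP4.par v) - 2 * k := by
      simp only [DV.lev]
      ring
    rw [h2]
    exact h1.sub (even_two_mul k)
  · have h1 := hh.step u v huv
    have h2 : DV.lev k h u - DV.lev k h v = h u - h v := by
      simp only [DV.lev]
      ring
    rw [h2]
    exact h1

/-
PLAN for this file.  (a) For `BdryPar D 0`, `h ∈ Om D` (RP4.mem_Om, RP4.IsHom) the function
`fun v => if v ∈ D then h v else (RP4.par v) % 2` is a `GH` and agrees with `h` on `D` (a neighbour outside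
`D` of a site of `D`: the site is in `bdry D`, even, height zero, the neighbour is odd, value one).
(b) `nrm w h := fun v => h v - h w + RP4.par w`; for `h ∈ Om D`, `w ∈ D`: `h w - RP4.par w` is even, so
`nrm w h = lev k h` with `2k = h w - RP4.par w` and `F (nrm w h) = F h` when `Phs 0 F`.  The real functions
`fun h => (F (nrm w h)).re`, `.im` are `Loc (insert w s)`.  So `avc (Om D) F` equals, for all `D ∋ w`
(eventually, RP4.eventually_dom), `avg (Om D) re + avg (Om D) im * I` and `RP4.mu_tendsto` gives the limit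
`muP F = mu (re) + mu (im) * I` (state this as a lemma `muP_eq` for every `w`: helper of all the others;
`RP4.dom_neBot` (instance by `have := dom_neBot`), `Filter.Tendsto.limUnder_eq`).
(c) muP_congr, norm_muP_le, muP_re_mono: by (a) the averages compare for all large `D` with `s ⊆ D`
(`F h = F h'` for the `GH` extension `h'` by `AL s`); then le_of_tendsto.  (d) muP_add, muP_smul, muP_conj
from uniqueness of limits and linearity of `avc`; muP_const: `Om D` is nonempty (RP4.Om_nonempty).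
-/
/-! ## the extension to the whole lattice -/

lemma ext_GH {D : Finset V} (hD : BdryPar D 0) {h : V → ℤ} (hh : h ∈ Om D) :
    ∃ g : V → ℤ, GH g ∧ ∀ x ∈ D, g x = h x := by
  classical
  obtain ⟨h1, h2⟩ := RP4.mem_Om.1 hh
  have hadj : ∀ u v : V, Adj u v → RP4.par u - RP4.par v = 1 ∨ RP4.par u - RP4.par v = -1 := by
    intro u v huv
    unfold Adj at huv
    unfold RP4.par
    rcases abs_cases (u.1 - v.1) with ⟨e1, _⟩ | ⟨e1, _⟩ <;>
      rcases abs_cases (u.2 - v.2) with ⟨e2, _⟩ | ⟨e2, _⟩ <;> rw [e1, e2] at huv <;> omega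
  have hout : ∀ u v : V, Adj u v → u ∈ D → v ∉ D → |h u - RP4.par v % 2| = 1 := by
    intro u v huv hu hv
    have hub : u ∈ RP4.bdry D := by
      refine RP4.mem_bdry.2 ⟨hu, v, ?_, hv⟩
      unfold Adj at huv ⊢
      rw [abs_sub_comm v.1, abs_sub_comm v.2]
      exact huv
    have h3 : Even (RP4.par u - 0) := hD u hub
    have h4 : h u = 0 := h2 u hub
    obtain ⟨k, hk⟩ := h3
    have h5 : RP4.par v % 2 = 1 := by
      rcases hadj u v huv with h6 | h6 <;> omega
    rw [h4, h5]
    norm_num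
  refine ⟨fun v => if v ∈ D then h v else RP4.par v % 2, ⟨fun v => ?_, fun u v huv => ?_⟩, fun x hx => if_pos hx⟩
  · by_cases hv : v ∈ D
    · simp only [if_pos hv]
      have h3 := h1.par v hv
      rwa [sub_zero] at h3
    · simp only [if_neg hv]
      rw [Int.even_iff]
      omega
  · by_cases hu : u ∈ D <;> by_cases hv : v ∈ D
    · simp only [if_pos hu, if_pos hv]
      exact h1.step u hu v hv huv
    · simp only [if_pos hu, if_neg hv]
      exact hout u v huv hu hv
    · simp only [if_neg hu, if_pos hv]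
      rw [abs_sub_comm]
      refine hout v u ?_ hv hu
      unfold Adj at huv ⊢
      rw [abs_sub_comm v.1, abs_sub_comm v.2]
      exact huv
    · simp only [if_neg hu, if_neg hv]
      rcases hadj u v huv with h6 | h6
      · rcases Int.emod_two_eq_zero_or_one (RP4.par v) with h7 | h7
        · have h8 : RP4.par u % 2 = 1 := by omega
          rw [h7, h8]
          norm_num
        · have h8 : RP4.par u % 2 = 0 := by omega
          rw [h7, h8]
          norm_num
      · rcases Int.emod_two_eq_zero_or_one (RP4.par v) with h7 | h7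
        · have h8 : RP4.par u % 2 = 1 := by omega
          rw [h7, h8]
          norm_num
        · have h8 : RP4.par u % 2 = 0 := by omega
          rw [h7, h8]
          norm_num

lemma ev_ext (s : Finset V) : ∀ᶠ D in dom, (Om D).Nonempty ∧
    ∀ h ∈ Om D, ∃ g : V → ℤ, GH g ∧ ∀ x ∈ s, g x = h x := by
  refine RP4.eventually_dom.2 ⟨s, fun D hsD hD => ⟨RP4.Om_nonempty hD, fun h hh => ?_⟩⟩
  obtain ⟨g, hg, hg2⟩ := ext_GH hD hh
  exact ⟨g, hg, fun x hx => hg2 x (hsD hx)⟩

/-! ## averages of complex functions -/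

lemma avc_re (S : Finset (V → ℤ)) (F : (V → ℤ) → ℂ) : (avc S F).re = avg S (fun h => (F h).re) := by
  unfold avc RP4.avg
  rw [Complex.div_natCast_re, Complex.re_sum]

lemma avc_im (S : Finset (V → ℤ)) (F : (V → ℤ) → ℂ) : (avc S F).im = avg S (fun h => (F h).im) := by
  unfold avc RP4.avg
  rw [Complex.div_natCast_im, Complex.im_sum]

lemma avc_eq (S : Finset (V → ℤ)) (F : (V → ℤ) → ℂ) :
    avc S F = (avg S (fun h => (F h).re) : ℂ) + (avg S (fun h => (F h).im) : ℂ) * Complex.I := by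
  rw [← avc_re, ← avc_im, Complex.re_add_im]

lemma avc_congr {S : Finset (V → ℤ)} {F G : (V → ℤ) → ℂ} (h : ∀ g ∈ S, F g = G g) :
    avc S F = avc S G := by
  unfold avc
  rw [Finset.sum_congr rfl h]

lemma avg_mono {S : Finset (V → ℤ)} {F G : (V → ℤ) → ℝ} (h : ∀ g ∈ S, F g ≤ G g) :
    avg S F ≤ avg S G := by
  unfold RP4.avg
  exact div_le_div_of_nonneg_right (Finset.sum_le_sum h) (Nat.cast_nonneg _)

lemma norm_avc_le (S : Finset (V → ℤ)) (F : (V → ℤ) → ℂ) : ‖avc S F‖ ≤ avg S (fun h => ‖F h‖) := by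
  unfold avc RP4.avg
  rw [norm_div, Complex.norm_natCast]
  exact div_le_div_of_nonneg_right (norm_sum_le _ _) (Nat.cast_nonneg _)

/-! ## real and imaginary parts -/

lemma loc_re {s : Finset V} {F : (V → ℤ) → ℂ} (hF : AL s F) (w : V) :
    Loc (insert w s) (fun h => (F (nrm w h)).re) := by
  intro h h' hh
  have h1 : F (nrm w h) = F (nrm w h') := by
    refine hF _ _ fun x hx => ?_
    have h2 := hh x (Finset.mem_insert_of_mem hx) w (Finset.mem_insert_self w s)
    simp only [nrm]
    rw [h2]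
  simp only [h1]

lemma loc_im {s : Finset V} {F : (V → ℤ) → ℂ} (hF : AL s F) (w : V) :
    Loc (insert w s) (fun h => (F (nrm w h)).im) := by
  intro h h' hh
  have h1 : F (nrm w h) = F (nrm w h') := by
    refine hF _ _ fun x hx => ?_
    have h2 := hh x (Finset.mem_insert_of_mem hx) w (Finset.mem_insert_self w s)
    simp only [nrm]
    rw [h2]
  simp only [h1]

/-- in a large domain a level invariant local observable does not change under the normalisation -/
lemma ev_nrm {s : Finset V} {F : (V → ℤ) → ℂ} (hF : AL s F) (h0 : Phs 0 F) (w : V) :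
    ∀ᶠ D in dom, ∀ h ∈ Om D, F (nrm w h) = F h := by
  filter_upwards [ev_ext (insert w s)] with D hD
  intro h hh
  obtain ⟨g, hg, hg2⟩ := hD.2 h hh
  have h1 : F h = F g := hF _ _ fun x hx => (hg2 x (Finset.mem_insert_of_mem hx)).symm
  have h2 : F (nrm w h) = F (nrm w g) := by
    refine hF _ _ fun x hx => ?_
    simp only [nrm]
    rw [hg2 x (Finset.mem_insert_of_mem hx), hg2 w (Finset.mem_insert_self w s)]
  rw [h1, h2, h0.nrm0 w hg]

lemma tendsto_aux (hd : Deloc) {s : Finset V} {F : (V → ℤ) → ℂ} (hF : AL s F) (h0 : Phs 0 F) (w : V) :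
    Tendsto (fun D => avc (Om D) F) dom (𝓝 ((mu (fun h => (F (nrm w h)).re) : ℂ) +
      (mu (fun h => (F (nrm w h)).im) : ℂ) * Complex.I)) := by
  have h1 := RP4.mu_tendsto hd (loc_re hF w)
  have h2 := RP4.mu_tendsto hd (loc_im hF w)
  have h3 := (Complex.continuous_ofReal.tendsto _).comp h1
  have h4 := ((Complex.continuous_ofReal.tendsto _).comp h2).mul_const Complex.I
  refine (h3.add h4).congr' ?_
  filter_upwards [ev_nrm hF h0 w] with D hD
  have h5 : avc (Om D) F = avc (Om D) (fun h => F (nrm w h)) := avc_congr fun g hg => (hD g hg).symm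
  rw [h5, avc_eq]
  rfl

/-- the state in terms of `mu` -/
lemma muP_eq (hd : Deloc) {s : Finset V} {F : (V → ℤ) → ℂ} (hF : AL s F) (h0 : Phs 0 F) (w : V) :
    muP F = (mu (fun h => (F (nrm w h)).re) : ℂ) + (mu (fun h => (F (nrm w h)).im) : ℂ) * Complex.I := by
  have := RP4.dom_neBot
  exact (tendsto_aux hd hF h0 w).limUnder_eq

lemma muP_re (hd : Deloc) {s : Finset V} {F : (V → ℤ) → ℂ} (hF : AL s F) (h0 : Phs 0 F) (w : V) :
    (muP F).re = mu (fun h => (F (nrm w h)).re) := by
  rw [muP_eq hd hF h0 w]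
  simp

lemma muP_im (hd : Deloc) {s : Finset V} {F : (V → ℤ) → ℂ} (hF : AL s F) (h0 : Phs 0 F) (w : V) :
    (muP F).im = mu (fun h => (F (nrm w h)).im) := by
  rw [muP_eq hd hF h0 w]
  simp

/-! ## the state `muP` -/

theorem muP_tendsto (hd : Deloc) {s : Finset V} {F : (V → ℤ) → ℂ} (hF : AL s F) (h0 : Phs 0 F) :
    Tendsto (fun D => avc (Om D) F) dom (𝓝 (muP F)) := by
  rw [muP_eq hd hF h0 (0, 0)]
  exact tendsto_aux hd hF h0 (0, 0)

/-- only height functions matter -/
theorem muP_congr (hd : Deloc) {s : Finset V} {F G : (V → ℤ) → ℂ} (hF : AL s F) (hF0 : Phs 0 F)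
    (hG : AL s G) (hG0 : Phs 0 G) (h : ∀ g, GH g → F g = G g) : muP F = muP G := by
  have := RP4.dom_neBot
  refine tendsto_nhds_unique_of_eventuallyEq (muP_tendsto hd hF hF0) (muP_tendsto hd hG hG0) ?_
  filter_upwards [ev_ext s] with D hD
  refine avc_congr fun g hg => ?_
  obtain ⟨g', h1, h2⟩ := hD.2 g hg
  rw [hF g g' fun x hx => (h2 x hx).symm, hG g g' fun x hx => (h2 x hx).symm, h g' h1]

theorem muP_add (hd : Deloc) {s : Finset V} {F G : (V → ℤ) → ℂ} (hF : AL s F) (hF0 : Phs 0 F)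
    (hG : AL s G) (hG0 : Phs 0 G) : muP (fun g => F g + G g) = muP F + muP G := by
  have := RP4.dom_neBot
  refine Tendsto.limUnder_eq ?_
  refine ((muP_tendsto hd hF hF0).add (muP_tendsto hd hG hG0)).congr fun D => ?_
  unfold avc
  rw [Finset.sum_add_distrib, add_div]

theorem muP_smul (hd : Deloc) {s : Finset V} {F : (V → ℤ) → ℂ} (hF : AL s F) (hF0 : Phs 0 F)
    (c : ℂ) : muP (fun g => c * F g) = c * muP F := by
  have := RP4.dom_neBot
  refine Tendsto.limUnder_eq ?_
  refine ((muP_tendsto hd hF hF0).const_mul c).congr fun D => ?_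
  unfold avc
  rw [← Finset.mul_sum, mul_div_assoc]

theorem muP_conj (hd : Deloc) {s : Finset V} {F : (V → ℤ) → ℂ} (hF : AL s F) (hF0 : Phs 0 F) :
    muP (fun g => (starRingEnd ℂ) (F g)) = (starRingEnd ℂ) (muP F) := by
  have := RP4.dom_neBot
  refine Tendsto.limUnder_eq ?_
  refine ((Complex.continuous_conj.tendsto _).comp (muP_tendsto hd hF hF0)).congr fun D => ?_
  simp only [Function.comp_apply]
  unfold avc
  rw [map_div₀, map_sum, Complex.conj_natCast]

theorem muP_const (c : ℂ) : muP (fun _ => c) = c := by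
  have := RP4.dom_neBot
  refine Tendsto.limUnder_eq ?_
  refine tendsto_const_nhds.congr' ?_
  filter_upwards [ev_ext ∅] with D hD
  have h1 : ((Om D).card : ℂ) ≠ 0 := by
    exact_mod_cast hD.1.card_pos.ne'
  unfold avc
  rw [Finset.sum_const, nsmul_eq_mul, mul_div_cancel_left₀ _ h1]

theorem norm_muP_le (hd : Deloc) {s : Finset V} {F G : (V → ℤ) → ℂ} (hF : AL s F) (hF0 : Phs 0 F)
    (hG : AL s G) (hG0 : Phs 0 G) (h : ∀ g, GH g → ‖F g‖ ≤ (G g).re) : ‖muP F‖ ≤ (muP G).re := by
  have := RP4.dom_neBot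
  refine le_of_tendsto_of_tendsto (muP_tendsto hd hF hF0).norm
    ((Complex.continuous_re.tendsto _).comp (muP_tendsto hd hG hG0)) ?_
  filter_upwards [ev_ext s] with D hD
  refine (norm_avc_le _ _).trans ?_
  simp only [Function.comp_apply]
  rw [avc_re]
  refine avg_mono fun g hg => ?_
  obtain ⟨g', h1, h2⟩ := hD.2 g hg
  rw [hF g g' fun x hx => (h2 x hx).symm, hG g g' fun x hx => (h2 x hx).symm]
  exact h g' h1

theorem muP_re_mono (hd : Deloc) {s : Finset V} {F G : (V → ℤ) → ℂ} (hF : AL s F) (hF0 : Phs 0 F)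
    (hG : AL s G) (hG0 : Phs 0 G) (h : ∀ g, GH g → (F g).re ≤ (G g).re) :
    (muP F).re ≤ (muP G).re := by
  have := RP4.dom_neBot
  refine le_of_tendsto_of_tendsto ((Complex.continuous_re.tendsto _).comp (muP_tendsto hd hF hF0))
    ((Complex.continuous_re.tendsto _).comp (muP_tendsto hd hG hG0)) ?_
  filter_upwards [ev_ext s] with D hD
  simp only [Function.comp_apply]
  rw [avc_re, avc_re]
  refine avg_mono fun g hg => ?_
  obtain ⟨g', h1, h2⟩ := hD.2 g hg
  rw [hF g g' fun x hx => (h2 x hx).symm, hG g g' fun x hx => (h2 x hx).symm]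
  exact h g' h1

end DV
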