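import Pool.Agent.Helper33.DV.Pm1
import Pool.Agent.Helper75.GF.L3d

/-!
# Project DV, block PL1: reflections and translations
-/

open Finset Filter Topology

namespace DV

open RP4 (V Adj BdryPar Om dom avg mu Loc Deloc dist1)
open GF.Lat (ld DirZ lref)


/-! ## private lemmas -/

private lemma Pm2_loc {s : Finset V} {F : (V → ℤ) → ℂ} (hF : AL s F) (w : V) (f : ℂ → ℝ) :
    Loc (insert w s) (fun h => f (F (nrm w h))) := by
  intro h h' hh
  have h1 : F (nrm w h) = F (nrm w h') := hF _ _ fun x hx => by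
    have h2 := hh x (Finset.mem_insert_of_mem hx) w (Finset.mem_insert_self w s)
    simp only [nrm]
    omega
  show f (F (nrm w h)) = f (F (nrm w h'))
  rw [h1]

private lemma Pm2_val {F : (V → ℤ) → ℂ} (h0 : Phs 0 F) {D : Finset V} {w : V} (hw : w ∈ D)
    {h : V → ℤ} (hh : h ∈ Om D) : F (nrm w h) = F h := by
  obtain ⟨k, hk⟩ := (RP4.mem_Om.1 hh).1.par w hw
  have h1 : nrm w h = lev k h := by
    funext v
    simp only [nrm, lev]
    omega
  rw [h1, h0.lev0]

private lemma Pm2_eq (hd : Deloc) {s : Finset V} {F : (V → ℤ) → ℂ} (hF : AL s F) (h0 : Phs 0 F)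
    (w : V) : muP F = ((mu fun h => (F (nrm w h)).re : ℝ) : ℂ) +
      ((mu fun h => (F (nrm w h)).im : ℝ) : ℂ) * Complex.I := by
  have := RP4.dom_neBot
  unfold muP
  refine Tendsto.limUnder_eq ?_
  have h1 := RP4.mu_tendsto hd (Pm2_loc hF w Complex.re)
  have h2 := RP4.mu_tendsto hd (Pm2_loc hF w Complex.im)
  have h3 := ((Complex.continuous_ofReal.tendsto _).comp h1).add
    (((Complex.continuous_ofReal.tendsto _).comp h2).mul_const Complex.I)
  refine h3.congr' ?_
  refine RP4.eventually_dom.2 ⟨{w}, fun D hD _ => ?_⟩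
  have hw : w ∈ D := hD (Finset.mem_singleton_self w)
  have h4 : ∑ g ∈ Om D, F g = ((∑ g ∈ Om D, (F (nrm w g)).re : ℝ) : ℂ) +
      ((∑ g ∈ Om D, (F (nrm w g)).im : ℝ) : ℂ) * Complex.I := by
    rw [Complex.ofReal_sum, Complex.ofReal_sum, Finset.sum_mul, ← Finset.sum_add_distrib]
    refine Finset.sum_congr rfl fun g hg => ?_
    rw [Complex.re_add_im, Pm2_val h0 hw hg]
  simp only [Function.comp_apply, avc, avg]
  rw [h4]
  push_cast
  ring

private def Pm2Iv (τ : V → V) : Prop :=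
  ∀ (s : Finset V) (F : (V → ℤ) → ℝ), Loc s F → mu (fun h => F (fun v => h (τ v))) = mu F

private lemma Pm2_comp {τ σ : V → V} (h1 : Pm2Iv τ) (h2 : Pm2Iv σ) : Pm2Iv (fun v => τ (σ v)) := by
  intro s F hF
  have h3 := h1 _ (fun h => F (fun v => h (σ v))) (GF.Lat.loc_map hF σ)
  exact h3.trans (h2 s F hF)

private lemma Pm2_congr {τ σ : V → V} (h1 : Pm2Iv τ) (h : ∀ v, τ v = σ v) : Pm2Iv σ := by
  have : τ = σ := funext h
  rw [← this]
  exact h1

private lemma Pm2_tr (hd : Deloc) (u : V) : Pm2Iv (fun v => v + u) := fun _ _ hF =>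
  RP4.mu_trans hd hF u

private lemma Pm2_r1 (hd : Deloc) : Pm2Iv (fun v => (-v.1, v.2)) := fun _ _ hF =>
  RP4.mu_refl1 hd hF

private lemma Pm2_sw (hd : Deloc) : Pm2Iv (fun v => (v.2, v.1)) := fun _ _ hF =>
  RP4.mu_swap hd hF

private lemma Pm2_lref (hd : Deloc) {d : ℤ × ℤ} (hdr : DirZ d) (m : ℤ) : Pm2Iv (lref d m) := by
  rcases hdr with rfl | rfl | rfl | rfl | rfl | rfl | rfl | rfl
  · refine Pm2_congr (Pm2_comp (Pm2_r1 hd) (Pm2_tr hd (-(2 * m), 0))) fun v => ?_
    refine Prod.ext ?_ ?_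
    · simp only [Prod.fst_add, Prod.snd_add, lref, ld]
      omega
    · simp only [Prod.fst_add, Prod.snd_add, lref, ld]
      omega
  · refine Pm2_congr (Pm2_comp (Pm2_r1 hd) (Pm2_tr hd (2 * m, 0))) fun v => ?_
    refine Prod.ext ?_ ?_
    · simp only [Prod.fst_add, Prod.snd_add, lref, ld]
      omega
    · simp only [Prod.fst_add, Prod.snd_add, lref, ld]
      omega
  · refine Pm2_congr (Pm2_comp (Pm2_sw hd) (Pm2_comp (Pm2_r1 hd) (Pm2_comp (Pm2_sw hd)
      (Pm2_tr hd (0, -(2 * m)))))) fun v => ?_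
    refine Prod.ext ?_ ?_
    · simp only [Prod.fst_add, Prod.snd_add, lref, ld]
      omega
    · simp only [Prod.fst_add, Prod.snd_add, lref, ld]
      omega
  · refine Pm2_congr (Pm2_comp (Pm2_sw hd) (Pm2_comp (Pm2_r1 hd) (Pm2_comp (Pm2_sw hd)
      (Pm2_tr hd (0, 2 * m))))) fun v => ?_
    refine Prod.ext ?_ ?_
    · simp only [Prod.fst_add, Prod.snd_add, lref, ld]
      omega
    · simp only [Prod.fst_add, Prod.snd_add, lref, ld]
      omega
  · refine Pm2_congr (Pm2_comp (Pm2_r1 hd) (Pm2_comp (Pm2_sw hd) (Pm2_comp (Pm2_r1 hd)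
      (Pm2_tr hd (-m, -m))))) fun v => ?_
    refine Prod.ext ?_ ?_
    · simp only [Prod.fst_add, Prod.snd_add, lref, ld]
      omega
    · simp only [Prod.fst_add, Prod.snd_add, lref, ld]
      omega
  · refine Pm2_congr (Pm2_comp (Pm2_r1 hd) (Pm2_comp (Pm2_sw hd) (Pm2_comp (Pm2_r1 hd)
      (Pm2_tr hd (m, m))))) fun v => ?_
    refine Prod.ext ?_ ?_
    · simp only [Prod.fst_add, Prod.snd_add, lref, ld]
      omega
    · simp only [Prod.fst_add, Prod.snd_add, lref, ld]
      omega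
  · refine Pm2_congr (Pm2_comp (Pm2_sw hd) (Pm2_tr hd (-m, m))) fun v => ?_
    refine Prod.ext ?_ ?_
    · simp only [Prod.fst_add, Prod.snd_add, lref, ld]
      omega
    · simp only [Prod.fst_add, Prod.snd_add, lref, ld]
      omega
  · refine Pm2_congr (Pm2_comp (Pm2_sw hd) (Pm2_tr hd (m, -m))) fun v => ?_
    refine Prod.ext ?_ ?_
    · simp only [Prod.fst_add, Prod.snd_add, lref, ld]
      omega
    · simp only [Prod.fst_add, Prod.snd_add, lref, ld]
      omega

private lemma Pm2_phs_rfo {φ : ℝ} {F : (V → ℤ) → ℂ} (h : Phs φ F) (d : ℤ × ℤ) (m : ℤ) :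
    Phs φ (rfo d m F) := fun k g => h k (fun v => g (lref d m v))

private lemma Pm2_phs_tro {φ : ℝ} {F : (V → ℤ) → ℂ} (h : Phs φ F) (u : V) :
    Phs φ (tro u F) := fun k g => h k (fun v => g (v + u))

private lemma Pm2_unit (r : ℝ) : Complex.exp (-(r : ℂ) * Complex.I) *
    (starRingEnd ℂ) (Complex.exp (-(r : ℂ) * Complex.I)) = 1 := by
  have h1 : -(r : ℂ) * Complex.I = ((-r : ℝ) : ℂ) * Complex.I := by push_cast; ring
  rw [h1, Complex.mul_conj', Complex.norm_exp_ofReal_mul_I]
  simp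

private lemma Pm2_phs_pr {φ : ℝ} {F G : (V → ℤ) → ℂ} (hF : Phs φ F) (hG : Phs φ G) (d : ℤ × ℤ)
    (m : ℤ) : Phs 0 (rpr d m F G) := by
  intro k h
  have h1 := hF k h
  have h2 := Pm2_phs_rfo hG d m k h
  have h3 := Pm2_unit (2 * k * φ)
  unfold rpr
  rw [h1, h2, map_mul]
  have h4 : Complex.exp (-((2 * k * (0 : ℝ) : ℝ) : ℂ) * Complex.I) = 1 := by simp
  rw [h4, one_mul]
  linear_combination (F h * (starRingEnd ℂ) (rfo d m G h)) * h3

private lemma Pm2_al_pr {s : Finset V} {F G : (V → ℤ) → ℂ} (hF : AL s F) (hG : AL s G)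
    (d : ℤ × ℤ) (m : ℤ) : AL (s ∪ s.image (lref d m)) (rpr d m F G) :=
  (hF.mono Finset.subset_union_left).mul
    (((hG.rfo d m).comp (starRingEnd ℂ)).mono Finset.subset_union_right)

/-- the reflected observable at the normalised height function -/
private lemma Pm2_rfo_nrm {d : ℤ × ℤ} {m : ℤ} {w : V} (hw : lref d m w = w) (F : (V → ℤ) → ℂ)
    (h : V → ℤ) : rfo d m F (nrm w h) = F (nrm w (fun v => h (lref d m v))) := by
  unfold rfo nrm
  simp only [hw]

/-- the two parts of `muP (rpr d m F G)` -/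
private lemma Pm2_pr_eq (hd : Deloc) {d : ℤ × ℤ} {m : ℤ} {s : Finset V} {φ : ℝ}
    {F G : (V → ℤ) → ℂ} (hF : AL s F) (hFp : Phs φ F) (hG : AL s G) (hGp : Phs φ G) {w : V}
    (hw : lref d m w = w) :
    (muP (rpr d m F G)).re = mu (fun h => (F (nrm w h)).re *
        (G (nrm w (fun v => h (lref d m v)))).re +
        (F (nrm w h)).im * (G (nrm w (fun v => h (lref d m v)))).im) ∧
    (muP (rpr d m F G)).im = mu (fun h => (F (nrm w h)).im *
        (G (nrm w (fun v => h (lref d m v)))).re -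
        (F (nrm w h)).re * (G (nrm w (fun v => h (lref d m v)))).im) := by
  have h1 := Pm2_eq hd (Pm2_al_pr hF hG d m) (Pm2_phs_pr hFp hGp d m) w
  have h2 : ∀ h, rpr d m F G (nrm w h) = F (nrm w h) *
      (starRingEnd ℂ) (G (nrm w (fun v => h (lref d m v)))) := by
    intro h
    unfold rpr
    rw [Pm2_rfo_nrm hw]
  simp only [h2] at h1
  rw [h1]
  constructor
  · simp only [Complex.add_re, Complex.mul_re, Complex.ofReal_re, Complex.ofReal_im,
      Complex.I_re, Complex.I_im, Complex.conj_re, Complex.conj_im, mul_zero, zero_mul, sub_zero,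
      add_zero]
    congr 1
    funext h
    ring
  · simp only [Complex.add_im, Complex.mul_im, Complex.ofReal_re, Complex.ofReal_im,
      Complex.I_re, Complex.I_im, Complex.conj_re, Complex.conj_im, mul_zero, mul_one, zero_add,
      add_zero]
    congr 1
    funext h
    ring

/-
PLAN for this file.  With `nrm w h := fun v => h v - h w + RP4.par w` and the lemma of Pm1 that `muP F` is
`mu` of the real and imaginary parts of `F (nrm w h)` (every `w`).
muP_refl: choose `w` on the line (GF.Lat.exists_line, lref_fix): `nrm w h ∘ lref = nrm w (h ∘ lref)`; then the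
invariance of `mu` under lattice reflections (GF.Lat, in Helper75/GF/L3c.lean, derive it from RP4.mu_trans,
RP4.mu_refl1, RP4.mu_swap as there) for the two real parts.  muP_trans: `RP4.mu_trans` with `nrm (w + u)` and
`nrm w` (parity of `u` even gives the same normalisation).
muP_rp, muP_cs: `w` on the line, `s' = insert w s`, `F₀ h = F (nrm w h)`, `G₀` alike are functions of height
differences on `s'`, and `rpr d m F G h = F₀ h * conj (G₀ (h ∘ lref))` for `GH h` (the phases cancel, because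
`nrm w h = lev k h` with the same `k` on both sides, `w` being fixed by the reflection).  With real and imaginary
parts `F₁, F₂, G₁, G₂`: the real part is `mu (F₁ * G₁∘θ + F₂ * G₂∘θ)`, `GF.Lat.mu_cs_pair` (Helper75/GF/L3d.lean)
bounds its square; replace `F` by `c F`, `|c| = 1`, to make `muP (rpr d m F G)` real and non-negative.  The
imaginary part of `muP (rpr d m F F)` is `mu (F₂ * F₁∘θ) - mu (F₁ * F₂∘θ) = 0` by muP_refl (θ is an involution,
GF.Lat.lref_lref).
-/
theorem muP_refl (hd : Deloc) {d : ℤ × ℤ} (hdr : DirZ d) (m : ℤ) {s : Finset V}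
    {F : (V → ℤ) → ℂ} (hF : AL s F) (hF0 : Phs 0 F) : muP (rfo d m F) = muP F := by
  obtain ⟨w, hw⟩ := GF.Lat.exists_line hdr m
  have hfix := GF.Lat.lref_fix hdr hw
  rw [Pm2_eq hd (hF.rfo d m) (Pm2_phs_rfo hF0 d m) w, Pm2_eq hd hF hF0 w]
  have h1 := Pm2_lref hd hdr m _ _ (Pm2_loc hF w Complex.re)
  have h2 := Pm2_lref hd hdr m _ _ (Pm2_loc hF w Complex.im)
  simp only [Pm2_rfo_nrm hfix]
  rw [h1, h2]

theorem muP_trans (hd : Deloc) {s : Finset V} {F : (V → ℤ) → ℂ} (hF : AL s F) (hF0 : Phs 0 F)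
    {u : V} (hu : Even (RP4.par u)) : muP (tro u F) = muP F := by
  obtain ⟨j, hj⟩ := hu
  have h0 : ∀ h : V → ℤ, tro u F (nrm u h) = F (nrm 0 (fun v => h (v + u))) := by
    intro h
    have h1 : (fun v => nrm u h (v + u)) = lev (-j) (nrm 0 (fun v => h (v + u))) := by
      funext v
      have h2 : RP4.par (0 : V) = 0 := by simp [RP4.par]
      simp only [nrm, lev, zero_add, h2]
      omega
    show F (fun v => nrm u h (v + u)) = _
    rw [h1, hF0.lev0]
  rw [Pm2_eq hd (hF.tro u) (Pm2_phs_tro hF0 u) u, Pm2_eq hd hF hF0 0]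
  have h1 := RP4.mu_trans hd (Pm2_loc hF 0 Complex.re) u
  have h2 := RP4.mu_trans hd (Pm2_loc hF 0 Complex.im) u
  simp only [h0]
  rw [h1, h2]

/-- reflection positivity for observables of the same phase -/
theorem muP_rp (hd : Deloc) {d : ℤ × ℤ} (hdr : DirZ d) (m : ℤ) {s : Finset V}
    (hs : ∀ x ∈ s, ld d x ≤ m) {φ : ℝ} {F : (V → ℤ) → ℂ} (hF : AL s F) (hFp : Phs φ F) :
    0 ≤ (muP (rpr d m F F)).re ∧ (muP (rpr d m F F)).im = 0 := by
  obtain ⟨w, hw⟩ := GF.Lat.exists_line hdr m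
  have hfix := GF.Lat.lref_fix hdr hw
  have hs' : ∀ x ∈ insert w s, ld d x ≤ m := by
    intro x hx
    rcases Finset.mem_insert.1 hx with rfl | h
    · exact hw.le
    · exact hs x h
  obtain ⟨e1, e2⟩ := Pm2_pr_eq hd hF hFp hF hFp hfix
  have l1 := Pm2_loc hF w Complex.re
  have l2 := Pm2_loc hF w Complex.im
  have hl : ∀ {A B : (V → ℤ) → ℝ}, Loc (insert w s) A → Loc (insert w s) B →
      Loc (insert w s ∪ (insert w s).image (lref d m))
        (fun h => A h * B (fun v => h (lref d m v))) := fun hA hB =>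
    (hA.mono Finset.subset_union_left).mul
      ((GF.Lat.loc_map hB (lref d m)).mono Finset.subset_union_right)
  refine ⟨?_, ?_⟩
  · rw [e1, RP4.mu_add hd (hl l1 l1) (hl l2 l2)]
    exact add_nonneg (GF.Lat.mu_rp hd hdr m hs' l1) (GF.Lat.mu_rp hd hdr m hs' l2)
  · rw [e2]
    have h1 := Pm2_lref hd hdr m _ _ (hl l1 l2)
    have h2 : mu (fun h => (F (nrm w h)).im * (F (nrm w (fun v => h (lref d m v)))).re) =
        mu (fun h => (F (nrm w h)).re * (F (nrm w (fun v => h (lref d m v)))).im) := by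
      rw [← h1]
      congr 1
      funext h
      simp only [GF.Lat.lref_lref hdr]
      ring
    have h3 : (fun h => (F (nrm w h)).im * (F (nrm w (fun v => h (lref d m v)))).re -
        (F (nrm w h)).re * (F (nrm w (fun v => h (lref d m v)))).im) =
        fun h => (F (nrm w h)).im * (F (nrm w (fun v => h (lref d m v)))).re +
          (-1) * ((F (nrm w h)).re * (F (nrm w (fun v => h (lref d m v)))).im) := by
      funext h
      ring
    rw [h3, RP4.mu_add hd (hl l2 l1) ((hl l1 l2).comp fun t => (-1) * t),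
      RP4.mu_smul hd (hl l1 l2), h2]
    ring

private lemma Pm2_cs_re (hd : Deloc) {d : ℤ × ℤ} (hdr : DirZ d) (m : ℤ) {s : Finset V}
    (hs : ∀ x ∈ s, ld d x ≤ m) {φ : ℝ} {F G : (V → ℤ) → ℂ} (hF : AL s F) (hFp : Phs φ F)
    (hG : AL s G) (hGp : Phs φ G) :
    (muP (rpr d m F G)).re ^ 2 ≤ (muP (rpr d m F F)).re * (muP (rpr d m G G)).re := by
  obtain ⟨w, hw⟩ := GF.Lat.exists_line hdr m
  have hfix := GF.Lat.lref_fix hdr hw
  have hs' : ∀ x ∈ insert w s, ld d x ≤ m := by
    intro x hx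
    rcases Finset.mem_insert.1 hx with rfl | h
    · exact hw.le
    · exact hs x h
  have l1 : Loc (insert w s) (fun h => (F (nrm w h)).re) := Pm2_loc hF w Complex.re
  have l2 : Loc (insert w s) (fun h => (F (nrm w h)).im) := Pm2_loc hF w Complex.im
  have l3 : Loc (insert w s) (fun h => (G (nrm w h)).re) := Pm2_loc hG w Complex.re
  have l4 : Loc (insert w s) (fun h => (G (nrm w h)).im) := Pm2_loc hG w Complex.im
  have key := GF.Lat.mu_cs_pair hd hdr m hs' l1 l2 l3 l4
  beta_reduce at key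
  have e1 := (Pm2_pr_eq hd hF hFp hG hGp hfix).1
  have e2 := (Pm2_pr_eq hd hF hFp hF hFp hfix).1
  have e3 := (Pm2_pr_eq hd hG hGp hG hGp hfix).1
  rw [← e1, ← e2, ← e3] at key
  exact key

/-- Cauchy-Schwarz inequality across a line for observables of the same phase -/
theorem muP_cs (hd : Deloc) {d : ℤ × ℤ} (hdr : DirZ d) (m : ℤ) {s : Finset V}
    (hs : ∀ x ∈ s, ld d x ≤ m) {φ : ℝ} {F G : (V → ℤ) → ℂ} (hF : AL s F) (hFp : Phs φ F)
    (hG : AL s G) (hGp : Phs φ G) :
    ‖muP (rpr d m F G)‖ ^ 2 ≤ (muP (rpr d m F F)).re * (muP (rpr d m G G)).re := by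
  set z := muP (rpr d m F G) with hz
  by_cases h0 : z = 0
  · rw [h0, norm_zero]
    have h1 := (muP_rp hd hdr m hs hF hFp).1
    have h2 := (muP_rp hd hdr m hs hG hGp).1
    have := mul_nonneg h1 h2
    linarith [this]
  · have hn : (‖z‖ : ℂ) ≠ 0 := by
      rw [Ne, Complex.ofReal_eq_zero, norm_eq_zero]
      exact h0
    set c : ℂ := (starRingEnd ℂ) z / ‖z‖ with hc
    have hcz : c * z = ‖z‖ := by
      rw [hc, div_mul_eq_mul_div, mul_comm, Complex.mul_conj', sq, mul_div_assoc, div_self hn,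
        mul_one]
    have hcc : c * (starRingEnd ℂ) c = 1 := by
      rw [hc, map_div₀, Complex.conj_conj, Complex.conj_ofReal, div_mul_div_comm, mul_comm,
        Complex.mul_conj', ← sq, div_self (pow_ne_zero 2 hn)]
    have hF' : AL s (fun g => c * F g) := hF.comp fun t => c * t
    have hFp' : Phs φ (fun g => c * F g) := by
      intro k h
      show c * F (lev k h) = _ * (c * F h)
      rw [hFp k h]
      ring
    have h1 := Pm2_cs_re hd hdr m hs hF' hFp' hG hGp
    have e1 : rpr d m (fun g => c * F g) G = fun g => c * rpr d m F G g := by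
      funext g
      simp only [rpr]
      ring
    have e2 : rpr d m (fun g => c * F g) (fun g => c * F g) = rpr d m F F := by
      funext g
      simp only [rpr, rfo, map_mul]
      linear_combination (F g * (starRingEnd ℂ) (F fun v => g (lref d m v))) * hcc
    rw [e1, e2, muP_smul hd (Pm2_al_pr hF hG d m) (Pm2_phs_pr hFp hGp d m) c, ← hz, hcz,
      Complex.ofReal_re] at h1
    exact h1

end DV
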