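import Pool.Agent.Helper33.DV.Pm4

/-!
# Project DV, block PL1: products of observables on both sides of a line
-/

open Finset Filter Topology

namespace DV

open RP4 (V Adj BdryPar Om dom avg mu Loc Deloc dist1)
open GF.Lat (ld DirZ lref)

lemma rfo_rfo {d : ℤ × ℤ} (hdr : DirZ d) (m : ℤ) (A : (V → ℤ) → ℂ) : rfo d m (rfo d m A) = A := by
  funext h
  unfold rfo
  congr 1
  funext v
  simp only [GF.Lat.lref_lref hdr]

lemma Pn.mono {s t : Finset V} {A : (V → ℤ) → ℂ} (hA : Pn s A) (hst : s ⊆ t) : Pn t A := by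
  refine ⟨hA.loc.mono hst, ?_⟩
  obtain ⟨N, hN⟩ := hA.pin
  refine ⟨N, fun h hh => ?_⟩
  obtain ⟨x, hx, hx2⟩ := hN h hh
  exact ⟨x, hst hx, hx2⟩

lemma Pn.rfo {s : Finset V} {A : (V → ℤ) → ℂ} (hA : Pn s A) (d : ℤ × ℤ) (m : ℤ) :
    Pn (s.image (lref d m)) (rfo d m A) := by
  refine ⟨hA.loc.rfo d m, ?_⟩
  obtain ⟨N, hN⟩ := hA.pin
  refine ⟨N, fun h hh => ?_⟩
  obtain ⟨x, hx, hx2⟩ := hN _ hh
  exact ⟨lref d m x, Finset.mem_image_of_mem _ hx, hx2⟩

lemma Pn.conj {s : Finset V} {A : (V → ℤ) → ℂ} (hA : Pn s A) :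
    Pn s (fun h => (starRingEnd ℂ) (A h)) := by
  refine ⟨hA.loc.comp fun z => (starRingEnd ℂ) z, ?_⟩
  obtain ⟨N, hN⟩ := hA.pin
  exact ⟨N, fun h hh => hN h fun h0 => hh (by simp only [h0, map_zero])⟩

private lemma image_behind {d : ℤ × ℤ} (hdr : DirZ d) {m : ℤ} {t : Finset V}
    (ht : ∀ x ∈ t, m ≤ ld d x) : ∀ x ∈ t.image (lref d m), ld d x ≤ m := by
  intro x hx
  obtain ⟨y, hy, rfl⟩ := Finset.mem_image.1 hx
  have h1 := ht y hy
  rw [GF.Lat.ld_lref hdr]
  linarith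

/-- the norm of the reflected and conjugated observable -/
lemma sqn_rfo_conj (hd : Deloc) {d : ℤ × ℤ} (hdr : DirZ d) (m : ℤ) {t : Finset V}
    {G : (V → ℤ) → ℂ} (hG : Pn t G) :
    sqn d m (fun h => (starRingEnd ℂ) (rfo d m G h)) = sqn d m G := by
  have h1 : rpr d m (fun h => (starRingEnd ℂ) (rfo d m G h))
      (fun h => (starRingEnd ℂ) (rfo d m G h)) = rpr d m G G := by
    funext h
    have h2 : rfo d m (fun h => (starRingEnd ℂ) (rfo d m G h)) h = (starRingEnd ℂ) (G h) := by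
      have h3 := congrFun (rfo_rfo hdr m G) h
      change (starRingEnd ℂ) (rfo d m (rfo d m G) h) = _
      rw [h3]
    unfold rpr
    rw [h2, Complex.conj_conj, mul_comm]
  unfold sqn
  rw [h1]

/-- Cauchy-Schwarz inequality for a product of pinned observables on the two sides of a line -/
theorem M_cs' (hd : Deloc) {d : ℤ × ℤ} (hdr : DirZ d) (m : ℤ) {s t : Finset V}
    (hs : ∀ x ∈ s, ld d x ≤ m) (ht : ∀ x ∈ t, m ≤ ld d x) {A G : (V → ℤ) → ℂ} (hA : Pn s A)
    (hG : Pn t G) : ‖M (fun h => A h * G h)‖ ^ 2 ≤ sqn d m A * sqn d m G := by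
  classical
  have h0 : (fun h => A h * G h) = rpr d m A (fun h => (starRingEnd ℂ) (rfo d m G h)) := by
    funext h
    have h3 := congrFun (rfo_rfo hdr m G) h
    change A h * G h = A h * (starRingEnd ℂ) ((starRingEnd ℂ) (rfo d m (rfo d m G) h))
    rw [Complex.conj_conj, h3]
  have h1 := M_cs hd hdr m (s := s ∪ t.image (lref d m)) (fun x hx => by
    rcases Finset.mem_union.1 hx with hx | hx
    · exact hs x hx
    · exact image_behind hdr ht x hx) (hA.mono Finset.subset_union_left)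
    (((hG.rfo d m).conj).mono Finset.subset_union_right)
  rw [← h0, sqn_rfo_conj hd hdr m hG] at h1
  exact h1

/-- the strong norm of the reflected and conjugated observable -/
lemma sqN_rfo_conj {d : ℤ × ℤ} (hdr : DirZ d) (m : ℤ) (G : (V → ℤ) → ℂ) :
    sqN d m (fun h => (starRingEnd ℂ) (rfo d m G h)) = sqN d m G := by
  unfold sqN
  have e1 : (fun h => ((‖(starRingEnd ℂ) (rfo d m G h)‖ : ℝ) : ℂ)) =
      rfo d m (fun h => ((‖G h‖ : ℝ) : ℂ)) := by
    funext h
    rw [RCLike.norm_conj]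
    rfl
  rw [e1, per_rfo]
  set P : (V → ℤ) → ℂ := per (fun h => ((‖G h‖ : ℝ) : ℂ)) with hP
  have e2 : ∀ h, (starRingEnd ℂ) (P h) = P h := by
    intro h
    rw [hP]
    unfold per
    by_cases hf : (Function.support fun k : ℤ => ((‖G (lev k h)‖ : ℝ) : ℂ)).Finite
    · have h3 := AddMonoidHom.map_finsum (starRingEnd ℂ).toAddMonoidHom hf
      refine Eq.trans h3 ?_
      exact finsum_congr fun k => Complex.conj_ofReal _
    · rw [finsum_of_infinite_support hf, map_zero]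
  have e3 : rpr d m (rfo d m P) (rfo d m P) = rpr d m P P := by
    funext h
    have h3 := congrFun (rfo_rfo hdr m P) h
    unfold rpr
    rw [h3, e2, mul_comm]
    congr 1
    exact (e2 _).symm
  rw [e3]

/-- the last step, for a product -/
theorem M_cs_phs' (hd : Deloc) {d : ℤ × ℤ} (hdr : DirZ d) (m : ℤ) {s t : Finset V}
    (hs : ∀ x ∈ s, ld d x ≤ m) (ht : ∀ x ∈ t, m ≤ ld d x) {φ : ℝ} {Y G : (V → ℤ) → ℂ}
    (hY : AL s Y) (hYp : Phs φ Y) (hG : Pn t G) :
    ‖M (fun h => Y h * G h)‖ ^ 2 ≤ (muP (rpr d m Y Y)).re * sqN d m G := by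
  classical
  have h0 : (fun h => Y h * G h) = rpr d m Y (fun h => (starRingEnd ℂ) (rfo d m G h)) := by
    funext h
    have h3 := congrFun (rfo_rfo hdr m G) h
    change Y h * G h = Y h * (starRingEnd ℂ) ((starRingEnd ℂ) (rfo d m (rfo d m G) h))
    rw [Complex.conj_conj, h3]
  have h1 := M_cs_phs hd hdr m (s := s ∪ t.image (lref d m)) (fun x hx => by
    rcases Finset.mem_union.1 hx with hx | hx
    · exact hs x hx
    · exact image_behind hdr ht x hx) (hY.mono Finset.subset_union_left) hYp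
    (((hG.rfo d m).conj).mono Finset.subset_union_right)
  rw [← h0, sqN_rfo_conj hdr m G] at h1
  exact h1

end DV
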