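import Pool.Agent.Helper33.DV.Ev2
import Pool.Agent.Helper97.DV.Pz

/-!
# Project DV, block ENV: positivity of the two point function under even weights
-/

open Finset Filter Topology Relation

namespace DV

open RP4 (V Adj BdryPar Om dom avg mu Loc Deloc dist1 bdry)
open GF.Lat (ld DirZ lref)

/-- the sign is constant on the clusters of nonzero sites -/
lemma con_sign {g : V → ℤ} (hst : ∀ u v, Adj u v → |g u - g v| ≤ 1) {u v : V}
    (h : Con (nz g) u v) : 0 < g u * g v := by
  obtain ⟨hu, h⟩ := h
  induction h with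
  | refl =>
    have h1 : g u ≠ 0 := hu
    exact mul_self_pos.2 h1
  | @tail b c _ hbc ih =>
    have h1 := hst b c hbc.1
    have h2 : g c ≠ 0 := hbc.2.2
    have h3 : g b ≠ 0 := hbc.2.1
    rw [abs_le] at h1
    rcases lt_trichotomy (g b) 0 with h4 | h4 | h4
    · have h5 : g c < 0 := by
        rcases lt_trichotomy (g c) 0 with h | h | h
        · exact h
        · exact absurd h h2
        · omega
      have h6 : g u < 0 := by
        by_contra h7
        push Not at h7
        exact absurd ih (not_lt.2 (mul_nonpos_of_nonneg_of_nonpos h7 h4.le))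
      exact mul_pos_of_neg_of_neg h6 h5
    · exact absurd h4 h3
    · have h5 : 0 < g c := by
        rcases lt_trichotomy (g c) 0 with h | h | h
        · omega
        · exact absurd h h2
        · exact h
      have h6 : 0 < g u := by
        by_contra h7
        push Not at h7
        exact absurd ih (not_lt.2 (mul_nonpos_of_nonpos_of_nonneg h7 h4.le))
      exact mul_pos h6 h5

private lemma con_trans_sign {g : V → ℤ} (hst : ∀ u v, Adj u v → |g u - g v| ≤ 1) {B : Set V}
    (hB : ∀ u ∈ B, ∀ v ∈ B, 0 ≤ g u * g v) {x y : V} (hx : ∃ b ∈ B, Con (nz g) x b)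
    (hy : ∃ b ∈ B, Con (nz g) y b) : 0 < g x * g y := by
  obtain ⟨b, hb, h1⟩ := hx
  obtain ⟨c, hc, h2⟩ := hy
  have h3 := con_sign hst h1
  have h4 := con_sign hst h2
  have h5 := hB b hb c hc
  have h6 : 0 < (g x * g y) * (g b * g c) := by
    have h7 : 0 < (g x * g b) * (g y * g c) := mul_pos h3 h4
    calc (0 : ℤ) < (g x * g b) * (g y * g c) := h7
      _ = (g x * g y) * (g b * g c) := by ring
  by_contra h8
  push Not at h8
  exact absurd h6 (not_lt.2 (mul_nonpos_of_nonpos_of_nonneg h8 h5))

open Classical in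
/-- the two point function of a set of configurations closed under the sign changes which do not
touch `B`, where the heights on `B` have one sign, is nonnegative for every even weight -/
theorem pos_conf {S : Finset (V → ℤ)} {E : (V → ℤ) → ℝ} (hE0 : ∀ g, 0 ≤ E g)
    (hEa : ∀ g g' : V → ℤ, (∀ v, |g v| = |g' v|) → E g = E g') {B : Set V}
    (hfl : ∀ g ∈ S, ∀ W : Set V, W ⊆ nz g → NzU g W → (∀ v ∈ W, v ∉ B) → flp W g ∈ S)
    (hst : ∀ g ∈ S, ∀ u v, Adj u v → |g u - g v| ≤ 1)
    (hB : ∀ g ∈ S, ∀ u ∈ B, ∀ v ∈ B, 0 ≤ g u * g v) (x y : V) :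
    0 ≤ ∑ g ∈ S, ((g x : ℝ) * (g y : ℝ)) * E g := by
  set P1 : (V → ℤ) → Prop := fun g => Con (nz g) x y with hP1
  set Bt : V → (V → ℤ) → Prop := fun z g => ∃ b ∈ B, Con (nz g) z b with hBt
  set τ : (V → ℤ) → (V → ℤ) := fun g => if P1 g then g else
    if ¬ Bt x g then flA {x} g else if ¬ Bt y g then flA {y} g else g with hτ
  have hnz : ∀ g, nz (τ g) = nz g := by
    intro g
    simp only [hτ]
    split_ifs <;> simp only [nz_flA]
  have hP1τ : ∀ g, P1 (τ g) ↔ P1 g := fun g => by simp only [hP1, hnz]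
  have hBtτ : ∀ z g, Bt z (τ g) ↔ Bt z g := fun z g => by simp only [hBt, hnz]
  have t1 : ∀ g, P1 g → τ g = g := fun g h1 => by simp only [hτ, if_pos h1]
  have t2 : ∀ g, ¬ P1 g → ¬ Bt x g → τ g = flA {x} g := fun g h1 h2 => by
    simp only [hτ, if_neg h1, h2, not_false_eq_true, if_true]
  have t3 : ∀ g, ¬ P1 g → Bt x g → ¬ Bt y g → τ g = flA {y} g := fun g h1 h2 h3 => by
    simp only [hτ, if_neg h1, h2, h3, not_true_eq_false, not_false_eq_true, if_false, if_true]
  have t4 : ∀ g, ¬ P1 g → Bt x g → Bt y g → τ g = g := fun g h1 h2 h3 => by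
    simp only [hτ, if_neg h1, h2, h3, not_true_eq_false, if_false]
  have hττ : ∀ g, τ (τ g) = g := by
    intro g
    by_cases h1 : P1 g
    · rw [t1 g h1, t1 g h1]
    · have h1' : ¬ P1 (τ g) := fun h => h1 ((hP1τ g).1 h)
      by_cases h2 : Bt x g
      · have h2' : Bt x (τ g) := (hBtτ x g).2 h2
        by_cases h3 : Bt y g
        · rw [t4 g h1 h2 h3, t4 g h1 h2 h3]
        · have h3' : ¬ Bt y (τ g) := fun h => h3 ((hBtτ y g).1 h)
          rw [t3 (τ g) h1' h2' h3', t3 g h1 h2 h3, flA_flA]
      · have h2' : ¬ Bt x (τ g) := fun h => h2 ((hBtτ x g).1 h)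
        rw [t2 (τ g) h1' h2', t2 g h1 h2, flA_flA]
  have hmem1 : ∀ g ∈ S, ∀ z, ¬ Bt z g → flA {z} g ∈ S := by
    intro g hg z hz
    refine hfl g hg _ (clus_sub _ _) (fun _ hu _ huv hv => clus_step hu huv hv) fun v hv hvB => ?_
    obtain ⟨u, hu, huv⟩ := hv
    rw [Set.mem_singleton_iff] at hu
    subst hu
    exact hz ⟨v, hvB, huv⟩
  have hmem : ∀ g ∈ S, τ g ∈ S := by
    intro g hg
    simp only [hτ]
    split_ifs with h1 h2 h3
    · exact hg
    · exact hg
    · exact hmem1 g hg y h3
    · exact hmem1 g hg x h2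
  set F : (V → ℤ) → ℝ := fun g => ((g x : ℝ) * (g y : ℝ)) * E g with hF
  have hsum : ∑ g ∈ S, F (τ g) = ∑ g ∈ S, F g :=
    Finset.sum_nbij' τ τ hmem hmem (fun g _ => hττ g) (fun g _ => hττ g) fun _ _ => rfl
  have habs : ∀ (A : Set V) (g : V → ℤ), E (flA A g) = E g := fun A g =>
    hEa _ _ fun v => abs_flA A g v
  have hterm : ∀ g ∈ S, 0 ≤ F g + F (τ g) := by
    intro g hg
    have hpos : 0 < g x * g y → 0 ≤ F g := fun h => by
      have h1 : (0 : ℝ) < (g x : ℝ) * (g y : ℝ) := by exact_mod_cast h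
      exact mul_nonneg h1.le (hE0 g)
    by_cases h1 : P1 g
    · rw [t1 g h1]
      have := hpos (con_sign (hst g hg) h1)
      linarith
    · by_cases h2 : Bt x g
      · by_cases h3 : Bt y g
        · rw [t4 g h1 h2 h3]
          have := hpos (con_trans_sign (hst g hg) (hB g hg) h2 h3)
          linarith
        · have h4 : ¬ JnNz {y} {x} g := by
            rintro ⟨u, hu, v, hv, huv⟩
            rw [Set.mem_singleton_iff] at hu hv
            subst hu
            subst hv
            exact h1 (huv.symm fun _ _ => adj_symm)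
          rw [t3 g h1 h2 h3]
          simp only [hF, habs, flA_on (Set.mem_singleton y), flA_off h4 (Set.mem_singleton x)]
          push_cast
          linarith
      · have h4 : ¬ JnNz {x} {y} g := by
          rintro ⟨u, hu, v, hv, huv⟩
          rw [Set.mem_singleton_iff] at hu hv
          subst hu
          subst hv
          exact h1 huv
        rw [t2 g h1 h2]
        simp only [hF, habs, flA_on (Set.mem_singleton x), flA_off h4 (Set.mem_singleton y)]
        push_cast
        linarith
  have h5 : 0 ≤ ∑ g ∈ S, (F g + F (τ g)) := Finset.sum_nonneg hterm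
  rw [Finset.sum_add_distrib, hsum] at h5
  change 0 ≤ ∑ g ∈ S, F g
  linarith

/-! ## the configurations of the floating measure in `D` -/

/-- steps of a configuration -/
lemma cf_step {D : Finset V} {h : V → ℤ} (hh : h ∈ Om D) (k : ℤ) (u v : V) (huv : Adj u v) :
    |lev k h u - lev k h v| ≤ 1 := by
  have e : lev k h u - lev k h v = h u - h v := by
    simp only [lev]
    ring
  rw [e]
  have hO := RP4.mem_Om.1 hh
  by_cases hu : u ∈ D <;> by_cases hv : v ∈ D
  · exact (hO.1.step u hu v hv huv).le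
  · have hb : u ∈ bdry D := RP4.mem_bdry.2 ⟨hu, v, adj_symm huv, hv⟩
    rw [hO.2 u hb, hO.1.off v hv]
    simp
  · have hb : v ∈ bdry D := RP4.mem_bdry.2 ⟨hv, u, huv, hu⟩
    rw [hO.2 v hb, hO.1.off u hu]
    simp
  · rw [hO.1.off v hv, hO.1.off u hu]
    simp

/-- sign change of clusters which do not touch the boundary -/
lemma cf_flip {D : Finset V} {h : V → ℤ} (hh : h ∈ Om D) (k : ℤ) {W : Set V}
    (hW : NzU (lev k h) W) (hWB : ∀ v ∈ W, v ∈ D ∧ v ∉ bdry D) :
    ∃ h' ∈ Om D, lev k h' = flp W (lev k h) := by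
  classical
  have hO := RP4.mem_Om.1 hh
  refine ⟨fun v => flp W (lev k h) v + 2 * k, ?_, ?_⟩
  · rw [RP4.mem_Om]
    refine ⟨⟨fun v hv => ?_, fun v hv => ?_, fun u hu v hv huv => ?_⟩, fun v hv => ?_⟩
    · have h1 : v ∉ W := fun h => hv (hWB v h).1
      simp only [flp, if_neg h1, lev, hO.1.off v hv]
      ring
    · have h1 := hO.1.par v hv
      unfold flp
      split_ifs
      · have h2 : -lev k h v + 2 * k - RP4.par v - 0 = (h v - RP4.par v - 0) - 2 * (h v - 2 * k) := by
          simp only [lev]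
          ring
        rw [h2]
        exact h1.sub (even_two_mul _)
      · have h2 : lev k h v + 2 * k - RP4.par v - 0 = h v - RP4.par v - 0 := by
          simp only [lev]
          ring
        rw [h2]
        exact h1
    · have h1 : |lev k h u - lev k h v| = 1 := by
        have e : lev k h u - lev k h v = h u - h v := by
          simp only [lev]
          ring
        rw [e]
        exact hO.1.step u hu v hv huv
      have e2 : ∀ a b : ℤ, a + 2 * k - (b + 2 * k) = a - b := fun a b => by ring
      rw [e2]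
      unfold flp
      by_cases hu' : u ∈ W <;> by_cases hv' : v ∈ W
      · rw [if_pos hu', if_pos hv', neg_sub_neg, abs_sub_comm]
        exact h1
      · rw [if_pos hu', if_neg hv']
        have h2 : lev k h v = 0 := by
          by_contra h3
          exact hv' (hW u hu' v huv h3)
        rw [h2] at h1 ⊢
        rw [sub_zero] at h1 ⊢
        rw [abs_neg]
        exact h1
      · rw [if_neg hu', if_pos hv']
        have h2 : lev k h u = 0 := by
          by_contra h3
          exact hu' (hW v hv' u (adj_symm huv) h3)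
        rw [h2] at h1 ⊢
        rw [zero_sub] at h1 ⊢
        rw [neg_neg, ← abs_neg]
        exact h1
      · rw [if_neg hu', if_neg hv']
        exact h1
    · have h1 : v ∉ W := fun h => (hWB v h).2 hv
      simp only [flp, if_neg h1, lev, hO.2 v hv]
      ring
  · funext v
    simp only [lev]
    ring

/-- positivity of the two point function of the floating measure in `D` with an even weight -/
theorem pos_Cf {s : Finset V} {E : (V → ℤ) → ℝ} (hE : Pn s (cx E)) (hE0 : ∀ g, 0 ≤ E g)
    (hEa : ∀ g g' : V → ℤ, (∀ v, |g v| = |g' v|) → E g = E g') (D : Finset V) (x y : V) :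
    0 ≤ ∑ g ∈ Cf E D, ((g x : ℝ) * (g y : ℝ)) * E g := by
  refine pos_conf hE0 hEa (B := {v | v ∉ D ∨ v ∈ bdry D}) ?_ ?_ ?_ x y
  · intro g hg W hW hWn hWB
    obtain ⟨h0, h, hh, k, rfl⟩ := (mem_Cf hE).1 hg
    have h1 : ∀ v ∈ W, v ∈ D ∧ v ∉ bdry D := by
      intro v hv
      have h2 := hWB v hv
      simp only [Set.mem_ofPred_eq, not_or, not_not] at h2
      exact h2
    obtain ⟨h', hh', he⟩ := cf_flip hh k hWn h1
    rw [mem_Cf hE]
    refine ⟨?_, h', hh', k, he⟩
    rw [hEa _ (lev k h) fun v => abs_flp W _ v]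
    exact h0
  · intro g hg u v huv
    obtain ⟨_, h, hh, k, rfl⟩ := (mem_Cf hE).1 hg
    exact cf_step hh k u v huv
  · intro g hg u hu v hv
    obtain ⟨_, h, hh, k, rfl⟩ := (mem_Cf hE).1 hg
    have hO := RP4.mem_Om.1 hh
    have h1 : ∀ w ∈ {v | v ∉ D ∨ v ∈ bdry D}, lev k h w = -(2 * k) := by
      intro w hw
      rcases hw with hw | hw
      · simp only [lev, hO.1.off w hw]
        ring
      · simp only [lev, hO.2 w hw]
        ring
    rw [h1 u hu, h1 v hv]
    exact mul_self_nonneg _

end DV
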